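import Pool.Agent.MMR.Diff

/-!
# MMR, module CertA: the certificate for `μ ≥ (3/2) (1 + b²)`
-/

set_option autoImplicit false

namespace Pool.Agent.MMR

open Real MeasureTheory Set Filter Topology Pool.Agent.MML

/-- valley -/
noncomputable def va (b c s : ℝ) : ℝ := c * (exp (-b * (s / (1 + b ^ 2))) * sin (s / (1 + b ^ 2)))
noncomputable def va1 (b c s : ℝ) : ℝ :=
  c * (exp (-b * (s / (1 + b ^ 2))) * (cos (s / (1 + b ^ 2)) - b * sin (s / (1 + b ^ 2)))) / (1 + b ^ 2)
noncomputable def va2 (b c s : ℝ) : ℝ :=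
  c * (exp (-b * (s / (1 + b ^ 2))) * ((b ^ 2 - 1) * sin (s / (1 + b ^ 2))
    - 2 * b * cos (s / (1 + b ^ 2)))) / (1 + b ^ 2) ^ 2

/-- hump -/
noncomputable def hu (b κ θ s : ℝ) : ℝ :=
  κ * (1 - exp (-b * (s / (1 + b ^ 2) - θ)) * (cos (s / (1 + b ^ 2) - θ)
    + b * sin (s / (1 + b ^ 2) - θ)))
noncomputable def hu1 (b κ θ s : ℝ) : ℝ :=
  κ * (exp (-b * (s / (1 + b ^ 2) - θ)) * sin (s / (1 + b ^ 2) - θ))
noncomputable def hu2 (b κ θ s : ℝ) : ℝ :=
  κ * (exp (-b * (s / (1 + b ^ 2) - θ)) * (cos (s / (1 + b ^ 2) - θ)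
    - b * sin (s / (1 + b ^ 2) - θ))) / (1 + b ^ 2)

theorem om_pos (b : ℝ) : (0 : ℝ) < 1 + b ^ 2 := by positivity

theorem va_d (b c s : ℝ) : HasDerivAt (va b c) (va1 b c s) s := by
  have h1 : HasDerivAt (fun s : ℝ => s / (1 + b ^ 2)) (1 / (1 + b ^ 2)) s := (hasDerivAt_id s).div_const _
  have h2 := ((h1.const_mul (-b)).exp.mul h1.sin).const_mul c
  refine h2.congr_deriv ?_
  unfold va1
  have := (om_pos b).ne'
  field_simp
  ring

theorem va1_d (b c s : ℝ) : HasDerivAt (va1 b c) (va2 b c s) s := by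
  have h1 : HasDerivAt (fun s : ℝ => s / (1 + b ^ 2)) (1 / (1 + b ^ 2)) s := (hasDerivAt_id s).div_const _
  have h2 := (((h1.const_mul (-b)).exp.mul (h1.cos.sub (h1.sin.const_mul b))).const_mul c).div_const
    (1 + b ^ 2)
  refine h2.congr_deriv ?_
  unfold va2
  have := (om_pos b).ne'
  simp only [Pi.sub_apply]
  field_simp
  ring

theorem hu_d (b κ θ s : ℝ) : HasDerivAt (hu b κ θ) (hu1 b κ θ s) s := by
  have h1 : HasDerivAt (fun s : ℝ => s / (1 + b ^ 2) - θ) (1 / (1 + b ^ 2)) s :=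
    ((hasDerivAt_id s).div_const _).sub_const θ
  have h2 := (((h1.const_mul (-b)).exp.mul (h1.cos.add (h1.sin.const_mul b))).const_sub 1).const_mul κ
  refine h2.congr_deriv ?_
  unfold hu1
  have := (om_pos b).ne'
  simp only [Pi.add_apply]
  field_simp
  ring

theorem hu1_d (b κ θ s : ℝ) : HasDerivAt (hu1 b κ θ) (hu2 b κ θ s) s := by
  have h1 : HasDerivAt (fun s : ℝ => s / (1 + b ^ 2) - θ) (1 / (1 + b ^ 2)) s :=
    ((hasDerivAt_id s).div_const _).sub_const θ
  have h2 := ((h1.const_mul (-b)).exp.mul h1.sin).const_mul κ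
  refine h2.congr_deriv ?_
  unfold hu2
  have := (om_pos b).ne'
  field_simp
  ring

theorem va_q (b c s : ℝ) : (1 + b ^ 2) * va2 b c s + 2 * b * va1 b c s + va b c s = 0 := by
  unfold va va1 va2
  have := (om_pos b).ne'
  field_simp
  ring

theorem hu_q (b κ θ s : ℝ) :
    (1 + b ^ 2) * hu2 b κ θ s + 2 * b * hu1 b κ θ s + hu b κ θ s = κ := by
  unfold hu hu1 hu2
  have := (om_pos b).ne'
  field_simp
  ring

theorem va2_c (b c : ℝ) : Continuous (va2 b c) := by
  unfold va2
  fun_prop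

theorem hu2_c (b κ θ : ℝ) : Continuous (hu2 b κ θ) := by
  unfold hu2
  fun_prop

/-- positivity of the hump -/
theorem hump0 (b : ℝ) {τ : ℝ} (h0 : 0 ≤ τ) (h1 : τ ≤ π) :
    0 ≤ 1 - exp (-b * τ) * (cos τ + b * sin τ) := by
  have hd : ∀ t : ℝ, HasDerivAt (fun t => 1 - exp (-b * t) * (cos t + b * sin t))
      ((1 + b ^ 2) * (exp (-b * t) * sin t)) t := by
    intro t
    have h1 : HasDerivAt (fun t : ℝ => -b * t) (-b) t := by
      simpa using (hasDerivAt_id t).const_mul (-b)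
    have h2 := ((h1.exp).mul ((hasDerivAt_cos t).add ((hasDerivAt_sin t).const_mul b))).const_sub 1
    refine h2.congr_deriv ?_
    simp only [Pi.add_apply]
    ring
  have hm : MonotoneOn (fun t => 1 - exp (-b * t) * (cos t + b * sin t)) (Icc 0 π) := by
    refine monotoneOn_of_deriv_nonneg (convex_Icc _ _)
      (fun t _ => (hd t).continuousAt.continuousWithinAt)
      (fun t _ => (hd t).differentiableAt.differentiableWithinAt) (fun t ht => ?_)
    rw [(hd t).deriv]
    rw [interior_Icc] at ht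
    have := sin_nonneg_of_nonneg_of_le_pi ht.1.le ht.2.le
    have := exp_pos (-b * t)
    have := om_pos b
    positivity
  have := hm ⟨le_rfl, pi_pos.le⟩ ⟨h0, h1⟩ h0
  simpa using this

theorem hump0' (b : ℝ) {τ : ℝ} (h0 : τ ≤ 0) (h1 : -π ≤ τ) :
    0 ≤ 1 - exp (-b * τ) * (cos τ + b * sin τ) := by
  have h := hump0 (-b) (τ := -τ) (by linarith) (by linarith)
  rw [cos_neg, sin_neg] at h
  have e1 : -(-b) * -τ = -b * τ := by ring
  have e2 : cos τ + -b * -sin τ = cos τ + b * sin τ := by ring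
  rwa [e1, e2] at h

/-- the constant -/
noncomputable def kA (b : ℝ) : ℝ :=
  exp (b * arctan b) / (4 * √(1 + b ^ 2) * cosh (π * b) * cosh (π * b / 2))

noncomputable def cR (b : ℝ) : ℝ :=
  kA b * (1 + exp (b * π)) * exp (b * (π / 2 - arctan b)) * √(1 + b ^ 2)
noncomputable def cL (b : ℝ) : ℝ :=
  kA b * (1 + exp (-(b * π))) * exp (-(b * (π / 2 + arctan b))) * √(1 + b ^ 2)

theorem kA_pos (b : ℝ) : 0 < kA b := by
  unfold kA
  have h1 := om_pos b
  have h2 := cosh_pos (π * b)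
  have h3 := cosh_pos (π * b / 2)
  have h4 := Real.sqrt_pos.2 h1
  positivity

theorem cR_add (b : ℝ) : cR b + cL b = 1 := by
  unfold cR cL kA
  have h1 := om_pos b
  have h2 := cosh_pos (π * b)
  have h3 := cosh_pos (π * b / 2)
  have h4 := Real.sqrt_pos.2 h1
  have e1 : exp (b * (π / 2 - arctan b)) = exp (π * b / 2) * exp (-(b * arctan b)) := by
    rw [← exp_add]; congr 1; ring
  have e2 : exp (-(b * (π / 2 + arctan b))) = exp (-(π * b / 2)) * exp (-(b * arctan b)) := by
    rw [← exp_add]; congr 1; ring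
  have e3 : exp (b * π) = exp (π * b / 2) ^ 2 := by
    rw [← exp_nat_mul]; congr 1; push_cast; ring
  have e4 : exp (-(b * π)) = exp (-(π * b / 2)) ^ 2 := by
    rw [← exp_nat_mul]; congr 1; push_cast; ring
  have e5 : cosh (π * b) = (exp (π * b / 2) ^ 2 + exp (-(π * b / 2)) ^ 2) / 2 := by
    rw [cosh_eq, ← exp_nat_mul, ← exp_nat_mul]
    congr 2
    · congr 1; push_cast; ring
    · congr 1; push_cast; ring
  have e6 : cosh (π * b / 2) = (exp (π * b / 2) + exp (-(π * b / 2))) / 2 := by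
    rw [cosh_eq]
  have e7 : exp (b * arctan b) * exp (-(b * arctan b)) = 1 := by
    rw [← exp_add]; simp
  have e8 : exp (π * b / 2) * exp (-(π * b / 2)) = 1 := by
    rw [← exp_add]; simp
  rw [e1, e2, e3, e4]
  have e9 : exp (b * arctan b) / (4 * √(1 + b ^ 2) * cosh (π * b) * cosh (π * b / 2))
      * (1 + exp (π * b / 2) ^ 2) * (exp (π * b / 2) * exp (-(b * arctan b))) * √(1 + b ^ 2)
      + exp (b * arctan b) / (4 * √(1 + b ^ 2) * cosh (π * b) * cosh (π * b / 2))
      * (1 + exp (-(π * b / 2)) ^ 2) * (exp (-(π * b / 2)) * exp (-(b * arctan b))) * √(1 + b ^ 2)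
      = (exp (b * arctan b) * exp (-(b * arctan b))) *
      ((1 + exp (π * b / 2) ^ 2) * exp (π * b / 2) + (1 + exp (-(π * b / 2)) ^ 2)
        * exp (-(π * b / 2))) / (4 * cosh (π * b) * cosh (π * b / 2)) := by
    field_simp
  rw [e9, e7, one_mul, div_eq_one_iff_eq (by positivity), e5, e6]
  generalize exp (π * b / 2) = x at e8 ⊢
  generalize exp (-(π * b / 2)) = y at e8 ⊢
  linear_combination (-(x + y)) * e8

theorem w_cos (b : ℝ) : √(1 + b ^ 2) * cos (arctan b) = 1 := by
  rw [cos_arctan]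
  have := (Real.sqrt_pos.2 (om_pos b)).ne'
  field_simp

theorem sin_b (b : ℝ) : sin (arctan b) = b * cos (arctan b) := by
  rw [sin_arctan, cos_arctan]
  ring

noncomputable def aA (b : ℝ) : ℕ → ℝ
  | 0 => -((1 + b ^ 2) * (3 * π / 2 + arctan b))
  | 1 => -((1 + b ^ 2) * (π / 2 + arctan b))
  | 2 => 0
  | 3 => (1 + b ^ 2) * (π / 2 - arctan b)
  | _ => (1 + b ^ 2) * (3 * π / 2 - arctan b)

noncomputable def fA (b : ℝ) : ℕ → ℝ → ℝ
  | 0 => hu b (kA b) (-(3 * π / 2 + arctan b))
  | 1 => va b (-cL b)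
  | 2 => va b (cR b)
  | _ => hu b (kA b) (3 * π / 2 - arctan b)

noncomputable def fA1 (b : ℝ) : ℕ → ℝ → ℝ
  | 0 => hu1 b (kA b) (-(3 * π / 2 + arctan b))
  | 1 => va1 b (-cL b)
  | 2 => va1 b (cR b)
  | _ => hu1 b (kA b) (3 * π / 2 - arctan b)

noncomputable def fA2 (b : ℝ) : ℕ → ℝ → ℝ
  | 0 => hu2 b (kA b) (-(3 * π / 2 + arctan b))
  | 1 => va2 b (-cL b)
  | 2 => va2 b (cR b)
  | _ => hu2 b (kA b) (3 * π / 2 - arctan b)

theorem certA (b : ℝ) {μ : ℝ} (hμ : 3 / 2 * (1 + b ^ 2) ≤ μ) :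
    Cert b (kA b) (π * μ) (aA b) (fA b) (fA1 b) (fA2 b) := by
  have hω := om_pos b
  have hω' := hω.ne'
  have hk := kA_pos b
  have hpi := pi_pos
  have ha1 := neg_pi_div_two_lt_arctan b
  have ha2 := arctan_lt_pi_div_two b
  have hcR : 0 ≤ cR b := by unfold cR; positivity
  have hcL : 0 ≤ cL b := by unfold cL; positivity
  have hw := w_cos b
  have hs := sin_b b
  have d0 : ∀ x : ℝ, -((1 + b ^ 2) * x) / (1 + b ^ 2) = -x := fun x => by field_simp
  have d1 : ∀ x : ℝ, (1 + b ^ 2) * x / (1 + b ^ 2) = x := fun x => by field_simp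
  refine ⟨?_, ?_, rfl, hk, ?_, ?_, ?_, ?_, ?_, ?_, ?_, ?_, ?_, ?_, ?_, ?_, ?_, ?_, ?_, ?_⟩
  · intro i hi
    interval_cases i
    · simp only [aA]
      nlinarith
    · simp only [aA]
      nlinarith
    · simp only [aA]
      nlinarith
    · simp only [aA]
      nlinarith
  · simp only [aA]
    nlinarith
  · intro i hi s
    interval_cases i
    · exact hu_d _ _ _ s
    · exact va_d _ _ s
    · exact va_d _ _ s
    · exact hu_d _ _ _ s
  · intro i hi s
    interval_cases i
    · exact hu1_d _ _ _ s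
    · exact va1_d _ _ s
    · exact va1_d _ _ s
    · exact hu1_d _ _ _ s
  · intro i hi
    interval_cases i
    · exact hu2_c _ _ _
    · exact va2_c _ _
    · exact va2_c _ _
    · exact hu2_c _ _ _
  · intro i hi s hs'
    interval_cases i
    · simp only [aA, fA] at hs' ⊢
      unfold hu
      refine mul_nonneg hk.le (hump0 b ?_ ?_)
      · have h1 := hs'.1
        have h2 : -(3 * π / 2 + arctan b) ≤ s / (1 + b ^ 2) := by
          rw [le_div_iff₀ hω]; linarith
        linarith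
      · have h1 := hs'.2
        have h2 : s / (1 + b ^ 2) ≤ -(π / 2 + arctan b) := by
          rw [div_le_iff₀ hω]; linarith
        linarith
    · simp only [aA, fA] at hs' ⊢
      unfold va
      have h1 : -(π / 2 + arctan b) ≤ s / (1 + b ^ 2) := by
        rw [le_div_iff₀ hω]; linarith [hs'.1]
      have h2 : s / (1 + b ^ 2) ≤ 0 := div_nonpos_of_nonpos_of_nonneg hs'.2 hω.le
      have h3 : sin (s / (1 + b ^ 2)) ≤ 0 := sin_nonpos_of_nonpos_of_neg_pi_le h2 (by linarith)
      have h4 := exp_pos (-b * (s / (1 + b ^ 2)))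
      have h5 : exp (-b * (s / (1 + b ^ 2))) * sin (s / (1 + b ^ 2)) ≤ 0 :=
        mul_nonpos_of_nonneg_of_nonpos h4.le h3
      nlinarith
    · simp only [aA, fA] at hs' ⊢
      unfold va
      have h1 : s / (1 + b ^ 2) ≤ π / 2 - arctan b := by
        rw [div_le_iff₀ hω]; linarith [hs'.2]
      have h2 : 0 ≤ s / (1 + b ^ 2) := div_nonneg hs'.1 hω.le
      have h3 : 0 ≤ sin (s / (1 + b ^ 2)) := sin_nonneg_of_nonneg_of_le_pi h2 (by linarith)
      have h4 := exp_pos (-b * (s / (1 + b ^ 2)))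
      positivity
    · simp only [aA, fA] at hs' ⊢
      unfold hu
      refine mul_nonneg hk.le (hump0' b ?_ ?_)
      · have h2 : s / (1 + b ^ 2) ≤ 3 * π / 2 - arctan b := by
          rw [div_le_iff₀ hω]; linarith [hs'.2]
        linarith
      · have h2 : π / 2 - arctan b ≤ s / (1 + b ^ 2) := by
          rw [le_div_iff₀ hω]; linarith [hs'.1]
        linarith
  · intro i hi s _
    interval_cases i
    · exact (hu_q _ _ _ s).ge.trans' hk.le
    · exact (va_q _ _ s).ge
    · exact (va_q _ _ s).ge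
    · exact (hu_q _ _ _ s).ge.trans' hk.le
  · intro i hi s _
    interval_cases i
    · exact (hu_q _ _ _ s).le
    · exact (va_q _ _ s).le.trans hk.le
    · exact (va_q _ _ s).le.trans hk.le
    · exact (hu_q _ _ _ s).le
  · simp only [aA, fA, hu, d0]
    simp
  · simp only [aA, fA1, hu1, d0]
    simp
  · simp only [aA, fA, hu, va, d0, cL]
    have e1 : -(π / 2 + arctan b) - -(3 * π / 2 + arctan b) = π := by ring
    rw [e1, cos_pi, sin_pi, sin_neg, add_comm (π / 2) (arctan b), sin_add_pi_div_two]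
    have e2 : exp (-b * -(arctan b + π / 2)) * exp (-(b * (arctan b + π / 2))) = 1 := by
      rw [← exp_add, ← exp_zero]; congr 1; ring
    have e3 : exp (-b * π) = exp (-(b * π)) := by rw [neg_mul]
    rw [e3]
    linear_combination (-(kA b * (1 + exp (-(b * π))) * (√(1 + b ^ 2) * cos (arctan b)))) * e2
      - (kA b * (1 + exp (-(b * π)))) * hw
  · simp only [aA, fA1, hu1, va1, d0]
    have e1 : -(π / 2 + arctan b) - -(3 * π / 2 + arctan b) = π := by ring
    rw [e1, sin_pi, sin_neg, cos_neg, add_comm (π / 2) (arctan b), sin_add_pi_div_two,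
      cos_add_pi_div_two, hs]
    ring
  · simp only [fA, va]
    simp
  · simp only [fA1, va1]
    simp only [zero_div, mul_zero, exp_zero, cos_zero, sin_zero, sub_zero, mul_one]
    have := cR_add b
    field_simp
    linarith
  · simp only [aA, fA, hu, va, d1, cR]
    have e1 : π / 2 - arctan b - (3 * π / 2 - arctan b) = -π := by ring
    rw [e1, cos_neg, sin_neg, cos_pi, sin_pi, sin_pi_div_two_sub]
    have e2 : exp (-b * (π / 2 - arctan b)) * exp (b * (π / 2 - arctan b)) = 1 := by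
      rw [← exp_add, ← exp_zero]; congr 1; ring
    have e3 : exp (-b * -π) = exp (b * π) := by congr 1; ring
    rw [e3]
    linear_combination (kA b * (1 + exp (b * π)) * (√(1 + b ^ 2) * cos (arctan b))) * e2
      + (kA b * (1 + exp (b * π))) * hw
  · simp only [aA, fA1, hu1, va1, d1]
    have e1 : π / 2 - arctan b - (3 * π / 2 - arctan b) = -π := by ring
    rw [e1, sin_neg, sin_pi, sin_pi_div_two_sub, cos_pi_div_two_sub, hs]
    ring
  · simp only [aA, fA, hu, d1]
    simp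
  · simp only [aA, fA1, hu1, d1]
    simp

end Pool.Agent.MMR
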