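import Pool.Agent.MMR.Diff

/-!
# MMR, module CertB: the certificate for `b = 0`, `1 ≤ μ ≤ 3/2`
-/

set_option autoImplicit false

namespace Pool.Agent.MMR

open Real MeasureTheory Set Filter Topology Pool.Agent.MML

/-- `c + p cos (s - θ) + q sin (s - θ)` -/
noncomputable def tr (c p q θ s : ℝ) : ℝ := c + p * cos (s - θ) + q * sin (s - θ)

theorem tr_d (c p q θ s : ℝ) : HasDerivAt (tr c p q θ) (tr 0 q (-p) θ s) s := by
  have h1 : HasDerivAt (fun s : ℝ => s - θ) 1 s := (hasDerivAt_id s).sub_const θ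
  have h2 := ((h1.cos.const_mul p).const_add c).add (h1.sin.const_mul q)
  refine h2.congr_deriv ?_
  unfold tr
  ring

theorem tr_c (c p q θ : ℝ) : Continuous (tr c p q θ) := by
  unfold tr
  fun_prop

/-- the constant -/
noncomputable def kB (μ : ℝ) : ℝ := 1 / (2 * (1 + |sin (π * μ)|))

theorem kB_pos (μ : ℝ) : 0 < kB μ := by
  unfold kB
  positivity

noncomputable def aB (μ : ℝ) : ℕ → ℝ
  | 0 => -(π * μ)
  | 1 => -(π / 2)
  | 2 => 0
  | 3 => π / 2
  | _ => π * μ

noncomputable def fB (μ : ℝ) : ℕ → ℝ → ℝ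
  | 0 => tr (kB μ) (-kB μ) 0 (-(π * μ))
  | 1 => tr 0 (-(kB μ * cos (π * μ))) (-(1 / 2)) 0
  | 2 => tr 0 (-(kB μ * cos (π * μ))) (1 / 2) 0
  | _ => tr (kB μ) (-kB μ) 0 (π * μ)

noncomputable def fB1 (μ : ℝ) : ℕ → ℝ → ℝ
  | 0 => tr 0 0 (- -kB μ) (-(π * μ))
  | 1 => tr 0 (-(1 / 2)) (- -(kB μ * cos (π * μ))) 0
  | 2 => tr 0 (1 / 2) (- -(kB μ * cos (π * μ))) 0
  | _ => tr 0 0 (- -kB μ) (π * μ)

noncomputable def fB2 (μ : ℝ) : ℕ → ℝ → ℝ
  | 0 => tr 0 (- -kB μ) (-0) (-(π * μ))
  | 1 => tr 0 (- -(kB μ * cos (π * μ))) (- -(1 / 2)) 0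
  | 2 => tr 0 (- -(kB μ * cos (π * μ))) (-(1 / 2)) 0
  | _ => tr 0 (- -kB μ) (-0) (π * μ)

theorem certB {μ : ℝ} (h1 : 1 ≤ μ) (h2 : μ ≤ 3 / 2) :
    Cert 0 (kB μ) (π * μ) (aB μ) (fB μ) (fB1 μ) (fB2 μ) := by
  have hk := kB_pos μ
  have hpi := pi_pos
  have hs : sin (π * μ) ≤ 0 := by
    have h3 : 0 ≤ sin (π * μ - π) :=
      sin_nonneg_of_nonneg_of_le_pi (by nlinarith) (by nlinarith)
    rw [sin_sub_pi] at h3
    linarith
  have hc : cos (π * μ) ≤ 0 := by
    have h3 : 0 ≤ cos (π * μ - π) := by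
      apply cos_nonneg_of_neg_pi_div_two_le_of_le
      · nlinarith
      · nlinarith
    rw [cos_sub_pi] at h3
    linarith
  have hks : kB μ * (1 - sin (π * μ)) = 1 / 2 := by
    unfold kB
    rw [abs_of_nonpos hs]
    have : 1 + -sin (π * μ) ≠ 0 := by linarith
    field_simp
    ring
  have hkc : 0 ≤ -(kB μ * cos (π * μ)) := by nlinarith
  refine ⟨?_, ?_, rfl, hk, ?_, ?_, ?_, ?_, ?_, ?_, ?_, ?_, ?_, ?_, ?_, ?_, ?_, ?_, ?_, ?_⟩
  · intro i hi
    interval_cases i
    · simp only [aB]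
      nlinarith
    · simp only [aB]
      nlinarith
    · simp only [aB]
      nlinarith
    · simp only [aB]
      nlinarith
  · simp only [aB]
    linarith
  · intro i hi s
    interval_cases i
    · exact tr_d _ _ _ _ s
    · exact tr_d _ _ _ _ s
    · exact tr_d _ _ _ _ s
    · exact tr_d _ _ _ _ s
  · intro i hi s
    interval_cases i
    · exact tr_d _ _ _ _ s
    · exact tr_d _ _ _ _ s
    · exact tr_d _ _ _ _ s
    · exact tr_d _ _ _ _ s
  · intro i hi
    interval_cases i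
    · exact tr_c _ _ _ _
    · exact tr_c _ _ _ _
    · exact tr_c _ _ _ _
    · exact tr_c _ _ _ _
  · intro i hi s hs'
    interval_cases i
    · simp only [fB, tr]
      have := cos_le_one (s - -(π * μ))
      nlinarith
    · simp only [aB] at hs'
      simp only [fB, tr, sub_zero]
      have m1 : 0 ≤ cos s := cos_nonneg_of_neg_pi_div_two_le_of_le hs'.1 (by linarith [hs'.2])
      have m2 : sin s ≤ 0 := sin_nonpos_of_nonpos_of_neg_pi_le hs'.2 (by linarith [hs'.1])
      have m3 := mul_nonneg hkc m1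
      linarith
    · simp only [aB] at hs'
      simp only [fB, tr, sub_zero]
      have m1 : 0 ≤ cos s := cos_nonneg_of_neg_pi_div_two_le_of_le (by linarith [hs'.1]) hs'.2
      have m2 : 0 ≤ sin s := sin_nonneg_of_nonneg_of_le_pi hs'.1 (by linarith [hs'.2])
      have m3 := mul_nonneg hkc m1
      linarith
    · simp only [fB, tr]
      have := cos_le_one (s - π * μ)
      nlinarith
  · intro i hi s _
    interval_cases i
    · simp only [fB, fB1, fB2, tr]
      nlinarith
    · simp only [fB, fB1, fB2, tr]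
      nlinarith
    · simp only [fB, fB1, fB2, tr]
      nlinarith
    · simp only [fB, fB1, fB2, tr]
      nlinarith
  · intro i hi s _
    interval_cases i
    · simp only [fB, fB1, fB2, tr]
      nlinarith
    · simp only [fB, fB1, fB2, tr]
      nlinarith
    · simp only [fB, fB1, fB2, tr]
      nlinarith
    · simp only [fB, fB1, fB2, tr]
      nlinarith
  · simp only [aB, fB, tr]
    simp
  · simp only [aB, fB1, tr]
    simp
  · simp only [aB, fB, tr]
    have e1 : -(π / 2) - -(π * μ) = π * μ - π / 2 := by ring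
    rw [e1, cos_sub_pi_div_two, sin_sub_pi_div_two, sub_zero, cos_neg, sin_neg, cos_pi_div_two,
      sin_pi_div_two]
    linarith
  · simp only [aB, fB1, tr]
    have e1 : -(π / 2) - -(π * μ) = π * μ - π / 2 := by ring
    rw [e1, cos_sub_pi_div_two, sin_sub_pi_div_two, sub_zero, cos_neg, sin_neg, cos_pi_div_two,
      sin_pi_div_two]
    ring
  · simp only [fB, tr]
    simp
  · simp only [fB1, tr]
    simp
    norm_num
  · simp only [aB, fB, tr]
    have e1 : π / 2 - π * μ = -(π * μ - π / 2) := by ring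
    rw [e1, cos_neg, sin_neg, cos_sub_pi_div_two, sin_sub_pi_div_two, sub_zero, cos_pi_div_two,
      sin_pi_div_two]
    linarith
  · simp only [aB, fB1, tr]
    have e1 : π / 2 - π * μ = -(π * μ - π / 2) := by ring
    rw [e1, cos_neg, sin_neg, cos_sub_pi_div_two, sin_sub_pi_div_two, sub_zero, cos_pi_div_two,
      sin_pi_div_two]
    ring
  · simp only [aB, fB, tr]
    simp
  · simp only [aB, fB1, tr]
    simp

end Pool.Agent.MMR
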