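import Pool.Agent.MMR.Piece

/-!
# MMR, module Diff: certificates and the differential inequality

A certificate is a continuous function `Ψ ≥ 0` with compact support, given by four pieces, of class `C¹` except at `0`, with
`(1 + b²) Ψ'' + 2 b Ψ' + Ψ = δ_0 + q`, `0 ≤ q ≤ κ`.
-/

set_option autoImplicit false

namespace Pool.Agent.MMR

open Real MeasureTheory Set Filter Topology Pool.Agent.MML

/-- a certificate: four pieces on `[a 0, a 1], ..., [a 3, a 4]`, `a 2 = 0` -/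
structure Cert (b κ l : ℝ) (a : ℕ → ℝ) (f f1 f2 : ℕ → ℝ → ℝ) : Prop where
  ha : ∀ i < 4, a i ≤ a (i + 1)
  hl : a 4 - a 0 ≤ 2 * l
  h2 : a 2 = 0
  hk : 0 < κ
  d1 : ∀ i < 4, ∀ s, HasDerivAt (f i) (f1 i s) s
  d2 : ∀ i < 4, ∀ s, HasDerivAt (f1 i) (f2 i s) s
  c2 : ∀ i < 4, Continuous (f2 i)
  pos : ∀ i < 4, ∀ s ∈ Icc (a i) (a (i + 1)), 0 ≤ f i s
  q0 : ∀ i < 4, ∀ s ∈ Icc (a i) (a (i + 1)), 0 ≤ (1 + b ^ 2) * f2 i s + 2 * b * f1 i s + f i s
  q1 : ∀ i < 4, ∀ s ∈ Icc (a i) (a (i + 1)), (1 + b ^ 2) * f2 i s + 2 * b * f1 i s + f i s ≤ κ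
  m0 : f 0 (a 0) = 0
  n0 : f1 0 (a 0) = 0
  m1 : f 0 (a 1) = f 1 (a 1)
  n1 : f1 0 (a 1) = f1 1 (a 1)
  m2 : f 1 0 = f 2 0
  n2 : (1 + b ^ 2) * (f1 2 0 - f1 1 0) = 1
  m3 : f 2 (a 3) = f 3 (a 3)
  n3 : f1 2 (a 3) = f1 3 (a 3)
  m4 : f 3 (a 4) = 0
  n4 : f1 3 (a 4) = 0

/-- the sum over the pieces -/
noncomputable def sm (a : ℕ → ℝ) (f : ℕ → ℝ → ℝ) (F : ℝ → ℝ → ℝ) (x : ℝ) : ℝ :=
  ∑ i ∈ Finset.range 4, wi (a i) (a (i + 1)) (f i) F x

theorem sm_deriv {a : ℕ → ℝ} {f : ℕ → ℝ → ℝ} (hf : ∀ i < 4, Continuous (f i)) {F Fx : ℝ → ℝ → ℝ}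
    (hF : Continuous (fun q : ℝ × ℝ => F q.1 q.2)) (hFx : Continuous (fun q : ℝ × ℝ => Fx q.1 q.2))
    (hd : ∀ x s, HasDerivAt (fun y => F y s) (Fx x s) x) (x : ℝ) :
    HasDerivAt (sm a f F) (sm a f Fx x) x := by
  unfold sm
  exact HasDerivAt.fun_sum fun i hi => wi_deriv (hf i (Finset.mem_range.1 hi)) hF hFx hd x

theorem sm_cont {a : ℕ → ℝ} {f : ℕ → ℝ → ℝ} (hf : ∀ i < 4, Continuous (f i)) {F : ℝ → ℝ → ℝ}
    (hF : Continuous (fun q : ℝ × ℝ => F q.1 q.2)) : Continuous (sm a f F) := by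
  unfold sm
  exact continuous_finsetSum _ fun i hi => wi_cont (hf i (Finset.mem_range.1 hi)) hF

theorem sm_le {a : ℕ → ℝ} {f g : ℕ → ℝ → ℝ} {F G : ℝ → ℝ → ℝ} (ha : ∀ i < 4, a i ≤ a (i + 1))
    (hf : ∀ i < 4, Continuous (f i)) (hg : ∀ i < 4, Continuous (g i))
    (hF : Continuous (fun q : ℝ × ℝ => F q.1 q.2)) (hG : Continuous (fun q : ℝ × ℝ => G q.1 q.2))
    (x : ℝ) (h : ∀ i < 4, ∀ s ∈ Icc (a i) (a (i + 1)), f i s * F x s ≤ g i s * G x s) :
    sm a f F x ≤ sm a g G x := by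
  unfold sm
  refine Finset.sum_le_sum fun i hi => ?_
  have hi' := Finset.mem_range.1 hi
  exact intervalIntegral.integral_mono_on (ha i hi')
    (((hf i hi').mul (slc hF x)).intervalIntegrable _ _)
    (((hg i hi').mul (slc hG x)).intervalIntegrable _ _) (h i hi')

/-- constant weight -/
theorem sm_const {a : ℕ → ℝ} {l K : ℝ} (hK : 0 ≤ K) {U : ℝ → ℝ → ℝ}
    (hU : Continuous (fun q : ℝ × ℝ => U q.1 q.2)) (hper : ∀ s t, U s (t + 2 * l) = U s t)
    (h0 : ∀ s t, 0 ≤ U s t) (ha : ∀ i < 4, a i ≤ a (i + 1)) (hl : a 4 - a 0 ≤ 2 * l)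
    (φ : ℝ → ℝ) (x : ℝ) :
    sm a (fun _ _ => K) (fun x s => U x (s + φ x)) x ≤ K * mN l U x := by
  have hc : Continuous fun s => U x (s + φ x) := (slc hU x).comp (by fun_prop)
  have e : sm a (fun _ _ => K) (fun x s => U x (s + φ x)) x = K * ∫ s in (a 0)..(a 4), U x (s + φ x) := by
    unfold sm wi
    rw [← intervalIntegral.sum_integral_adjacent_intervals
      (fun k _ => hc.intervalIntegrable _ _), Finset.mul_sum]
    exact Finset.sum_congr rfl fun i _ => intervalIntegral.integral_const_mul _ _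
  rw [e]
  have h04 : a 0 ≤ a 4 := by
    have h1 := ha 0 (by norm_num)
    have h2 := ha 1 (by norm_num)
    have h3 := ha 2 (by norm_num)
    have h4 := ha 3 (by norm_num)
    norm_num at h1 h2 h3 h4
    linarith
  exact mul_le_mul_of_nonneg_left (part_le hU hper h0 h04 hl x (φ x)) hK

/-- absolute bound -/
theorem sm_abs {a : ℕ → ℝ} {l K : ℝ} (hK : 0 ≤ K) {f : ℕ → ℝ → ℝ} (hf : ∀ i < 4, Continuous (f i))
    (hfK : ∀ i < 4, ∀ s ∈ Icc (a i) (a (i + 1)), |f i s| ≤ K) {U : ℝ → ℝ → ℝ}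
    (hU : Continuous (fun q : ℝ × ℝ => U q.1 q.2)) (hper : ∀ s t, U s (t + 2 * l) = U s t)
    (ha : ∀ i < 4, a i ≤ a (i + 1)) (hl : a 4 - a 0 ≤ 2 * l)
    {φ : ℝ → ℝ} (cφ : Continuous φ) (x : ℝ) :
    |sm a f (fun x s => U x (s + φ x)) x| ≤ K * mN l (fun x t => |U x t|) x := by
  have hA : Continuous (fun q : ℝ × ℝ => |U q.1 q.2|) := hU.abs
  have hAφ : Continuous (fun q : ℝ × ℝ => |U q.1 (q.2 + φ q.1)|) := by
    have : Continuous (fun q : ℝ × ℝ => (q.1, q.2 + φ q.1)) := by fun_prop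
    exact (hU.comp this).abs
  have hUφ : Continuous (fun q : ℝ × ℝ => U q.1 (q.2 + φ q.1)) := by
    have : Continuous (fun q : ℝ × ℝ => (q.1, q.2 + φ q.1)) := by fun_prop
    exact hU.comp this
  have hb := sm_const (U := fun x t => |U x t|) hK hA (fun s t => by simp only [hper])
    (fun s t => abs_nonneg _) ha hl φ x
  rw [abs_le]
  constructor
  · have h1 : sm a (fun _ _ => K) (fun x s => -|U x (s + φ x)|) x
        ≤ sm a f (fun x s => U x (s + φ x)) x := by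
      refine sm_le ha (fun _ _ => continuous_const) hf hAφ.neg hUφ x fun i hi s hs => ?_
      have h3 := abs_mul (f i s) (U x (s + φ x))
      have h4 := mul_le_mul_of_nonneg_right (hfK i hi s hs) (abs_nonneg (U x (s + φ x)))
      have h5 := neg_abs_le (f i s * U x (s + φ x))
      linarith
    have h2 : sm a (fun _ _ => K) (fun x s => -|U x (s + φ x)|) x
        = -sm a (fun _ _ => K) (fun x s => |U x (s + φ x)|) x := by
      unfold sm wi
      rw [← Finset.sum_neg_distrib]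
      refine Finset.sum_congr rfl fun i _ => ?_
      rw [← intervalIntegral.integral_neg]
      congr 1
      funext s
      ring
    linarith
  · have h1 : sm a f (fun x s => U x (s + φ x)) x
        ≤ sm a (fun _ _ => K) (fun x s => |U x (s + φ x)|) x := by
      refine sm_le ha hf (fun _ _ => continuous_const) hUφ hAφ x fun i hi s hs => ?_
      have h3 := abs_mul (f i s) (U x (s + φ x))
      have h4 := mul_le_mul_of_nonneg_right (hfK i hi s hs) (abs_nonneg (U x (s + φ x)))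
      have h5 := le_abs_self (f i s * U x (s + φ x))
      linarith
    linarith

theorem Cert.cf {b κ l : ℝ} {a : ℕ → ℝ} {f f1 f2 : ℕ → ℝ → ℝ} (C : Cert b κ l a f f1 f2) :
    ∀ i < 4, Continuous (f i) := fun i hi =>
  continuous_iff_continuousAt.2 fun x => (C.d1 i hi x).continuousAt

theorem Cert.cf1 {b κ l : ℝ} {a : ℕ → ℝ} {f f1 f2 : ℕ → ℝ → ℝ} (C : Cert b κ l a f f1 f2) :
    ∀ i < 4, Continuous (f1 i) := fun i hi =>
  continuous_iff_continuousAt.2 fun x => (C.d2 i hi x).continuousAt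

/-- bounds of the pieces -/
theorem Cert.bound {b κ l : ℝ} {a : ℕ → ℝ} {f f1 f2 : ℕ → ℝ → ℝ} (C : Cert b κ l a f f1 f2) :
    ∃ K : ℝ, 0 ≤ K ∧ ∀ i < 4, ∀ s ∈ Icc (a i) (a (i + 1)), |f i s| ≤ K ∧ |f1 i s| ≤ K ∧ |f2 i s| ≤ K := by
  have h : ∀ i < 4, ∃ K : ℝ, ∀ s ∈ Icc (a i) (a (i + 1)), |f i s| ≤ K ∧ |f1 i s| ≤ K ∧ |f2 i s| ≤ K := by
    intro i hi
    obtain ⟨K1, h1⟩ := (isCompact_Icc (a := a i) (b := a (i + 1))).exists_bound_of_continuousOn
      (C.cf i hi).continuousOn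
    obtain ⟨K2, h2⟩ := (isCompact_Icc (a := a i) (b := a (i + 1))).exists_bound_of_continuousOn
      (C.cf1 i hi).continuousOn
    obtain ⟨K3, h3⟩ := (isCompact_Icc (a := a i) (b := a (i + 1))).exists_bound_of_continuousOn
      (C.c2 i hi).continuousOn
    refine ⟨max K1 (max K2 K3), fun s hs => ⟨?_, ?_, ?_⟩⟩
    · exact (h1 s hs).trans (le_max_left _ _)
    · exact (h2 s hs).trans ((le_max_left _ _).trans (le_max_right _ _))
    · exact (h3 s hs).trans ((le_max_right _ _).trans (le_max_right _ _))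
  obtain ⟨K0, h0⟩ := h 0 (by norm_num)
  obtain ⟨K1, h1⟩ := h 1 (by norm_num)
  obtain ⟨K2, h2⟩ := h 2 (by norm_num)
  obtain ⟨K3, h3⟩ := h 3 (by norm_num)
  refine ⟨|K0| + |K1| + |K2| + |K3|, by positivity, fun i hi s hs => ?_⟩
  have e0 := le_abs_self K0
  have e1 := le_abs_self K1
  have e2 := le_abs_self K2
  have e3 := le_abs_self K3
  have g0 := abs_nonneg K0
  have g1 := abs_nonneg K1
  have g2 := abs_nonneg K2
  have g3 := abs_nonneg K3
  interval_cases i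
  · obtain ⟨x, y, z⟩ := h0 s hs
    exact ⟨by linarith, by linarith, by linarith⟩
  · obtain ⟨x, y, z⟩ := h1 s hs
    exact ⟨by linarith, by linarith, by linarith⟩
  · obtain ⟨x, y, z⟩ := h2 s hs
    exact ⟨by linarith, by linarith, by linarith⟩
  · obtain ⟨x, y, z⟩ := h3 s hs
    exact ⟨by linarith, by linarith, by linarith⟩

/-- telescoping of the pieces -/
theorem Cert.tele {b κ l : ℝ} {a : ℕ → ℝ} {f f1 f2 : ℕ → ℝ → ℝ} (C : Cert b κ l a f f1 f2)
    {p r : ℝ → ℝ} {H Hx Hxx Hs Hss Hxs : ℝ → ℝ → ℝ} (h : HP p r H Hx Hxx Hs Hss Hxs) (x : ℝ) :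
    -((1 + p x ^ 2) / (1 + b ^ 2) * H x 0) ≤
      sm a f Hxx x + 2 * p x * sm a f1 Hx x + (1 + p x ^ 2) * sm a f2 H x + r x * sm a f1 H x := by
  have hp : ∀ i < 4, bd (p x) (r x) (f i) (f1 i) (H x) (Hx x) (Hs x) (a (i + 1))
      - bd (p x) (r x) (f i) (f1 i) (H x) (Hx x) (Hs x) (a i) ≤
      wi (a i) (a (i + 1)) (f i) Hxx x + 2 * p x * wi (a i) (a (i + 1)) (f1 i) Hx x
        + (1 + p x ^ 2) * wi (a i) (a (i + 1)) (f2 i) H x
        + r x * wi (a i) (a (i + 1)) (f1 i) H x := by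
    intro i hi
    exact piece (C.ha i hi) (C.d1 i hi) (C.d2 i hi) (C.c2 i hi) (h.ds x) (h.dss x) (h.dxs x)
      (slc h.css x) (slc h.cxs x) (slc h.cxx x) (C.pos i hi) (h.sub x)
  have p0 := hp 0 (by norm_num)
  have p1 := hp 1 (by norm_num)
  have p2 := hp 2 (by norm_num)
  have p3 := hp 3 (by norm_num)
  norm_num at p0 p1 p2 p3
  rw [C.h2] at p1 p2
  unfold bd at p0 p1 p2 p3
  rw [C.m0, C.n0, C.m1, C.n1] at p0
  rw [C.m2] at p1
  rw [C.m3, C.n3] at p2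
  rw [C.m4, C.n4] at p3
  have hω : (0 : ℝ) < 1 + b ^ 2 := by positivity
  have e : (1 + p x ^ 2) / (1 + b ^ 2) * H x 0
      = (1 + p x ^ 2) * ((f1 2 0 - f1 1 0) * H x 0) := by
    have h5 := C.n2
    have h6 : f1 2 0 - f1 1 0 = 1 / (1 + b ^ 2) := by
      field_simp
      linarith
    rw [h6]
    ring
  rw [e]
  unfold sm
  simp only [Finset.sum_range_succ, Finset.sum_range_zero, zero_add]
  norm_num
  rw [C.h2]
  linarith

/-- the density of a certificate against the function -/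
theorem Cert.dens {b κ l : ℝ} {a : ℕ → ℝ} {f f1 f2 : ℕ → ℝ → ℝ} (C : Cert b κ l a f f1 f2)
    {U U1 : ℝ → ℝ → ℝ} (hU : Continuous (fun q : ℝ × ℝ => U q.1 q.2))
    (hU1 : Continuous (fun q : ℝ × ℝ => U1 q.1 q.2)) (hper : ∀ s t, U1 s (t + 2 * l) = U1 s t)
    (h0 : ∀ s t, 0 ≤ U1 s t) (hle : ∀ s t, U s t ≤ U1 s t) {φ : ℝ → ℝ} (cφ : Continuous φ) (x : ℝ) :
    (1 + b ^ 2) * sm a f2 (fun x s => U x (s + φ x)) x + 2 * b * sm a f1 (fun x s => U x (s + φ x)) x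
      + sm a f (fun x s => U x (s + φ x)) x ≤ κ * mN l U1 x := by
  have cc : Continuous (fun q : ℝ × ℝ => (q.1, q.2 + φ q.1)) := by fun_prop
  have hUφ : Continuous (fun q : ℝ × ℝ => U q.1 (q.2 + φ q.1)) := hU.comp cc
  have hU1φ : Continuous (fun q : ℝ × ℝ => U1 q.1 (q.2 + φ q.1)) := hU1.comp cc
  have hg : ∀ i < 4, Continuous (fun s => (1 + b ^ 2) * f2 i s + 2 * b * f1 i s + f i s) := by
    intro i hi
    have := C.cf i hi
    have := C.cf1 i hi
    have := C.c2 i hi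
    fun_prop
  have e : (1 + b ^ 2) * sm a f2 (fun x s => U x (s + φ x)) x
      + 2 * b * sm a f1 (fun x s => U x (s + φ x)) x + sm a f (fun x s => U x (s + φ x)) x
      = sm a (fun i s => (1 + b ^ 2) * f2 i s + 2 * b * f1 i s + f i s)
        (fun x s => U x (s + φ x)) x := by
    unfold sm
    rw [Finset.mul_sum, Finset.mul_sum, ← Finset.sum_add_distrib, ← Finset.sum_add_distrib]
    refine Finset.sum_congr rfl fun i hi => ?_
    have hi' := Finset.mem_range.1 hi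
    have s0 : Continuous fun s => U x (s + φ x) := slc (F := fun x s => U x (s + φ x)) hUφ x
    have i2 : IntervalIntegrable (fun s => (1 + b ^ 2) * (f2 i s * U x (s + φ x))) volume
        (a i) (a (i + 1)) := (continuous_const.mul ((C.c2 i hi').mul s0)).intervalIntegrable _ _
    have i1 : IntervalIntegrable (fun s => 2 * b * (f1 i s * U x (s + φ x))) volume
        (a i) (a (i + 1)) := (continuous_const.mul ((C.cf1 i hi').mul s0)).intervalIntegrable _ _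
    have i0 : IntervalIntegrable (fun s => f i s * U x (s + φ x)) volume
        (a i) (a (i + 1)) := ((C.cf i hi').mul s0).intervalIntegrable _ _
    unfold wi
    rw [← intervalIntegral.integral_const_mul, ← intervalIntegral.integral_const_mul,
      ← intervalIntegral.integral_add i2 i1, ← intervalIntegral.integral_add (i2.add i1) i0]
    congr 1
    funext s
    ring
  rw [e]
  refine le_trans ?_ (sm_const C.hk.le hU1 hper h0 C.ha C.hl φ x)
  refine sm_le C.ha hg (fun _ _ => continuous_const) hUφ hU1φ x fun i hi s hs => ?_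
  have g0 := C.q0 i hi s hs
  have g1 := C.q1 i hi s hs
  have g2 := mul_le_mul_of_nonneg_left (hle x (s + φ x)) g0
  have g3 := mul_le_mul_of_nonneg_right g1 (h0 x (s + φ x))
  linarith

/-- the function of the differential inequality -/
noncomputable def EE (a : ℕ → ℝ) (f f1 : ℕ → ℝ → ℝ) (p : ℝ → ℝ) (H Hx : ℝ → ℝ → ℝ) (x : ℝ) : ℝ :=
  exp (-x) * (sm a f Hx x + 2 * p x * sm a f1 H x + sm a f H x)

theorem EE_deriv {b κ l : ℝ} {a : ℕ → ℝ} {f f1 f2 : ℕ → ℝ → ℝ} (C : Cert b κ l a f f1 f2)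
    {p r : ℝ → ℝ} (hp : ∀ x, HasDerivAt p (r x) x) {H Hx Hxx Hs Hss Hxs : ℝ → ℝ → ℝ}
    (h : HP p r H Hx Hxx Hs Hss Hxs) (x : ℝ) :
    HasDerivAt (EE a f f1 p H Hx) (exp (-x) * (sm a f Hxx x + 2 * p x * sm a f1 Hx x
      + 2 * r x * sm a f1 H x - 2 * p x * sm a f1 H x - sm a f H x)) x := by
  have h1 := sm_deriv (a := a) C.cf h.cx h.cxx h.dxx x
  have h2 := sm_deriv (a := a) C.cf1 h.c0 h.cx h.dx x
  have h3 := sm_deriv (a := a) C.cf h.c0 h.cx h.dx x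
  have h4 : HasDerivAt (fun y : ℝ => exp (-y)) (-exp (-x)) x := by
    have := (hasDerivAt_neg x).exp
    simpa using this
  have h5 := h4.mul ((h1.add (((hp x).const_mul 2).mul h2)).add h3)
  unfold EE
  refine h5.congr_deriv ?_
  simp only [Pi.add_apply, Pi.mul_apply]
  ring

/-- the differential inequality -/
theorem EE_ineq {b κ l : ℝ} {a : ℕ → ℝ} {f f1 f2 : ℕ → ℝ → ℝ} (C : Cert b κ l a f f1 f2)
    {K : ℝ} (hK : 0 ≤ K)
    (hfK : ∀ i < 4, ∀ s ∈ Icc (a i) (a (i + 1)), |f i s| ≤ K ∧ |f1 i s| ≤ K ∧ |f2 i s| ≤ K)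
    {p r φ : ℝ → ℝ} (cφ : Continuous φ)
    {U U1 Hx Hxx Hs Hss Hxs : ℝ → ℝ → ℝ} (hU : Continuous (fun q : ℝ × ℝ => U q.1 q.2))
    (hUper : ∀ s t, U s (t + 2 * l) = U s t)
    (hU1 : Continuous (fun q : ℝ × ℝ => U1 q.1 q.2)) (hper : ∀ s t, U1 s (t + 2 * l) = U1 s t)
    (h0 : ∀ s t, 0 ≤ U1 s t) (hle : ∀ s t, U s t ≤ U1 s t)
    (h : HP p r (fun x s => U x (s + φ x)) Hx Hxx Hs Hss Hxs) (x : ℝ) :
    exp (-x) * (-((1 + p x ^ 2) / (1 + b ^ 2) * U x (φ x)) - κ * mN l U1 x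
      - (|p x ^ 2 - b ^ 2| + 2 * |p x - b| + |r x|) * (K * mN l (fun x t => |U x t|) x)) ≤
    exp (-x) * (sm a f Hxx x + 2 * p x * sm a f1 Hx x
      + 2 * r x * sm a f1 (fun x s => U x (s + φ x)) x
      - 2 * p x * sm a f1 (fun x s => U x (s + φ x)) x - sm a f (fun x s => U x (s + φ x)) x) := by
  refine mul_le_mul_of_nonneg_left ?_ (exp_pos _).le
  have t := C.tele h x
  have d := C.dens hU hU1 hper h0 hle cφ x
  have b1 := sm_abs hK C.cf1 (fun i hi s hs => (hfK i hi s hs).2.1) hU hUper C.ha C.hl cφ x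
  have b2 := sm_abs hK C.c2 (fun i hi s hs => (hfK i hi s hs).2.2) hU hUper C.ha C.hl cφ x
  simp only [zero_add] at t
  obtain ⟨V, hV⟩ : ∃ V, V = sm a f1 (fun x s => U x (s + φ x)) x := ⟨_, rfl⟩
  obtain ⟨V2, hV2⟩ : ∃ V, V = sm a f2 (fun x s => U x (s + φ x)) x := ⟨_, rfl⟩
  rw [← hV] at t d b1 ⊢
  rw [← hV2] at t d b2
  have a1 : |(p x ^ 2 - b ^ 2) * V2| ≤ |p x ^ 2 - b ^ 2| * (K * mN l (fun x t => |U x t|) x) := by
    rw [abs_mul]
    exact mul_le_mul_of_nonneg_left b2 (abs_nonneg _)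
  have a2 : |(p x - b) * V| ≤ |p x - b| * (K * mN l (fun x t => |U x t|) x) := by
    rw [abs_mul]
    exact mul_le_mul_of_nonneg_left b1 (abs_nonneg _)
  have a3 : |r x * V| ≤ |r x| * (K * mN l (fun x t => |U x t|) x) := by
    rw [abs_mul]
    exact mul_le_mul_of_nonneg_left b1 (abs_nonneg _)
  have a1' := (abs_le.1 a1).2
  have a2' := (abs_le.1 a2).2
  have a3' := (abs_le.1 a3).1
  nlinarith [a1', a2', a3', t, d]

end Pool.Agent.MMR
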