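import Pool.Agent.MMR.MainX
import Pool.Agent.MMR.CertA
import Pool.Agent.MMR.CertB

/-!
# MMR, module FinX: back to the entire function
-/

set_option autoImplicit false

namespace Pool.Agent.MMR

open Real MeasureTheory Set Filter Topology Pool.Agent.MML

/-- The point of argument `θ(r)` on the circle `|z| = r`. -/
noncomputable def pt (θ : ℝ → ℝ) (r : ℝ) : ℂ := (r : ℂ) * Complex.exp (((θ r : ℝ) : ℂ) * Complex.I)

/-- `limsup log |f(r exp (i θ(r)))| / T(r,f)` as `r → ∞`, the logarithm of `0` being `-∞`. -/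
noncomputable def curveRatio (f : ℂ → ℂ) (θ : ℝ → ℝ) : EReal :=
  limsup (fun r : ℝ => ENNReal.log (ENNReal.ofReal ‖f (pt θ r)‖) / ((nevT f r : ℝ) : EReal)) atTop

/-- The path `r exp (i φ(log r))` is asymptotically a logarithmic spiral of slope `b`, or a ray if `b = 0`: `φ` is of class
`C²`, `φ' → b` and `φ'' → 0`. -/
structure Spiral (b : ℝ) (φ : ℝ → ℝ) : Prop where
  smooth : ContDiff ℝ 2 φ
  slope : Tendsto (deriv φ) atTop (𝓝 b)
  curv : Tendsto (deriv (deriv φ)) atTop (𝓝 0)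

theorem ratio_aux2 {m T x : ℝ} (hT : 0 < T)
    (h : ENNReal.log (ENNReal.ofReal m) / ((T : ℝ) : EReal) < (x : EReal)) :
    m ≤ exp (x * T) := by
  have hT' : (0 : EReal) < ((T : ℝ) : EReal) := by exact_mod_cast hT
  rw [EReal.div_lt_iff hT' (EReal.coe_ne_top T), ← EReal.coe_mul, ENNReal.log_ofReal] at h
  by_cases hm : m ≤ 0
  · exact le_trans hm (exp_pos _).le
  · rw [if_neg hm] at h
    have h1 : log m < x * T := by exact_mod_cast h
    push Not at hm
    have h2 := (Real.log_lt_iff_lt_exp hm).mp h1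
    exact h2.le

/-- thin neighbourhoods of a path, uniformly in the function and in the path -/
theorem fin_near {lam κ b : ℝ} (hl : 0 < lam) {a : ℕ → ℝ} {g g1 g2 : ℕ → ℝ → ℝ}
    (Ct : Cert b κ (π * lam) a g g1 g2) {ε : ℝ} (hε : 0 < ε) :
    ∃ δ : ℝ, 0 < δ ∧ ∀ f : ℂ → ℂ, Differentiable ℂ f → (¬ ∃ c, ∀ z, f z = c) →
      lowerOrder f = (lam : EReal) → ∀ φ : ℝ → ℝ, Spiral b φ → ∀ θ : ℝ → ℝ,
      (∀ᶠ r in atTop, |θ r - φ (log r)| ≤ δ) →
      ((-(2 * π * lam * κ + ε) : ℝ) : EReal) ≤ curveRatio f θ := by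
  have hpi : 0 < π := Real.pi_pos
  have hκ := Ct.hk
  obtain ⟨e1, he1⟩ : ∃ e1, e1 = ε / (4 * π * lam) := ⟨_, rfl⟩
  have he1' : 0 < e1 := by rw [he1]; positivity
  have he2 : 2 * π * lam * (2 * e1) = ε := by
    rw [he1]
    field_simp
    ring
  obtain ⟨δ0, hδ0, hwin⟩ := winX hl he1'
  refine ⟨δ0 / lam, by positivity, ?_⟩
  intro f hf hne hlo φ hφ θ hθ
  by_contra hcon
  rw [not_le] at hcon
  obtain ⟨x, hx1, hx2⟩ := EReal.lt_iff_exists_real_btwn.mp hcon
  have hx3 : x < -(2 * π * lam * κ + ε) := by exact_mod_cast hx2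
  have hev : ∀ᶠ r : ℝ in atTop,
      ENNReal.log (ENNReal.ofReal ‖f (pt θ r)‖) / ((nevT f r : ℝ) : EReal) < (x : EReal) :=
    Filter.eventually_lt_of_limsup_lt hx1
  have hlo' : lowerOrder f = ((1 * lam : ℝ) : EReal) := by rw [hlo, one_mul]
  have hne0 : ∃ z, f z ≠ 0 := by
    by_contra hcon
    push Not at hcon
    exact hne ⟨0, hcon⟩
  have hM := mN_tendsto hf hne hl one_pos hlo'
  obtain ⟨c2, hc2⟩ : ∃ c2 : ℝ, c2 = -x / (2 * π * lam) := ⟨_, rfl⟩
  have hc2' : κ + 2 * e1 < c2 := by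
    rw [hc2, lt_div_iff₀ (by positivity)]
    have h7 : 2 * π * lam * κ + ε < -x := by linarith
    nlinarith
  obtain ⟨c', hc'⟩ : ∃ c' : ℝ, c' = (κ + e1 + c2) / 2 := ⟨_, rfl⟩
  have h1 : κ + e1 < c' := by rw [hc']; linarith
  have h2 : c' < c2 := by rw [hc']; linarith
  -- the path in scaled coordinates
  have s1 : Differentiable ℝ φ := hφ.smooth.differentiable (by norm_num)
  have s2 : ContDiff ℝ 1 (deriv φ) := by
    have h3 : ContDiff ℝ (1 + 1) φ := by
      rw [one_add_one_eq_two]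
      exact hφ.smooth
    exact (contDiff_succ_iff_deriv.1 h3).2.2
  have s3 : Differentiable ℝ (deriv φ) := s2.differentiable (by norm_num)
  have s4 : Continuous (deriv (deriv φ)) := (contDiff_one_iff_deriv.1 s2).2
  have q1 : ∀ x, HasDerivAt (fun y => lam * φ (y / lam)) (deriv φ (x / lam)) x := by
    intro x
    have h3 : HasDerivAt (fun y : ℝ => y / lam) (1 / lam) x := (hasDerivAt_id x).div_const _
    have h4 := ((s1 (x / lam)).hasDerivAt.comp x h3).const_mul lam
    refine h4.congr_deriv ?_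
    field_simp
  have q2 : ∀ x, HasDerivAt (fun y => deriv φ (y / lam)) (deriv (deriv φ) (x / lam) / lam) x := by
    intro x
    have h3 : HasDerivAt (fun y : ℝ => y / lam) (1 / lam) x := (hasDerivAt_id x).div_const _
    have h4 := (s3 (x / lam)).hasDerivAt.comp x h3
    refine h4.congr_deriv ?_
    ring
  have q3 : Continuous fun x => deriv (deriv φ) (x / lam) / lam := by fun_prop
  have tl : Tendsto (fun x : ℝ => x / lam) atTop atTop := tendsto_id.atTop_div_const hl
  have q4 : Tendsto (fun x => deriv φ (x / lam)) atTop (𝓝 b) := hφ.slope.comp tl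
  have q5 : Tendsto (fun x => deriv (deriv φ) (x / lam) / lam) atTop (𝓝 0) := by
    have := (hφ.curv.comp tl).div_const lam
    rwa [zero_div] at this
  have hw := hwin f hf hne0 b κ a g g1 g2 Ct _ _ _ q1 q2 q3 q4 q5 c' (by linarith)
  apply main_near hf hne hl hlo' hκ (κ0 := κ + e1) h1 (by linarith) hw
  have htend : Tendsto (fun s : ℝ => exp (s / lam)) atTop atTop :=
    Real.tendsto_exp_atTop.comp (tendsto_id.atTop_div_const hl)
  have hlog2 : 0 ≤ log 2 := Real.log_nonneg (by norm_num)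
  filter_upwards [htend.eventually hev, htend.eventually hθ,
    hM.eventually_ge_atTop ((c2 * (π * lam * log 2)) / (c2 - c')),
    hM.eventually_gt_atTop (π * lam * log 2)] with s hs hsθ hs1 hs2
  obtain ⟨M, hMdef⟩ : ∃ M : ℝ, M = mN (π * lam) (Ue f lam 1) s := ⟨_, rfl⟩
  obtain ⟨T, hTdef⟩ : ∃ T : ℝ, T = nevT f (exp (s / lam)) := ⟨_, rfl⟩
  have hT := le_nevT hf hl s
  rw [← hMdef] at hT hs1 hs2 ⊢
  rw [← hTdef] at hT hs
  have hTpos : 0 < T := by
    by_contra hn
    push Not at hn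
    have : 2 * π * lam * T ≤ 0 :=
      mul_nonpos_of_nonneg_of_nonpos (by positivity) hn
    linarith
  have hm := ratio_aux2 hTpos hs
  refine ⟨lam * θ (exp (s / lam)), ?_, ?_⟩
  · rw [log_exp] at hsθ
    rw [← mul_sub, abs_mul, abs_of_pos hl]
    have h3 := mul_le_mul_of_nonneg_left hsθ hl.le
    rwa [mul_div_cancel₀ _ hl.ne'] at h3
  have hFe : Fe f lam s (lam * θ (exp (s / lam))) = f (pt θ (exp (s / lam))) := by
    unfold Fe pt
    congr 1
    have e1 : ((s : ℂ) + ((lam * θ (exp (s / lam)) : ℝ) : ℂ) * Complex.I) / (lam : ℂ)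
        = ((s / lam : ℝ) : ℂ) + ((θ (exp (s / lam)) : ℝ) : ℂ) * Complex.I := by
      have hμc : (lam : ℂ) ≠ 0 := by exact_mod_cast hl.ne'
      push_cast
      field_simp
    rw [e1, Complex.exp_add, ← Complex.ofReal_exp]
  rw [hFe]
  refine le_trans hm (Real.exp_le_exp.mpr ?_)
  have hc2pos : 0 < c2 := by linarith
  have hxT : x * T = -(c2 * (2 * π * lam * T)) := by
    rw [hc2]
    field_simp
  have hk : c2 * (π * lam * log 2) ≤ M * (c2 - c') := by
    have := (div_le_iff₀ (by linarith : 0 < c2 - c')).mp hs1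
    linarith
  have hk2 : c2 * (M - π * lam * log 2) ≤ c2 * (2 * π * lam * T) :=
    mul_le_mul_of_nonneg_left (by linarith) hc2pos.le
  rw [hxT]
  linarith

/-- points whose arguments are asymptotic to the path -/
theorem fin_lim {lam κ b : ℝ} (hl : 0 < lam) {a : ℕ → ℝ} {g g1 g2 : ℕ → ℝ → ℝ}
    (Ct : Cert b κ (π * lam) a g g1 g2) {f : ℂ → ℂ} (hf : Differentiable ℂ f)
    (hne : ¬ ∃ c, ∀ z, f z = c) (hlo : lowerOrder f = (lam : EReal)) {φ θ : ℝ → ℝ} (hφ : Spiral b φ)
    (hθ : Tendsto (fun r => θ r - φ (log r)) atTop (𝓝 0)) :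
    ((-(2 * π * lam * κ) : ℝ) : EReal) ≤ curveRatio f θ := by
  by_contra hcon
  rw [not_le] at hcon
  obtain ⟨x, hx1, hx2⟩ := EReal.lt_iff_exists_real_btwn.mp hcon
  have hx' : x < -(2 * π * lam * κ) := by exact_mod_cast hx2
  obtain ⟨δ, hδ, h⟩ := fin_near hl Ct (ε := -(2 * π * lam * κ) - x) (by linarith)
  have h1 : ∀ᶠ r in atTop, |θ r - φ (log r)| ≤ δ := by
    have h2 := hθ.abs
    rw [abs_zero] at h2
    exact h2.eventually_le_const hδ
  have h3 := h f hf hne hlo φ hφ θ h1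
  have e : -(2 * π * lam * κ + (-(2 * π * lam * κ) - x)) = x := by ring
  rw [e] at h3
  exact absurd hx1 (not_lt.2 h3)

/-- the factor of a spiral of slope `b` -/
noncomputable def spiralFactor (b : ℝ) : ℝ :=
  exp (b * arctan b) / (√(1 + b ^ 2) * cosh (π * b) * cosh (π * b / 2))

/-- The bound `-c` near asymptotic spirals of slope `b`, for the lower order `lam`: (1) for all `ε > 0` there is `δ > 0` such that
`limsup log |f(r exp (i θ(r)))| / T(r,f) ≥ -(c + ε)` whenever `|θ(r) - φ(log r)| ≤ δ` for large `r`;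
(2) the limsup is at least `-c` if `θ(r) - φ(log r) → 0`. -/
def Bound (b lam c : ℝ) : Prop :=
  (∀ ε : ℝ, 0 < ε → ∃ δ : ℝ, 0 < δ ∧ ∀ f : ℂ → ℂ, Differentiable ℂ f → (¬ ∃ c, ∀ z, f z = c) →
      lowerOrder f = (lam : EReal) → ∀ φ : ℝ → ℝ, Spiral b φ → ∀ θ : ℝ → ℝ,
      (∀ᶠ r in atTop, |θ r - φ (log r)| ≤ δ) → ((-(c + ε) : ℝ) : EReal) ≤ curveRatio f θ) ∧
  ∀ f : ℂ → ℂ, Differentiable ℂ f → (¬ ∃ c, ∀ z, f z = c) →
      lowerOrder f = (lam : EReal) → ∀ φ : ℝ → ℝ, Spiral b φ → ∀ θ : ℝ → ℝ,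
      Tendsto (fun r => θ r - φ (log r)) atTop (𝓝 0) → ((-c : ℝ) : EReal) ≤ curveRatio f θ

theorem bound_of {lam κ b c : ℝ} (hl : 0 < lam) {a : ℕ → ℝ} {g g1 g2 : ℕ → ℝ → ℝ}
    (Ct : Cert b κ (π * lam) a g g1 g2) (hc : 2 * π * lam * κ = c) : Bound b lam c := by
  subst hc
  refine ⟨fun ε hε => fin_near hl Ct hε, fun f hf hne hlo φ hφ θ hθ => fin_lim hl Ct hf hne hlo hφ hθ⟩

theorem bound_A {b lam : ℝ} (h : 3 / 2 * (1 + b ^ 2) ≤ lam) :
    Bound b lam (π * lam / 2 * spiralFactor b) := by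
  have hl : 0 < lam := lt_of_lt_of_le (by have := om_pos b; positivity) h
  refine bound_of hl (certA b h) ?_
  unfold kA spiralFactor
  have h2 := Real.sqrt_pos.2 (om_pos b)
  have h3 := cosh_pos (π * b)
  have h4 := cosh_pos (π * b / 2)
  field_simp
  ring

theorem bound_B {lam : ℝ} (h1 : 1 ≤ lam) (h2 : lam ≤ 3 / 2) :
    Bound 0 lam (π * lam / (1 + |sin (π * lam)|)) := by
  refine bound_of (by linarith) (certB h1 h2) ?_
  unfold kB
  have h4 : 0 < 1 + |sin (π * lam)| := by positivity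
  field_simp

theorem curve_min {f : ℂ → ℂ} {θ : ℝ → ℝ} (h : ∀ᶠ r in atTop, ‖f (pt θ r)‖ = minMod f r) :
    curveRatio f θ = minRatio f := by
  unfold curveRatio minRatio
  refine Filter.limsup_congr ?_
  filter_upwards [h] with r hr
  rw [hr]

theorem arctan_le_self' {x : ℝ} (h : 0 ≤ x) : arctan x ≤ x := by
  have h1 := Real.le_tan (arctan_nonneg.2 h) (arctan_lt_pi_div_two x)
  rwa [tan_arctan] at h1

theorem factor_zero : spiralFactor 0 = 1 := by
  unfold spiralFactor
  simp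

/-- the factor is at most `1` -/
theorem factor_le (b : ℝ) : spiralFactor b ≤ 1 := by
  unfold spiralFactor
  have h1 : 1 ≤ √(1 + b ^ 2) := by
    rw [Real.one_le_sqrt]
    nlinarith [sq_nonneg b]
  have h2 := one_le_cosh (π * b / 2)
  have h3 : exp (b * arctan b) ≤ cosh (π * b) := by
    have hpi := pi_gt_three
    have hab : b * arctan b ≤ |b| * |arctan b| := by
      rw [← abs_mul]
      exact le_abs_self _
    rcases le_or_gt |b| (1 / 2) with hb | hb
    · -- small slopes
      have e1 : |arctan b| ≤ |b| := by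
        rcases le_total 0 b with h0 | h0
        · rw [abs_of_nonneg h0, abs_of_nonneg (arctan_nonneg.2 h0)]
          exact arctan_le_self' h0
        · have h5 : arctan (-b) ≤ -b := arctan_le_self' (by linarith)
          rw [arctan_neg] at h5
          rw [abs_of_nonpos h0, abs_of_nonpos (arctan_le_zero.2 h0)]
          exact h5
      have e2 : b * arctan b ≤ b ^ 2 := by
        have := mul_le_mul_of_nonneg_left e1 (abs_nonneg b)
        rw [← sq, sq_abs] at this
        linarith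
      have e3 : b ^ 2 ≤ 1 / 4 := by
        have := abs_le.1 hb
        nlinarith
      have e4 : exp (b ^ 2) ≤ 1 + 2 * b ^ 2 := by
        have h6 : exp (b ^ 2) * (1 - b ^ 2) ≤ 1 := by
          have h7 := Real.add_one_le_exp (-b ^ 2)
          have h8 : exp (b ^ 2) * exp (-b ^ 2) = 1 := by
            rw [← exp_add]; simp
          have h9 := mul_le_mul_of_nonneg_left h7 (exp_pos (b ^ 2)).le
          linarith
        nlinarith [sq_nonneg b, exp_pos (b ^ 2)]
      have e5 : 1 + (π * b) ^ 2 / 2 ≤ cosh (π * b) := by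
        have h7 : 1 + 2 * sinh (π * b / 2) ^ 2 = cosh (π * b) := by
          have h8 := cosh_two_mul (π * b / 2)
          have h9 := cosh_sq (π * b / 2)
          have h10 : 2 * (π * b / 2) = π * b := by ring
          rw [h10] at h8
          linarith
        have h8 : (π * b / 2) ^ 2 ≤ sinh (π * b / 2) ^ 2 := by
          rw [sq_le_sq]
          rcases le_total 0 (π * b / 2) with h0 | h0
          · rw [abs_of_nonneg h0, abs_of_nonneg (sinh_nonneg_iff.2 h0)]
            exact self_le_sinh_iff.2 h0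
          · rw [abs_of_nonpos h0, abs_of_nonpos (sinh_nonpos_iff.2 h0)]
            have := sinh_le_self_iff.2 h0
            linarith
        nlinarith
      have e6 : exp (b * arctan b) ≤ exp (b ^ 2) := exp_le_exp.2 e2
      have e7 : 2 * b ^ 2 ≤ (π * b) ^ 2 / 2 := by
        have h9 : 9 ≤ π ^ 2 := by nlinarith
        have h10 := mul_le_mul_of_nonneg_right h9 (sq_nonneg b)
        have h11 : (π * b) ^ 2 = π ^ 2 * b ^ 2 := by ring
        rw [h11]
        nlinarith [sq_nonneg b]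
      linarith
    · -- large slopes
      have e1 : |arctan b| ≤ π / 2 := by
        rw [abs_le]
        exact ⟨(neg_pi_div_two_lt_arctan b).le, (arctan_lt_pi_div_two b).le⟩
      have e2 : b * arctan b ≤ π * |b| / 2 := by
        have := mul_le_mul_of_nonneg_left e1 (abs_nonneg b)
        linarith
      have e3 : exp (π * |b|) / 2 ≤ cosh (π * b) := by
        rw [← cosh_abs, abs_mul, abs_of_pos pi_pos, cosh_eq]
        have := exp_pos (-(π * |b|))
        linarith
      have e4 : exp (π * |b|) = exp (π * |b| / 2) * exp (π * |b| / 2) := by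
        rw [← exp_add]; congr 1; ring
      have e5 : 1 + 3 / 4 + (3 / 4) ^ 2 / 2 ≤ exp (3 / 4 : ℝ) := by
        have := Real.quadratic_le_exp_of_nonneg (x := 3 / 4) (by norm_num)
        linarith
      have e6 : exp (3 / 4 : ℝ) ≤ exp (π * |b| / 2) := exp_le_exp.2 (by nlinarith)
      have e7 : 2 ≤ exp (π * |b| / 2) := by linarith
      have e8 : exp (π * |b| / 2) ≤ exp (π * |b|) / 2 := by
        rw [e4]
        nlinarith [exp_pos (π * |b| / 2)]
      exact (exp_le_exp.2 e2).trans (e8.trans e3)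
  have h4 := cosh_pos (π * b)
  rw [div_le_one (by positivity)]
  have h5 : cosh (π * b) ≤ √(1 + b ^ 2) * cosh (π * b) := by nlinarith
  have h6 : √(1 + b ^ 2) * cosh (π * b) ≤ √(1 + b ^ 2) * cosh (π * b) * cosh (π * b / 2) := by
    have : 0 ≤ √(1 + b ^ 2) * cosh (π * b) := by positivity
    nlinarith
  linarith

end Pool.Agent.MMR
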