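import Pool.Agent.MML.EtaA

/-!
# MMR, module HC: the regularised logarithm in coordinates moving with a path

`H(x, s) = Ue f μ η x (s + φ(x))`.  With `z = x + i (s + φ x)` one has `∂x z = 1 + i φ'`, `∂s z = i`.  The structure `HP`
collects the partial derivatives and the subharmonicity, which reads
`Hxx - 2 φ' Hxs + (1 + φ'^2) Hss - φ'' Hs ≥ 0`.
-/

set_option autoImplicit false

namespace Pool.Agent.MMR

open Real MeasureTheory Set Filter Topology Pool.Agent.MML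

/-- a function of class `C²` in moving coordinates, subharmonic -/
structure HP (p r : ℝ → ℝ) (H Hx Hxx Hs Hss Hxs : ℝ → ℝ → ℝ) : Prop where
  dx : ∀ x s, HasDerivAt (fun y => H y s) (Hx x s) x
  dxx : ∀ x s, HasDerivAt (fun y => Hx y s) (Hxx x s) x
  ds : ∀ x s, HasDerivAt (fun y => H x y) (Hs x s) s
  dss : ∀ x s, HasDerivAt (fun y => Hs x y) (Hss x s) s
  dxs : ∀ x s, HasDerivAt (fun y => Hx x y) (Hxs x s) s
  c0 : Continuous (fun q : ℝ × ℝ => H q.1 q.2)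
  cx : Continuous (fun q : ℝ × ℝ => Hx q.1 q.2)
  cxx : Continuous (fun q : ℝ × ℝ => Hxx q.1 q.2)
  cs : Continuous (fun q : ℝ × ℝ => Hs q.1 q.2)
  css : Continuous (fun q : ℝ × ℝ => Hss q.1 q.2)
  cxs : Continuous (fun q : ℝ × ℝ => Hxs q.1 q.2)
  sub : ∀ x s, 0 ≤ Hxx x s - 2 * p x * Hxs x s + (1 + p x ^ 2) * Hss x s - r x * Hs x s

section gen

variable {H : ℂ → ℂ} {φ φ1 : ℝ → ℝ}

/-- the point of the path -/
noncomputable def zp (φ : ℝ → ℝ) (x s : ℝ) : ℂ := (x : ℂ) + ((s + φ x : ℝ) : ℂ) * Complex.I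

theorem zp_x (hφ : ∀ x, HasDerivAt φ (φ1 x) x) (x s : ℝ) :
    HasDerivAt (fun y : ℝ => zp φ y s) (1 + (φ1 x : ℂ) * Complex.I) x := by
  unfold zp
  have h1 : HasDerivAt (fun y : ℝ => (y : ℂ)) 1 x := Complex.ofRealCLM.hasDerivAt (x := x)
  have h2 : HasDerivAt (fun y : ℝ => s + φ y) (φ1 x) x := by
    simpa using (hφ x).const_add s
  have h3 : HasDerivAt (fun y : ℝ => ((s + φ y : ℝ) : ℂ)) ((φ1 x : ℝ) : ℂ) x := h2.ofReal_comp
  exact h1.add (h3.mul_const Complex.I)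

theorem zp_s (x s : ℝ) : HasDerivAt (fun y : ℝ => zp φ x y) Complex.I s := by
  unfold zp
  have h2 : HasDerivAt (fun y : ℝ => y + φ x) 1 s := by
    simpa using (hasDerivAt_id s).add_const (φ x)
  have h3 : HasDerivAt (fun y : ℝ => ((y + φ x : ℝ) : ℂ)) ((1 : ℝ) : ℂ) s := h2.ofReal_comp
  have h4 := (h3.mul_const Complex.I).const_add (x : ℂ)
  simpa using h4

theorem zp_cont (hφ : Continuous φ) : Continuous fun q : ℝ × ℝ => zp φ q.1 q.2 := by
  unfold zp
  fun_prop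

theorem hc_re_x (hH : Differentiable ℂ H) (hφ : ∀ x, HasDerivAt φ (φ1 x) x) (x s : ℝ) :
    HasDerivAt (fun y : ℝ => (H (zp φ y s)).re)
      ((deriv H (zp φ x s)).re - φ1 x * (deriv H (zp φ x s)).im) x := by
  have h1 := (hH (zp φ x s)).hasDerivAt.comp x (zp_x hφ x s)
  refine HasDerivAt.congr_deriv (Complex.reCLM.hasFDerivAt.comp_hasDerivAt x h1) ?_
  simp
  ring

theorem hc_im_x (hH : Differentiable ℂ H) (hφ : ∀ x, HasDerivAt φ (φ1 x) x) (x s : ℝ) :
    HasDerivAt (fun y : ℝ => (H (zp φ y s)).im)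
      ((deriv H (zp φ x s)).im + φ1 x * (deriv H (zp φ x s)).re) x := by
  have h1 := (hH (zp φ x s)).hasDerivAt.comp x (zp_x hφ x s)
  refine HasDerivAt.congr_deriv (Complex.imCLM.hasFDerivAt.comp_hasDerivAt x h1) ?_
  simp
  ring

theorem hc_re_s (hH : Differentiable ℂ H) (x s : ℝ) :
    HasDerivAt (fun y : ℝ => (H (zp φ x y)).re) (-(deriv H (zp φ x s)).im) s := by
  have h1 := (hH (zp φ x s)).hasDerivAt.comp s (zp_s (φ := φ) x s)
  refine HasDerivAt.congr_deriv (Complex.reCLM.hasFDerivAt.comp_hasDerivAt s h1) ?_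
  simp

theorem hc_im_s (hH : Differentiable ℂ H) (x s : ℝ) :
    HasDerivAt (fun y : ℝ => (H (zp φ x y)).im) (deriv H (zp φ x s)).re s := by
  have h1 := (hH (zp φ x s)).hasDerivAt.comp s (zp_s (φ := φ) x s)
  refine HasDerivAt.congr_deriv (Complex.imCLM.hasFDerivAt.comp_hasDerivAt s h1) ?_
  simp

/-- the computation with real functions -/
theorem hc_real {a b a1 b1 a2 b2 : ℝ → ℝ → ℝ} {φ1 φ2 : ℝ → ℝ} {η : ℝ} (hη : 0 < η)
    (ca : Continuous fun q : ℝ × ℝ => a q.1 q.2) (cb : Continuous fun q : ℝ × ℝ => b q.1 q.2)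
    (ca1 : Continuous fun q : ℝ × ℝ => a1 q.1 q.2) (cb1 : Continuous fun q : ℝ × ℝ => b1 q.1 q.2)
    (ca2 : Continuous fun q : ℝ × ℝ => a2 q.1 q.2) (cb2 : Continuous fun q : ℝ × ℝ => b2 q.1 q.2)
    (c1 : Continuous φ1) (c2 : Continuous φ2) (hφ1 : ∀ x, HasDerivAt φ1 (φ2 x) x)
    (ax : ∀ x s, HasDerivAt (fun y => a y s) (a1 x s - φ1 x * b1 x s) x)
    (bx : ∀ x s, HasDerivAt (fun y => b y s) (b1 x s + φ1 x * a1 x s) x)
    (a1x : ∀ x s, HasDerivAt (fun y => a1 y s) (a2 x s - φ1 x * b2 x s) x)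
    (b1x : ∀ x s, HasDerivAt (fun y => b1 y s) (b2 x s + φ1 x * a2 x s) x)
    (as : ∀ x s, HasDerivAt (fun y => a x y) (-b1 x s) s)
    (bs : ∀ x s, HasDerivAt (fun y => b x y) (a1 x s) s)
    (a1s : ∀ x s, HasDerivAt (fun y => a1 x y) (-b2 x s) s)
    (b1s : ∀ x s, HasDerivAt (fun y => b1 x y) (a2 x s) s) :
    ∃ Hx Hxx Hs Hss Hxs : ℝ → ℝ → ℝ,
      HP φ1 φ2 (fun x s => 1 / 2 * log (a x s ^ 2 + b x s ^ 2 + η ^ 2)) Hx Hxx Hs Hss Hxs := by
  have hpos : ∀ s t, 0 < a s t ^ 2 + b s t ^ 2 + η ^ 2 := fun s t => by positivity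
  have hne : ∀ s t, a s t ^ 2 + b s t ^ 2 + η ^ 2 ≠ 0 := fun s t => (hpos s t).ne'
  have hne' : ∀ q : ℝ × ℝ, a q.1 q.2 ^ 2 + b q.1 q.2 ^ 2 + η ^ 2 ≠ 0 := fun q => hne q.1 q.2
  have hne2 : ∀ q : ℝ × ℝ, (a q.1 q.2 ^ 2 + b q.1 q.2 ^ 2 + η ^ 2) ^ 2 ≠ 0 :=
    fun q => pow_ne_zero _ (hne' q)
  refine ⟨fun x s => (a x s * (a1 x s - φ1 x * b1 x s) + b x s * (b1 x s + φ1 x * a1 x s))
      / (a x s ^ 2 + b x s ^ 2 + η ^ 2),
    fun x s => ((a1 x s - φ1 x * b1 x s) ^ 2 + (b1 x s + φ1 x * a1 x s) ^ 2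
        + a x s * ((a2 x s - φ1 x * b2 x s) - (φ2 x * b1 x s + φ1 x * (b2 x s + φ1 x * a2 x s)))
        + b x s * ((b2 x s + φ1 x * a2 x s) + (φ2 x * a1 x s + φ1 x * (a2 x s - φ1 x * b2 x s))))
      / (a x s ^ 2 + b x s ^ 2 + η ^ 2)
      - 2 * (a x s * (a1 x s - φ1 x * b1 x s) + b x s * (b1 x s + φ1 x * a1 x s)) ^ 2
        / (a x s ^ 2 + b x s ^ 2 + η ^ 2) ^ 2,
    fun x s => (-(a x s * b1 x s) + b x s * a1 x s) / (a x s ^ 2 + b x s ^ 2 + η ^ 2),
    fun x s => (a1 x s ^ 2 + b1 x s ^ 2 - a x s * a2 x s - b x s * b2 x s)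
      / (a x s ^ 2 + b x s ^ 2 + η ^ 2)
      - 2 * (-(a x s * b1 x s) + b x s * a1 x s) ^ 2 / (a x s ^ 2 + b x s ^ 2 + η ^ 2) ^ 2,
    fun x s => (-b1 x s * (a1 x s - φ1 x * b1 x s) + a1 x s * (b1 x s + φ1 x * a1 x s)
        + a x s * (-b2 x s - φ1 x * a2 x s) + b x s * (a2 x s - φ1 x * b2 x s))
      / (a x s ^ 2 + b x s ^ 2 + η ^ 2)
      - 2 * (a x s * (a1 x s - φ1 x * b1 x s) + b x s * (b1 x s + φ1 x * a1 x s))
        * (-(a x s * b1 x s) + b x s * a1 x s) / (a x s ^ 2 + b x s ^ 2 + η ^ 2) ^ 2,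
    ?_, ?_, ?_, ?_, ?_, ?_, ?_, ?_, ?_, ?_, ?_, ?_⟩
  · intro x s
    have h := ((((ax x s).pow 2).add ((bx x s).pow 2)).add_const (η ^ 2)).log (hne x s)
    refine (h.const_mul (1 / 2)).congr_deriv ?_
    have := hne x s
    simp only [Pi.add_apply, Pi.pow_apply]
    field_simp
    norm_num
    ring
  · intro x s
    have hN := (((ax x s).mul ((a1x x s).sub ((hφ1 x).mul (b1x x s)))).add
      ((bx x s).mul ((b1x x s).add ((hφ1 x).mul (a1x x s)))))
    have hD := ((((ax x s).pow 2).add ((bx x s).pow 2)).add_const (η ^ 2))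
    refine (hN.div hD (hne x s)).congr_deriv ?_
    have := hne x s
    simp only [Pi.add_apply, Pi.mul_apply, Pi.pow_apply, Pi.sub_apply]
    field_simp
    norm_num
    ring
  · intro x s
    have h := ((((as x s).pow 2).add ((bs x s).pow 2)).add_const (η ^ 2)).log (hne x s)
    refine (h.const_mul (1 / 2)).congr_deriv ?_
    have := hne x s
    simp only [Pi.add_apply, Pi.pow_apply]
    field_simp
    norm_num
    ring
  · intro x s
    have hN := (((as x s).mul (b1s x s)).neg.add ((bs x s).mul (a1s x s)))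
    have hD := ((((as x s).pow 2).add ((bs x s).pow 2)).add_const (η ^ 2))
    refine (hN.div hD (hne x s)).congr_deriv ?_
    have := hne x s
    simp only [Pi.add_apply, Pi.mul_apply, Pi.pow_apply, Pi.neg_apply]
    field_simp
    norm_num
    ring
  · intro x s
    have hN := (((as x s).mul ((a1s x s).sub ((b1s x s).const_mul (φ1 x)))).add
      ((bs x s).mul ((b1s x s).add ((a1s x s).const_mul (φ1 x)))))
    have hD := ((((as x s).pow 2).add ((bs x s).pow 2)).add_const (η ^ 2))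
    refine (hN.div hD (hne x s)).congr_deriv ?_
    have := hne x s
    simp only [Pi.add_apply, Pi.mul_apply, Pi.pow_apply, Pi.sub_apply]
    field_simp
    norm_num
    ring
  · exact continuous_const.mul (Continuous.log (by fun_prop) hne')
  · exact Continuous.div (by fun_prop) (by fun_prop) hne'
  · refine Continuous.sub ?_ ?_
    · exact Continuous.div (by fun_prop) (by fun_prop) hne'
    · exact Continuous.div (by fun_prop) (by fun_prop) hne2
  · exact Continuous.div (by fun_prop) (by fun_prop) hne'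
  · refine Continuous.sub ?_ ?_
    · exact Continuous.div (by fun_prop) (by fun_prop) hne'
    · exact Continuous.div (by fun_prop) (by fun_prop) hne2
  · refine Continuous.sub ?_ ?_
    · exact Continuous.div (by fun_prop) (by fun_prop) hne'
    · exact Continuous.div (by fun_prop) (by fun_prop) hne2
  · intro x s
    have h0 : 0 ≤ 2 * η ^ 2 * (a1 x s ^ 2 + b1 x s ^ 2) / (a x s ^ 2 + b x s ^ 2 + η ^ 2) ^ 2 := by
      positivity
    refine h0.trans (le_of_eq ?_)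
    have := hne x s
    field_simp
    ring

theorem hc_gen (hH : Differentiable ℂ H) {η : ℝ} (hη : 0 < η) {φ φ1 φ2 : ℝ → ℝ}
    (hφ : ∀ x, HasDerivAt φ (φ1 x) x) (hφ1 : ∀ x, HasDerivAt φ1 (φ2 x) x) (c2 : Continuous φ2) :
    ∃ Hx Hxx Hs Hss Hxs : ℝ → ℝ → ℝ,
      HP φ1 φ2 (fun x s => 1 / 2 * log (‖H (zp φ x s)‖ ^ 2 + η ^ 2)) Hx Hxx Hs Hss Hxs := by
  have hH1 : Differentiable ℂ (deriv H) := (hH.contDiff (n := 2)).differentiable_deriv_two
  have c0 : Continuous φ := continuous_iff_continuousAt.2 fun x => (hφ x).continuousAt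
  have c1 : Continuous φ1 := continuous_iff_continuousAt.2 fun x => (hφ1 x).continuousAt
  have cz := zp_cont c0
  have cH : Continuous fun q : ℝ × ℝ => H (zp φ q.1 q.2) := hH.continuous.comp cz
  have cH1 : Continuous fun q : ℝ × ℝ => deriv H (zp φ q.1 q.2) := hH1.continuous.comp cz
  have h2 := ((hH1.contDiff (n := 2)).differentiable_deriv_two).continuous
  have cH2 : Continuous fun q : ℝ × ℝ => deriv (deriv H) (zp φ q.1 q.2) := h2.comp cz
  have eU : (fun x s : ℝ => 1 / 2 * log (‖H (zp φ x s)‖ ^ 2 + η ^ 2))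
      = fun x s => 1 / 2 * log ((H (zp φ x s)).re ^ 2 + (H (zp φ x s)).im ^ 2 + η ^ 2) := by
    funext x s
    rw [← Complex.normSq_eq_norm_sq, Complex.normSq_apply]
    congr 2
    ring
  rw [eU]
  exact hc_real (a := fun x s => (H (zp φ x s)).re) (b := fun x s => (H (zp φ x s)).im)
    (a1 := fun x s => (deriv H (zp φ x s)).re) (b1 := fun x s => (deriv H (zp φ x s)).im)
    (a2 := fun x s => (deriv (deriv H) (zp φ x s)).re)
    (b2 := fun x s => (deriv (deriv H) (zp φ x s)).im) hη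
    (Complex.continuous_re.comp cH) (Complex.continuous_im.comp cH)
    (Complex.continuous_re.comp cH1) (Complex.continuous_im.comp cH1)
    (Complex.continuous_re.comp cH2) (Complex.continuous_im.comp cH2) c1 c2 hφ1
    (hc_re_x hH hφ) (hc_im_x hH hφ) (hc_re_x hH1 hφ) (hc_im_x hH1 hφ)
    (hc_re_s hH) (hc_im_s hH) (hc_re_s hH1) (hc_im_s hH1)

end gen

/-- the regularised logarithm of an entire function in coordinates moving with a path -/
theorem HP_eta {f : ℂ → ℂ} (hf : Differentiable ℂ f) {μ η : ℝ} (hη : 0 < η) {φ φ1 φ2 : ℝ → ℝ}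
    (hφ : ∀ x, HasDerivAt φ (φ1 x) x) (hφ1 : ∀ x, HasDerivAt φ1 (φ2 x) x) (c2 : Continuous φ2) :
    ∃ Hx Hxx Hs Hss Hxs : ℝ → ℝ → ℝ,
      HP φ1 φ2 (fun x s => Ue f μ η x (s + φ x)) Hx Hxx Hs Hss Hxs := by
  have h := hc_gen (etaA_HF_diff hf μ) hη hφ hφ1 c2
  have e : (fun x s : ℝ => 1 / 2 * log (‖etaA_HF f μ (zp φ x s)‖ ^ 2 + η ^ 2))
      = fun x s => Ue f μ η x (s + φ x) := rfl
  rw [← e]
  exact h

end Pool.Agent.MMR
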