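import Pool.Agent.MMR.WinX
import Pool.Agent.MML.Sel
import Pool.Agent.MML.MainG

/-!
# MMR, module MainX: the theorem in scaled coordinates

As in MML.MainG, with the window inequality for points near a path, `ρ = 1`.
-/

set_option autoImplicit false

namespace Pool.Agent.MMR

open Real MeasureTheory Set Filter Topology Pool.Agent.MML

theorem main_near {f : ℂ → ℂ} (hf : Differentiable ℂ f) (hne : ¬ ∃ c, ∀ z, f z = c) {μ κ κ0 : ℝ}
    (hμ0 : 0 < μ) (hlo : lowerOrder f = ((1 * μ : ℝ) : EReal)) (hκ : 0 < κ) {φ : ℝ → ℝ}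
    {δ0 c' : ℝ} (h0 : κ0 < c') (hc : κ < c')
    (hw0 : ∃ C C0 s1 : ℝ, 0 ≤ C ∧ 1 ≤ C0 ∧ WindowX f μ φ δ0 c' κ0 C C0 s1) :
    ¬ ∀ᶠ s in atTop, ∃ t, |t - φ s| ≤ δ0 ∧ ‖Fe f μ s t‖ ≤ exp (-(c' * mN (π * μ) (Ue f μ 1) s)) := by
  intro hev
  have h89 : (0 : ℝ) < 1 := one_pos
  obtain ⟨s2, hs2⟩ := Filter.eventually_atTop.1 hev
  obtain ⟨C, C0, s1, hC, hC0, hwin⟩ := hw0
  set M : ℝ → ℝ := mN (π * μ) (Ue f μ 1) with hM
  have hMc : Continuous M := mainG_cont hf hμ0
  have hMm : Monotone M := mN_Ue_mono hf hμ0 one_pos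
  have hM0 : ∀ s, 0 ≤ M s := fun s => mainG_nonneg hμ0 s
  set P : ℝ → ℝ := fun s => M s + C0 with hP
  have hPm : Monotone P := fun a b hab => by
    simp only [hP]; linarith [hMm hab]
  have hPc : Continuous P := hMc.add continuous_const
  have hP1 : ∀ s, 1 ≤ P s := fun s => by simp only [hP]; linarith [hM0 s]
  have hP0 : ∀ s, 0 < P s := fun s => by linarith [hP1 s]
  have h1 : ∀ ρ' c : ℝ, 1 < ρ' → 0 < c → ¬ ∀ᶠ s in atTop, c * exp (ρ' * s) ≤ P s := by
    intro ρ' c hρ' hcpos hcon
    refine grow_up hf hne hμ0 h89 hlo ρ' (c / 2) hρ' (by positivity) ?_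
    have htend : Tendsto (fun s : ℝ => c / 2 * exp (ρ' * s)) atTop atTop := by
      apply Tendsto.const_mul_atTop (by positivity)
      exact Real.tendsto_exp_atTop.comp (Tendsto.const_mul_atTop (by linarith) tendsto_id)
    filter_upwards [hcon, htend.eventually_ge_atTop C0] with s ha hb
    have : c * exp (ρ' * s) ≤ M s + C0 := ha
    change c / 2 * exp (ρ' * s) ≤ M s
    nlinarith
  have h2 : ∀ ρ' C : ℝ, ρ' < 1 → ¬ ∀ᶠ s in atTop, P s ≤ C * exp (ρ' * s) := by
    intro ρ' C' hρ' hcon
    refine grow_low hf hne hμ0 h89 hlo ρ' C' hρ' ?_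
    filter_upwards [hcon] with s ha
    have : M s + C0 ≤ C' * exp (ρ' * s) := ha
    change M s ≤ C' * exp (ρ' * s)
    linarith
  have hcpos : 0 < c' := by linarith
  have hgap : 0 < c' - κ0 := by linarith
  set C2 : ℝ := C + c' * C0 + 1 with hC2
  have hcC0 : 0 < c' * C0 := mul_pos hcpos (by linarith)
  have hC2pos : 0 < C2 := by
    simp only [hC2]
    linarith
  obtain ⟨α, β, hα, hαβ, hsel⟩ := sel 1 h89 P hPm hPc hP0 h1 h2
    ((c' - κ0) / (2 * C2)) 4 (max s1 s2) (by positivity) (by norm_num)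
  have hα1 : s1 ≤ α := le_trans (le_max_left _ _) hα
  have hα2 : s2 ≤ α := le_trans (le_max_right _ _) hα
  have hexp : ∀ s : ℝ, exp (-1 * s) = exp (-s) := fun s => by rw [neg_one_mul]
  simp only [hexp] at hsel
  set J : ℝ := ∫ s in α..β, exp (-s) * P s with hJ
  set Φa : ℝ := exp (-α) * P (α + 4) with hΦa
  set Φb : ℝ := exp (-β) * P (β + 4) with hΦb
  have hΦa0 : 0 < Φa := mul_pos (Real.exp_pos _) (hP0 _)
  have hΦb0 : 0 < Φb := mul_pos (Real.exp_pos _) (hP0 _)
  set B : ℝ := ∫ s in α..β, exp (-s) * (1 / 2 * exp (2 * (c' * M s))) with hB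
  have hIntM : IntervalIntegrable (fun s => exp (-s) * (c' * M s)) volume α β :=
    Continuous.intervalIntegrable (by fun_prop) _ _
  have hIntB : IntervalIntegrable
      (fun s => exp (-s) * (1 / 2 * exp (2 * (c' * M s)))) volume α β :=
    Continuous.intervalIntegrable (by fun_prop) _ _
  have hIntE : IntervalIntegrable (fun s => exp (-s)) volume α β :=
    Continuous.intervalIntegrable (by fun_prop) _ _
  have hIntP : IntervalIntegrable (fun s => exp (-s) * P s) volume α β :=
    Continuous.intervalIntegrable (by fun_prop) _ _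
  have hB0 : 0 ≤ B := by
    apply intervalIntegral.integral_nonneg hαβ
    intro t _
    positivity
  have key : ∀ η ∈ Ioc (0 : ℝ) 1,
      ∫ s in α..β, exp (-s) * (c' * M s) ≤ κ0 * J + C * (Φa + Φb) + η ^ 2 * B := by
    intro η hη
    have hη0 : 0 < η := hη.1
    set Y : ℝ → ℝ := fun s => -(1 / 2 * log (exp (-(2 * (c' * M s))) + η ^ 2)) with hY
    have hYc : Continuous Y := by
      simp only [hY]
      apply Continuous.neg
      apply Continuous.mul continuous_const
      apply Continuous.log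
      · fun_prop
      · intro s
        have : 0 < exp (-(2 * (c' * M s))) + η ^ 2 := by positivity
        exact this.ne'
    have hYle : ∀ s, α ≤ s → ∃ t, |t - φ s| ≤ δ0 ∧ Y s ≤ -(Ue f μ η s t) := by
      intro s hs
      obtain ⟨t, ht0, ht⟩ := hs2 s (le_trans hα2 hs)
      refine ⟨t, ht0, ?_⟩
      simp only [hY, Ue]
      have hsq : ‖Fe f μ s t‖ ^ 2 ≤ exp (-(2 * (c' * M s))) := by
        have h3 : ‖Fe f μ s t‖ ^ 2 ≤ (exp (-(c' * M s))) ^ 2 :=
          pow_le_pow_left₀ (norm_nonneg _) ht 2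
        have h4 : (exp (-(c' * M s))) ^ 2 = exp (-(2 * (c' * M s))) := by
          rw [← Real.exp_nat_mul]; congr 1; push_cast; ring
        rwa [h4] at h3
      have hlog : log (‖Fe f μ s t‖ ^ 2 + η ^ 2) ≤ log (exp (-(2 * (c' * M s))) + η ^ 2) := by
        apply Real.log_le_log (by positivity)
        linarith
      linarith
    have hY1 : ∀ s, -1 ≤ Y s := by
      intro s
      simp only [hY]
      have e1 : exp (-(2 * (c' * M s))) ≤ 1 := by
        rw [Real.exp_le_one_iff]
        have := mul_nonneg hcpos.le (hM0 s)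
        linarith
      have e2 : η ^ 2 ≤ 1 := pow_le_one₀ hη0.le hη.2
      have e3 : 0 < exp (-(2 * (c' * M s))) + η ^ 2 := by positivity
      have e4 : log (exp (-(2 * (c' * M s))) + η ^ 2) ≤ log 2 :=
        Real.log_le_log e3 (by linarith)
      have e5 : log 2 ≤ 2 := (Real.log_le_sub_one_of_pos (by norm_num)).trans (by norm_num)
      linarith
    have hYM : ∀ s, Y s ≤ c' * M s := by
      intro s
      simp only [hY]
      have e3 : exp (-(2 * (c' * M s))) ≤ exp (-(2 * (c' * M s))) + η ^ 2 := by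
        have := sq_nonneg η
        linarith
      have e4 := Real.log_le_log (exp_pos _) e3
      rw [Real.log_exp] at e4
      linarith
    have hw := hwin η hη Y α β hα1 hαβ hYc hYle hY1 hYM
    have hIntY : IntervalIntegrable (fun s => exp (-s) * Y s) volume α β :=
      Continuous.intervalIntegrable (by fun_prop) _ _
    have hmono : ∫ s in α..β, (exp (-s) * (c' * M s)
        - η ^ 2 * (exp (-s) * (1 / 2 * exp (2 * (c' * M s)))))
        ≤ ∫ s in α..β, exp (-s) * Y s := by
      apply intervalIntegral.integral_mono_on hαβ (hIntM.sub (hIntB.const_mul _)) hIntY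
      intro s _
      have h5 := mainG_log (c' * M s) η hη0
      have h6 := mul_le_mul_of_nonneg_left h5 (Real.exp_pos (-s)).le
      simp only [hY]
      calc _ = exp (-s) * (c' * M s - η ^ 2 * (1 / 2 * exp (2 * (c' * M s)))) := by
            ring
        _ ≤ _ := h6
    rw [intervalIntegral.integral_sub hIntM (hIntB.const_mul _),
      intervalIntegral.integral_const_mul] at hmono
    have hw' : ∫ s in α..β, exp (-s) * Y s ≤ κ0 * J + C * (Φa + Φb) := hw
    have hmono' : (∫ s in α..β, exp (-s) * (c' * M s)) - η ^ 2 * B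
        ≤ ∫ s in α..β, exp (-s) * Y s := hmono
    linarith
  have key2 : ∫ s in α..β, exp (-s) * (c' * M s) ≤ κ0 * J + C * (Φa + Φb) := by
    apply le_of_forall_pos_le_add
    intro ε hε
    set η : ℝ := min 1 (ε / (B + 1)) with hηdef
    have hη0 : 0 < η := lt_min one_pos (by positivity)
    have hη1 : η ≤ 1 := min_le_left _ _
    have h7 := key η ⟨hη0, hη1⟩
    have h8 : η ^ 2 * B ≤ ε := by
      have h9 : η ^ 2 ≤ η := by nlinarith
      have h10 : η ≤ ε / (B + 1) := min_le_right _ _
      have h11 : η * (B + 1) ≤ ε := by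
        rwa [le_div_iff₀ (by positivity)] at h10
      nlinarith
    linarith
  have hsplit : ∫ s in α..β, exp (-s) * (c' * M s)
      = c' * J - (c' * C0) * ∫ s in α..β, exp (-s) := by
    rw [hJ, ← intervalIntegral.integral_const_mul, ← intervalIntegral.integral_const_mul,
      ← intervalIntegral.integral_sub (hIntP.const_mul _) (hIntE.const_mul _)]
    apply intervalIntegral.integral_congr
    intro s _
    simp only [hP]
    ring
  have hE : ∫ s in α..β, exp (-s) ≤ exp (-α) := by
    have := mainG_exp_int h89 hαβ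
    simp only [hexp, inv_one, one_mul] at this
    exact this
  have hEa : exp (-α) ≤ Φa := by
    have := hP1 (α + 4)
    have h12 := Real.exp_pos (-α)
    simp only [hΦa]
    nlinarith
  have hE2 : (c' * C0) * (∫ s in α..β, exp (-s)) ≤ (c' * C0) * Φa := by
    apply mul_le_mul_of_nonneg_left _ hcC0.le
    linarith
  have hfin : (c' - κ0) * J ≤ C2 * (Φa + Φb) := by
    have h13 : c' * J - (c' * C0) * (∫ s in α..β, exp (-s))
        ≤ κ0 * J + C * (Φa + Φb) := by rw [← hsplit]; exact key2
    have h14 : 0 ≤ (c' * C0) * Φb := by positivity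
    simp only [hC2]
    nlinarith
  have hsel' : Φa + Φb ≤ (c' - κ0) / (2 * C2) * J := hsel
  have hJpos : 0 < J := by
    by_contra hcon
    have hJle : J ≤ 0 := not_lt.1 hcon
    have : (c' - κ0) / (2 * C2) * J ≤ 0 :=
      mul_nonpos_of_nonneg_of_nonpos (by positivity) hJle
    linarith
  have h15 : C2 * (Φa + Φb) ≤ C2 * ((c' - κ0) / (2 * C2) * J) :=
    mul_le_mul_of_nonneg_left hsel' hC2pos.le
  have h16 : C2 * ((c' - κ0) / (2 * C2) * J) = (c' - κ0) / 2 * J := by
    field_simp
  have h17 : 0 < (c' - κ0) * J := mul_pos hgap hJpos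
  nlinarith

end Pool.Agent.MMR
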