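import Pool.Agent.MMR.Piece
import Pool.Agent.MML.PtI

/-!
# MMR, module Near: comparison of the values at two near points of a vertical line

With `a = π/l` and the kernel `gI` of the cylinder of circumference `2l`: for `|t1 - t0| ≤ δ`
`U(s0,t0) - U(s0,t1) ≤ ∫ (χ h_δ N2(s0+τ) + K δ mN|U|(s0+τ)) dτ`,
`h_δ = (4π)^{-1} log (1 + aδ/(cosh (aτ) - 1))`, whose integral tends to `0` as `δ → 0`.
-/

set_option autoImplicit false

namespace Pool.Agent.MMR

open Real MeasureTheory Set Filter Topology Pool.Agent.MML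

/-- unfolding of the symmetrised integral -/
theorem sym_full {l : ℝ} {g F : ℝ → ℝ} (hg : Continuous g) (hF : Continuous F)
    (ge : ∀ t, g (-t) = g t) (gp : Function.Periodic g (2 * l)) (Fp : Function.Periodic F (2 * l))
    (t0 : ℝ) :
    ∫ t in (0 : ℝ)..l, g t * (F (t0 + t) + F (t0 - t)) = ∫ t in (-l)..l, g (t - t0) * F t := by
  have i1 : ∀ u v, IntervalIntegrable (fun t => g t * F (t0 + t)) volume u v := fun u v =>
    Continuous.intervalIntegrable (by fun_prop) _ _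
  have i2 : ∀ u v, IntervalIntegrable (fun t => g t * F (t0 - t)) volume u v := fun u v =>
    Continuous.intervalIntegrable (by fun_prop) _ _
  have e1 : ∫ t in (0 : ℝ)..l, g t * (F (t0 + t) + F (t0 - t))
      = (∫ t in (0 : ℝ)..l, g t * F (t0 + t)) + ∫ t in (0 : ℝ)..l, g t * F (t0 - t) := by
    rw [← intervalIntegral.integral_add (i1 _ _) (i2 _ _)]
    congr 1
    funext t
    ring
  have e2 : ∫ t in (0 : ℝ)..l, g t * F (t0 - t) = ∫ t in (-l)..0, g t * F (t0 + t) := by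
    have := intervalIntegral.integral_comp_neg (a := 0) (b := l) (fun t => g t * F (t0 + t))
    rw [neg_zero] at this
    rw [← this]
    congr 1
    funext t
    rw [ge, sub_eq_add_neg]
  have e3 : (∫ t in (0 : ℝ)..l, g t * F (t0 + t)) + ∫ t in (-l)..0, g t * F (t0 + t)
      = ∫ t in (-l)..l, g t * F (t0 + t) := by
    rw [add_comm]
    exact intervalIntegral.integral_add_adjacent_intervals (i1 _ _) (i1 _ _)
  have e4 : ∫ t in (-l)..l, g t * F (t0 + t) = ∫ t in (t0 + -l)..(t0 + l), g (t - t0) * F t := by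
    rw [← intervalIntegral.integral_comp_add_left (fun t => g (t - t0) * F t) t0]
    congr 1
    funext t
    simp only [add_sub_cancel_left]
  have hper : Function.Periodic (fun t => g (t - t0) * F t) (2 * l) := by
    intro t
    simp only
    rw [Fp t]
    have : t + 2 * l - t0 = (t - t0) + 2 * l := by ring
    rw [this, gp]
  have e5 := hper.intervalIntegral_add_eq (t0 + -l) (-l)
  rw [show t0 + -l + 2 * l = t0 + l by ring, show -l + 2 * l = l by ring] at e5
  rw [e1, e2, e3, e4, e5]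

/-- the kernel which controls the Riesz mass -/
noncomputable def hd (a δ τ : ℝ) : ℝ := (4 * π)⁻¹ * log (1 + a * δ / (cosh (a * τ) - 1))

theorem hd_nonneg {a δ : ℝ} (ha : 0 < a) (hδ : 0 ≤ δ) (τ : ℝ) : 0 ≤ hd a δ τ := by
  unfold hd
  refine mul_nonneg (by positivity) (log_nonneg ?_)
  have h1 := one_le_cosh (a * τ)
  have h2 : 0 ≤ a * δ / (cosh (a * τ) - 1) := div_nonneg (by positivity) (by linarith)
  linarith

theorem hd_le {a δ τ : ℝ} (ha : 0 < a) (hδ : 0 ≤ δ) (h : a * δ ≤ 2) (hτ : τ ≠ 0) :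
    hd a δ τ ≤ hI a τ := by
  unfold hd hI
  have hc := keri_cosh_gt a ha hτ
  have h1 : 0 < cosh (a * τ) - 1 := by linarith
  refine mul_le_mul_of_nonneg_left (log_le_log ?_ ?_) (by positivity)
  · have : 0 ≤ a * δ / (cosh (a * τ) - 1) := div_nonneg (by positivity) h1.le
    linarith
  · rw [le_div_iff₀ h1, add_mul, div_mul_cancel₀ _ h1.ne']
    linarith

theorem hd_meas (a δ : ℝ) : Measurable (hd a δ) := by
  unfold hd
  fun_prop

theorem hd_int {a δ : ℝ} (ha : 0 < a) (hδ : 0 ≤ δ) (h : a * δ ≤ 2) (x y : ℝ) :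
    IntervalIntegrable (hd a δ) volume x y := by
  refine (hI_int a ha x y).mono_fun (hd_meas a δ).aestronglyMeasurable ?_
  have hne : ∀ᵐ τ : ℝ, τ ≠ 0 := by
    rw [ae_iff]
    simp
  filter_upwards [ae_restrict_of_ae hne] with τ hτ
  rw [norm_of_nonneg (hd_nonneg ha hδ τ), norm_of_nonneg (hI_nonneg a τ)]
  exact hd_le ha hδ h hτ

/-- the integral of the kernel tends to `0` -/
theorem hd_small {a : ℝ} (ha : 0 < a) {R : ℝ} (hR : 2 ≤ R) {ε : ℝ} (hε : 0 < ε) :
    ∃ δ0 : ℝ, 0 < δ0 ∧ ∀ δ, 0 ≤ δ → δ ≤ δ0 → a * δ ≤ 2 ∧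
      ∫ τ in (-R)..R, exp (1 * τ) * (chi R τ * hd a δ τ) ≤ ε := by
  obtain ⟨cc0, -, -⟩ := chi_cont hR
  have hne : ∀ᵐ τ : ℝ, τ ≠ 0 := by
    rw [ae_iff]
    simp
  have ht : Tendsto (fun δ : ℝ => ∫ τ in (-R)..R, exp (1 * τ) * (chi R τ * hd a δ τ)) (𝓝[≥] 0)
      (𝓝 (∫ τ in (-R)..R, (0 : ℝ))) := by
    have hev : ∀ᶠ δ : ℝ in 𝓝[≥] 0, 0 ≤ δ ∧ a * δ ≤ 2 := by
      have h1 : ∀ᶠ δ : ℝ in 𝓝[≥] 0, δ ∈ Icc (0 : ℝ) (2 / a) := Icc_mem_nhdsGE (by positivity)
      filter_upwards [h1] with δ hδ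
      refine ⟨hδ.1, ?_⟩
      have := (le_div_iff₀ ha).1 hδ.2
      linarith
    refine intervalIntegral.tendsto_integral_filter_of_dominated_convergence
      (fun τ => exp (1 * τ) * (chi R τ * hI a τ)) ?_ ?_ ?_ ?_
    · exact Eventually.of_forall fun δ => by
        have := hd_meas a δ
        have := cc0.measurable
        exact Measurable.aestronglyMeasurable (by fun_prop)
    · filter_upwards [hev] with δ hδ
      filter_upwards [hne] with τ hτ hτ'
      rw [uIoc_of_le (by linarith)] at hτ'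
      have hc := (chi_mem hR (abs_le.2 ⟨hτ'.1.le, hτ'.2⟩)).1
      have h1 := hd_nonneg ha hδ.1 τ
      rw [norm_of_nonneg (by positivity)]
      exact mul_le_mul_of_nonneg_left (mul_le_mul_of_nonneg_left (hd_le ha hδ.1 hδ.2 hτ) hc)
        (exp_pos _).le
    · exact (((hI_int a ha (-R) R).continuousOn_mul cc0.continuousOn).continuousOn_mul
        (by fun_prop : Continuous fun τ : ℝ => exp (1 * τ)).continuousOn)
    · filter_upwards [hne] with τ hτ _
      have hc := keri_cosh_gt a ha hτ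
      have h1 : Tendsto (fun δ : ℝ => hd a δ τ) (𝓝 0) (𝓝 (hd a 0 τ)) := by
        have : ContinuousAt (fun δ : ℝ => hd a δ τ) 0 := by
          unfold hd
          refine continuousAt_const.mul (ContinuousAt.log (by fun_prop) ?_)
          simp
        exact this
      have h2 : hd a 0 τ = 0 := by
        unfold hd
        simp
      rw [h2] at h1
      have h3 := ((h1.const_mul (chi R τ)).const_mul (exp (1 * τ)))
      rw [mul_zero, mul_zero] at h3
      exact h3.mono_left nhdsWithin_le_nhds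
  rw [intervalIntegral.integral_zero] at ht
  have h1 := ht.eventually_le_const hε
  have h2 : ∀ᶠ δ : ℝ in 𝓝[≥] 0, δ ∈ Icc (0 : ℝ) (2 / a) := Icc_mem_nhdsGE (by positivity)
  obtain ⟨δ0, hδ0, hsub⟩ := (mem_nhdsGE_iff_exists_Icc_subset).1 (h1.and h2)
  refine ⟨δ0, hδ0, fun δ h3 h4 => ?_⟩
  obtain ⟨h5, h6⟩ := hsub ⟨h3, h4⟩
  refine ⟨?_, h5⟩
  have := (le_div_iff₀ ha).1 h6.2
  linarith

end Pool.Agent.MMR
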