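import Pool.Agent.MMR.Near

/-!
# MMR, module NearB: the pointwise comparison
-/

set_option autoImplicit false

namespace Pool.Agent.MMR

open Real MeasureTheory Set Filter Topology Pool.Agent.MML

theorem cos_lip (x y : ℝ) : |cos x - cos y| ≤ |x - y| := by
  have h1 := cos_sub_cos x y
  have h2 : |sin ((x - y) / 2)| ≤ |(x - y) / 2| := abs_sin_le_abs
  have h3 := abs_sin_le_one ((x + y) / 2)
  rw [h1, abs_mul, abs_mul, abs_neg, abs_of_pos (show (0 : ℝ) < 2 by norm_num)]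
  rw [abs_div, abs_of_pos (show (0 : ℝ) < 2 by norm_num)] at h2
  have h4 := abs_nonneg (sin ((x - y) / 2))
  have h5 : |sin ((x + y) / 2)| * |sin ((x - y) / 2)| ≤ |x - y| / 2 := by nlinarith
  linarith

/-- the density off the pole -/
noncomputable def dn (a R τ t : ℝ) : ℝ := 2 * chi1 R τ * gIs a 0 τ t + chi2 R τ * gI a 0 τ t

theorem dn_neg (a R τ t : ℝ) : dn a R τ (-t) = dn a R τ t := by
  unfold dn gIs gI
  rw [mul_neg, cos_neg]

theorem gI_neg (a ε τ t : ℝ) : gI a ε τ (-t) = gI a ε τ t := by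
  unfold gI
  rw [mul_neg, cos_neg]

theorem gI_per {a l : ℝ} (h : a * l = π) (ε τ : ℝ) : Function.Periodic (gI a ε τ) (2 * l) := by
  intro t
  unfold gI
  have e : a * (t + 2 * l) = a * t + 2 * π := by rw [← h]; ring
  rw [e, cos_add_two_pi]

theorem dn_per {a l : ℝ} (h : a * l = π) (R τ : ℝ) : Function.Periodic (dn a R τ) (2 * l) := by
  intro t
  unfold dn gIs gI
  have e : a * (t + 2 * l) = a * t + 2 * π := by rw [← h]; ring
  rw [e, cos_add_two_pi]

theorem dn_zero {a R : ℝ} (hR : 2 ≤ R) {τ : ℝ} (h : |τ| ≤ 1) (t : ℝ) : dn a R τ t = 0 := by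
  obtain ⟨-, e1, e2⟩ := chi_one hR h
  unfold dn
  rw [e1, e2]
  ring

theorem dn_cont {a R : ℝ} (ha : 0 < a) (hR : 2 ≤ R) :
    Continuous (fun p : ℝ × ℝ => dn a R p.1 p.2) := by
  obtain ⟨-, c1, c2⟩ := chi_cont hR
  have hca : 1 < cosh a := one_lt_cosh.2 ha.ne'
  have hD : ∀ p ∈ ({p : ℝ × ℝ | 1 ≤ |p.1|}), cosh (a * p.1) - cos (a * p.2) + 0 ≠ 0 := by
    intro p hp
    have h1 := keri_cosh_ge a ha hp
    have h2 := cos_le_one (a * p.2)
    intro h
    linarith
  have hD1 : ∀ p ∈ ({p : ℝ × ℝ | 1 ≤ |p.1|}), cosh (a * p.1) + 1 + 0 ≠ 0 := by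
    intro p _
    have := keri_D1_pos a (ε := 0) (τ := p.1) le_rfl
    exact this.ne'
  have c1' : Continuous fun p : ℝ × ℝ => chi1 R p.1 := c1.comp continuous_fst
  have c2' : Continuous fun p : ℝ × ℝ => chi2 R p.1 := c2.comp continuous_fst
  have hn : ContinuousOn (fun p : ℝ × ℝ => cosh (a * p.1) - cos (a * p.2) + 0)
      {p : ℝ × ℝ | 1 ≤ |p.1|} := Continuous.continuousOn (by fun_prop)
  have hn1 : ContinuousOn (fun p : ℝ × ℝ => cosh (a * p.1) + 1 + 0)
      {p : ℝ × ℝ | 1 ≤ |p.1|} := Continuous.continuousOn (by fun_prop)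
  have hs : ContinuousOn (fun p : ℝ × ℝ => a * sinh (a * p.1))
      {p : ℝ × ℝ | 1 ≤ |p.1|} := Continuous.continuousOn (by fun_prop)
  have h1 : ContinuousOn (fun p : ℝ × ℝ => dn a R p.1 p.2) {p : ℝ × ℝ | 1 ≤ |p.1|} := by
    unfold dn gIs gI
    refine ContinuousOn.add (ContinuousOn.mul ?_ ?_) (ContinuousOn.mul ?_ ?_)
    · exact (continuous_const.mul c1').continuousOn
    · exact continuousOn_const.mul ((hs.div hn hD).sub (hs.div hn1 hD1))
    · exact c2'.continuousOn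
    · exact continuousOn_const.mul ((hn.log hD).sub (hn1.log hD1))
  have h2 : ContinuousOn (fun p : ℝ × ℝ => dn a R p.1 p.2) {p : ℝ × ℝ | |p.1| ≤ 1} := by
    refine (continuousOn_const (c := (0 : ℝ))).congr ?_
    rintro ⟨τ, t⟩ h
    exact dn_zero hR h t
  have k1 : IsClosed {p : ℝ × ℝ | 1 ≤ |p.1|} :=
    isClosed_le continuous_const (continuous_abs.comp continuous_fst)
  have k2 : IsClosed {p : ℝ × ℝ | |p.1| ≤ 1} :=
    isClosed_le (continuous_abs.comp continuous_fst) continuous_const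
  rw [← continuousOn_univ]
  refine (h1.union_of_isClosed h2 k1 k2).mono ?_
  rintro ⟨τ, t⟩ -
  rcases le_total 1 |τ| with h | h
  · exact Or.inl h
  · exact Or.inr h

theorem dn_lip {a R : ℝ} (ha : 0 < a) (hR : 2 ≤ R) : ∃ K, 0 ≤ K ∧ ∀ τ ∈ Icc (-R) R, ∀ t t',
    |dn a R τ t - dn a R τ t'| ≤ K * |t - t'| := by
  have hca : 1 < cosh a := one_lt_cosh.2 ha.ne'
  obtain ⟨m, hm⟩ : ∃ m, m = cosh a - 1 := ⟨_, rfl⟩
  have hm0 : 0 < m := by rw [hm]; linarith
  have hR1 : 0 < R - 1 := by linarith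
  have hCR := cosh_pos (a * R)
  refine ⟨(12 * ((4 * π)⁻¹ * (a * cosh (a * R) / m ^ 2)) + 30 * ((4 * π)⁻¹ * (1 / m))) * a,
    by positivity, ?_⟩
  intro τ hτ t t'
  rcases le_total |τ| 1 with h | h
  · rw [dn_zero hR h, dn_zero hR h, sub_zero, abs_zero]
    positivity
  have hC := keri_cosh_ge a ha h
  have hCR' := keri_cosh_le a R ha hR hτ
  have hc : |cos (a * t) - cos (a * t')| ≤ a * |t - t'| := by
    have := cos_lip (a * t) (a * t')
    rw [← mul_sub, abs_mul, abs_of_pos ha] at this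
    exact this
  obtain ⟨c, hcd⟩ : ∃ c, c = cos (a * t) := ⟨_, rfl⟩
  obtain ⟨c', hcd'⟩ : ∃ c, c = cos (a * t') := ⟨_, rfl⟩
  obtain ⟨C, hCd⟩ : ∃ C, C = cosh (a * τ) := ⟨_, rfl⟩
  have l1 : c ≤ 1 := by rw [hcd]; exact cos_le_one _
  have l2 : c' ≤ 1 := by rw [hcd']; exact cos_le_one _
  rw [← hcd, ← hcd'] at hc
  rw [← hCd] at hC hCR'
  have x1 : m ≤ C - c := by rw [hm]; linarith
  have x2 : m ≤ C - c' := by rw [hm]; linarith
  have y1 : 0 < C - c := by linarith
  have y2 : 0 < C - c' := by linarith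
  -- the logarithm
  have b1 : |log (C - c) - log (C - c')| ≤ |c - c'| / m := by
    rcases le_total c c' with hcc | hcc
    · have k := keri_log_sub y2 y1 (by linarith : C - c' ≤ C - c)
      refine k.trans ?_
      rw [abs_of_nonpos (by linarith : c - c' ≤ 0)]
      have : C - c - (C - c') = -(c - c') := by ring
      rw [this]
      exact div_le_div_of_nonneg_left (by linarith) hm0 x2
    · have k := keri_log_sub y1 y2 (by linarith : C - c ≤ C - c')
      rw [abs_sub_comm]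
      refine k.trans ?_
      rw [abs_of_nonneg (by linarith : 0 ≤ c - c')]
      have : C - c' - (C - c) = c - c' := by ring
      rw [this]
      exact div_le_div_of_nonneg_left (by linarith) hm0 x1
  -- the derivative
  have b2 : |1 / (C - c) - 1 / (C - c')| ≤ |c - c'| / m ^ 2 := by
    have e : 1 / (C - c) - 1 / (C - c') = (c - c') / ((C - c) * (C - c')) := by
      field_simp
      ring
    rw [e, abs_div, abs_of_pos (mul_pos y1 y2)]
    refine div_le_div_of_nonneg_left (abs_nonneg _) (by positivity) ?_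
    rw [sq]
    exact mul_le_mul x1 x2 hm0.le y1.le
  have s1 : |a * sinh (a * τ)| ≤ a * cosh (a * R) := by
    rw [abs_mul, abs_of_pos ha]
    refine mul_le_mul_of_nonneg_left ?_ ha.le
    exact (keri_sinh_le _).trans (by rw [← hCd]; exact hCR')
  have f1 : gI a 0 τ t - gI a 0 τ t' = (4 * π)⁻¹ * (log (C - c) - log (C - c')) := by
    unfold gI
    rw [← hCd, ← hcd, ← hcd', add_zero, add_zero, add_zero]
    ring
  have f2 : gIs a 0 τ t - gIs a 0 τ t' = (4 * π)⁻¹ * (a * sinh (a * τ) * (1 / (C - c)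
      - 1 / (C - c'))) := by
    unfold gIs
    rw [← hCd, ← hcd, ← hcd', add_zero, add_zero, add_zero]
    ring
  have hp : 0 < (4 * π)⁻¹ := by positivity
  have g1 : |gI a 0 τ t - gI a 0 τ t'| ≤ (4 * π)⁻¹ * (1 / m) * |c - c'| := by
    rw [f1, abs_mul, abs_of_pos hp]
    have := mul_le_mul_of_nonneg_left b1 hp.le
    refine this.trans (le_of_eq ?_)
    ring
  have g2 : |gIs a 0 τ t - gIs a 0 τ t'| ≤ (4 * π)⁻¹ * (a * cosh (a * R) / m ^ 2) * |c - c'| := by
    rw [f2, abs_mul, abs_of_pos hp, abs_mul]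
    have h5 := mul_le_mul s1 b2 (abs_nonneg _) (by positivity)
    have := mul_le_mul_of_nonneg_left h5 hp.le
    refine this.trans (le_of_eq ?_)
    ring
  have k1 : |chi1 R τ| ≤ 6 := by
    refine (chi1_bd hR (abs_le.2 hτ)).trans ?_
    rw [div_le_iff₀ hR1]
    linarith
  have k2 : |chi2 R τ| ≤ 30 := by
    refine (chi2_bd hR (abs_le.2 hτ)).trans ?_
    rw [div_le_iff₀ hR1]
    linarith
  have e : dn a R τ t - dn a R τ t' = 2 * chi1 R τ * (gIs a 0 τ t - gIs a 0 τ t')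
      + chi2 R τ * (gI a 0 τ t - gI a 0 τ t') := by
    unfold dn
    ring
  rw [e]
  refine (abs_add_le _ _).trans ?_
  rw [abs_mul, abs_mul, abs_mul, abs_of_pos (show (0 : ℝ) < 2 by norm_num)]
  have w1 := mul_le_mul k1 g2 (abs_nonneg _) (by norm_num)
  have w2 := mul_le_mul k2 g1 (abs_nonneg _) (by norm_num)
  have w3 : (12 * ((4 * π)⁻¹ * (a * cosh (a * R) / m ^ 2)) + 30 * ((4 * π)⁻¹ * (1 / m))) * |c - c'|
      ≤ (12 * ((4 * π)⁻¹ * (a * cosh (a * R) / m ^ 2)) + 30 * ((4 * π)⁻¹ * (1 / m)))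
        * (a * |t - t'|) := mul_le_mul_of_nonneg_left hc (by positivity)
  linarith

/-- comparison of the kernels -/
theorem gI_cmp {a δ ε τ t t0 t1 : ℝ} (ha : 0 < a) (hε : 0 < ε) (hτ : τ ≠ 0) (hδ : |t1 - t0| ≤ δ) :
    gI a ε τ (t - t0) - gI a ε τ (t - t1) ≤ hd a δ τ := by
  have hc := keri_cosh_gt a ha hτ
  have hδ0 : 0 ≤ δ := (abs_nonneg _).trans hδ
  have h1 : |cos (a * (t - t1)) - cos (a * (t - t0))| ≤ a * δ := by
    have := cos_lip (a * (t - t1)) (a * (t - t0))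
    have e : a * (t - t1) - a * (t - t0) = -(a * (t1 - t0)) := by ring
    rw [e, abs_neg, abs_mul, abs_of_pos ha] at this
    exact this.trans (mul_le_mul_of_nonneg_left hδ ha.le)
  unfold gI hd
  obtain ⟨c0, h0⟩ : ∃ c, c = cos (a * (t - t0)) := ⟨_, rfl⟩
  obtain ⟨c1, h2⟩ : ∃ c, c = cos (a * (t - t1)) := ⟨_, rfl⟩
  obtain ⟨C, hC⟩ : ∃ C, C = cosh (a * τ) := ⟨_, rfl⟩
  have l1 : c1 ≤ 1 := by rw [h2]; exact cos_le_one _
  have l0 : c0 ≤ 1 := by rw [h0]; exact cos_le_one _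
  rw [← h0, ← h2] at h1
  rw [← h0, ← h2, ← hC]
  rw [← hC] at hc
  have p0 : 0 < C - c0 + ε := by linarith
  have p1 : 0 < C - c1 + ε := by linarith
  have p2 : 0 < C - 1 := by linarith
  have p3 : 0 ≤ a * δ / (C - 1) := by positivity
  have key : C - c0 + ε ≤ (C - c1 + ε) * (1 + a * δ / (C - 1)) := by
    have q1 : (C - 1) * (a * δ / (C - 1)) = a * δ := by
      field_simp
    have q2 : (C - 1) * (a * δ / (C - 1)) ≤ (C - c1 + ε) * (a * δ / (C - 1)) :=
      mul_le_mul_of_nonneg_right (by linarith) p3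
    have q3 := (abs_le.1 h1).2
    linarith
  have h3 := log_le_log p0 key
  rw [log_mul p1.ne' (by linarith)] at h3
  have hp : 0 < (4 * π)⁻¹ := by positivity
  have h4 : (4 * π)⁻¹ * (log (C - c0 + ε) - log (C - c1 + ε))
      ≤ (4 * π)⁻¹ * log (1 + a * δ / (C - 1)) := mul_le_mul_of_nonneg_left (by linarith) hp.le
  linarith

end Pool.Agent.MMR
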