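import Pool.Agent.MMR.NearB

/-!
# MMR, module NearC: the pointwise comparison of two near points
-/

set_option autoImplicit false

namespace Pool.Agent.MMR

open Real MeasureTheory Set Filter Topology Pool.Agent.MML

/-- the kernel part for the point `(s0, t0)` -/
theorem kerPart_eq {l R : ℝ} (hl : 0 < l) (hR : 2 ≤ R) {U : ℝ → ℝ → ℝ}
    (hU : Continuous (fun q : ℝ × ℝ => U q.1 q.2)) (hper : ∀ s t, U s (t + 2 * l) = U s t)
    (s0 t0 : ℝ) :
    kerPart R l l (fun τ => -kI (π / l) τ) (fun τ => -kI (π / l) τ) (gI (π / l) 0)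
      (gIs (π / l) 0) (symW s0 t0 U)
    = ∫ τ in (-R)..R, (chi R τ * (-kI (π / l) τ * mN l U (s0 + τ))
      + ∫ t in (-l)..l, dn (π / l) R τ (t - t0) * U (s0 + τ) t) := by
  have ha : 0 < π / l := by positivity
  have hal : π / l * l = π := by field_simp
  unfold kerPart
  refine intervalIntegral.integral_congr fun τ _ => ?_
  have hF : Continuous (U (s0 + τ)) := slc hU (s0 + τ)
  have hFp : Function.Periodic (U (s0 + τ)) (2 * l) := fun t => hper _ t
  have e1 : ∫ t in (0 : ℝ)..l, symW s0 t0 U τ t = mN l U (s0 + τ) := by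
    have h := sym_full (l := l) (g := fun _ => 1) continuous_const hF (fun _ => rfl)
      (fun _ => rfl) hFp t0
    simp only [one_mul] at h
    exact h
  have e2 : ∫ t in (0 : ℝ)..l, (2 * chi1 R τ * gIs (π / l) 0 τ t + chi2 R τ * gI (π / l) 0 τ t)
      * symW s0 t0 U τ t = ∫ t in (-l)..l, dn (π / l) R τ (t - t0) * U (s0 + τ) t := by
    exact sym_full (l := l) (g := dn (π / l) R τ) (slc (dn_cont ha hR) τ) hF (dn_neg _ _ _)
      (dn_per hal R τ) hFp t0
  simp only [intervalIntegral.integral_same, mul_zero, add_zero]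
  rw [e1, e2]

theorem near_pt {l R : ℝ} (hl : 0 < l) (hR : 2 ≤ R) : ∃ K, 0 ≤ K ∧ ∀ δ, 0 ≤ δ → π / l * δ ≤ 2 →
    ∀ (U Us Uss Ut Utt : ℝ → ℝ → ℝ), SH l U Us Uss Ut Utt → ∀ s0 t0 t1 : ℝ, |t1 - t0| ≤ δ →
      U s0 t0 - U s0 t1 ≤
        (∫ τ in (-R)..R, chi R τ * hd (π / l) δ τ * mN l (fun s t => Uss s t + Utt s t) (s0 + τ))
        + K * δ * ∫ τ in (-R)..R, mN l (fun s t => |U s t|) (s0 + τ) := by
  have ha : 0 < π / l := by positivity
  have hal : π / l * l = π := by field_simp
  have hb : π / (π / l) = l := by field_simp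
  obtain ⟨K, hK, hlip⟩ := dn_lip ha hR
  refine ⟨K, hK, fun δ hδ hδ2 U Us Uss Ut Utt hU s0 t0 t1 ht => ?_⟩
  obtain ⟨K0, hk⟩ := kerI (π / l) R ha hR
  rw [hb] at hk
  obtain ⟨cc0, -, -⟩ := chi_cont hR
  have hUc := hU.c2.c0
  have hL : Continuous (fun q : ℝ × ℝ => Uss q.1 q.2 + Utt q.1 q.2) := hU.c2.css.add hU.c2.ctt
  have cadd : Continuous (fun q : ℝ × ℝ => (s0 + q.1, q.2)) := by fun_prop
  have hL' : Continuous (fun q : ℝ × ℝ => Uss (s0 + q.1) q.2 + Utt (s0 + q.1) q.2) := hL.comp cadd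
  have hU' : Continuous (fun q : ℝ × ℝ => U (s0 + q.1) q.2) := hUc.comp cadd
  have hLn : Continuous (mN l (fun s t => Uss s t + Utt s t)) := mN_cont hL
  have hUn : Continuous (mN l U) := mN_cont hUc
  have hAn : Continuous (mN l (fun s t => |U s t|)) := mN_cont hUc.abs
  have hRR : -R ≤ R := by linarith
  -- the limit for one point
  have lim : ∀ tt : ℝ, Tendsto (fun ε : ℝ => ∫ τ in (-R)..R, chi R τ *
      ∫ t in (-l)..l, gI (π / l) ε τ (t - tt) * (Uss (s0 + τ) t + Utt (s0 + τ) t)) (𝓝[>] 0)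
      (𝓝 (U s0 tt + ∫ τ in (-R)..R, (chi R τ * (-kI (π / l) τ * mN l U (s0 + τ))
      + ∫ t in (-l)..l, dn (π / l) R τ (t - tt) * U (s0 + τ) t))) := by
    intro tt
    have h := kl_rhs hk (symW_C2 hU.c2 s0 tt)
    rw [kerPart_eq hl hR hUc hU.per] at h
    have e0 : symW s0 tt U 0 0 / 2 = U s0 tt := by
      unfold symW
      simp only [add_zero, sub_zero]
      ring
    rw [e0] at h
    refine h.congr' ?_
    have hev : ∀ᶠ ε : ℝ in 𝓝[>] 0, ε ∈ Ioc (0 : ℝ) 1 := Ioc_mem_nhdsGT (by norm_num)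
    filter_upwards [hev] with ε hε
    have z : (∫ τ in (-R)..R, chi R τ * gI (π / l) ε τ 0 * mixW s0 tt Ut τ 0) = 0 := by
      have : ∀ τ, mixW s0 tt Ut τ 0 = 0 := by
        intro τ
        unfold mixW
        simp
      simp only [this, mul_zero, intervalIntegral.integral_zero]
    rw [z, add_zero]
    refine intervalIntegral.integral_congr fun τ _ => ?_
    have hF : Continuous (fun t => Uss (s0 + τ) t + Utt (s0 + τ) t) :=
      slc (F := fun s t => Uss s t + Utt s t) hL (s0 + τ)
    have hFp : Function.Periodic (fun t => Uss (s0 + τ) t + Utt (s0 + τ) t) (2 * l) := by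
      intro t
      obtain ⟨-, h2, -, h4⟩ := SH_per hU (s0 + τ) t
      simp only [h2, h4]
    have hg : Continuous (gI (π / l) ε τ) := by
      unfold gI
      refine continuous_const.mul (Continuous.sub (Continuous.log (by fun_prop) fun t => ?_)
        continuous_const)
      exact (keri_D_pos (π / l) hε.1).ne'
    have h1 := sym_full (l := l) hg hF (gI_neg _ _ _) (gI_per hal ε τ) hFp tt
    rw [← h1]
    congr 1
    refine intervalIntegral.integral_congr fun t _ => ?_
    simp only [symW]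
    ring
  have hlim := (lim t1).sub (lim t0)
  -- the difference of the kernel parts
  have cD : ∀ tt : ℝ, Continuous (fun τ => ∫ t in (-l)..l, dn (π / l) R τ (t - tt) * U (s0 + τ) t) := by
    intro tt
    have h1 : Continuous (fun q : ℝ × ℝ => dn (π / l) R q.1 (q.2 - tt)) :=
      (dn_cont ha hR).comp (by fun_prop : Continuous fun q : ℝ × ℝ => (q.1, q.2 - tt))
    exact intervalIntegral.continuous_parametric_intervalIntegral_of_continuous'
      (f := fun τ t => dn (π / l) R τ (t - tt) * U (s0 + τ) t) (h1.mul hU') _ _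
  have hkI : Continuous (fun τ => chi R τ * (-kI (π / l) τ * mN l U (s0 + τ))) := by
    have := kI_cont (π / l)
    fun_prop
  have i1 : ∀ tt : ℝ, IntervalIntegrable (fun τ => chi R τ * (-kI (π / l) τ * mN l U (s0 + τ))
      + ∫ t in (-l)..l, dn (π / l) R τ (t - tt) * U (s0 + τ) t) volume (-R) R := fun tt =>
    (hkI.add (cD tt)).intervalIntegrable _ _
  have part : (∫ τ in (-R)..R, (chi R τ * (-kI (π / l) τ * mN l U (s0 + τ))
      + ∫ t in (-l)..l, dn (π / l) R τ (t - t1) * U (s0 + τ) t))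
      - (∫ τ in (-R)..R, (chi R τ * (-kI (π / l) τ * mN l U (s0 + τ))
      + ∫ t in (-l)..l, dn (π / l) R τ (t - t0) * U (s0 + τ) t))
      ≤ K * δ * ∫ τ in (-R)..R, mN l (fun s t => |U s t|) (s0 + τ) := by
    rw [← intervalIntegral.integral_sub (i1 t1) (i1 t0), ← intervalIntegral.integral_const_mul]
    refine intervalIntegral.integral_mono_on hRR ((i1 t1).sub (i1 t0))
      (Continuous.intervalIntegrable (by fun_prop) _ _) (fun τ hτ => ?_)
    have hs1 : Continuous (fun t => dn (π / l) R τ (t - t1) * U (s0 + τ) t) :=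
      ((slc (dn_cont ha hR) τ).comp (by fun_prop : Continuous fun t : ℝ => t - t1)).mul
        (slc hUc (s0 + τ))
    have hs0 : Continuous (fun t => dn (π / l) R τ (t - t0) * U (s0 + τ) t) :=
      ((slc (dn_cont ha hR) τ).comp (by fun_prop : Continuous fun t : ℝ => t - t0)).mul
        (slc hUc (s0 + τ))
    have e : chi R τ * (-kI (π / l) τ * mN l U (s0 + τ))
        + (∫ t in (-l)..l, dn (π / l) R τ (t - t1) * U (s0 + τ) t)
        - (chi R τ * (-kI (π / l) τ * mN l U (s0 + τ))
        + ∫ t in (-l)..l, dn (π / l) R τ (t - t0) * U (s0 + τ) t)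
        = ∫ t in (-l)..l, (dn (π / l) R τ (t - t1) * U (s0 + τ) t
          - dn (π / l) R τ (t - t0) * U (s0 + τ) t) := by
      rw [intervalIntegral.integral_sub (hs1.intervalIntegrable _ _) (hs0.intervalIntegrable _ _)]
      ring
    rw [e]
    unfold mN
    rw [← intervalIntegral.integral_const_mul]
    refine intervalIntegral.integral_mono_on (by linarith) ((hs1.sub hs0).intervalIntegrable _ _)
      ((continuous_const.mul (slc hUc (s0 + τ)).abs).intervalIntegrable _ _) (fun t _ => ?_)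
    have q1 := hlip τ hτ (t - t1) (t - t0)
    have q2 : |t - t1 - (t - t0)| ≤ δ := by
      have : t - t1 - (t - t0) = -(t1 - t0) := by ring
      rw [this, abs_neg]
      exact ht
    have q3 : |dn (π / l) R τ (t - t1) - dn (π / l) R τ (t - t0)| ≤ K * δ :=
      q1.trans (mul_le_mul_of_nonneg_left q2 hK)
    have q4 : (dn (π / l) R τ (t - t1) - dn (π / l) R τ (t - t0)) * U (s0 + τ) t
        ≤ K * δ * |U (s0 + τ) t| := by
      refine (le_abs_self _).trans ?_
      rw [abs_mul]
      exact mul_le_mul_of_nonneg_right q3 (abs_nonneg _)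
    linarith
  -- the Riesz mass
  have hhd : IntervalIntegrable (fun τ => chi R τ * hd (π / l) δ τ
      * mN l (fun s t => Uss s t + Utt s t) (s0 + τ)) volume (-R) R := by
    refine ((hd_int ha hδ hδ2 (-R) R).continuousOn_mul cc0.continuousOn).mul_continuousOn ?_
    exact Continuous.continuousOn (by fun_prop)
  have cg : ∀ ε ∈ Ioc (0 : ℝ) 1, ∀ tt : ℝ, Continuous (fun q : ℝ × ℝ =>
      gI (π / l) ε q.1 (q.2 - tt) * (Uss (s0 + q.1) q.2 + Utt (s0 + q.1) q.2)) := by
    intro ε hε tt
    refine Continuous.mul ?_ hL'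
    unfold gI
    refine continuous_const.mul (Continuous.sub (Continuous.log (by fun_prop) fun t => ?_)
      (Continuous.log (by fun_prop) fun t => ?_))
    · exact (keri_D_pos (π / l) hε.1).ne'
    · exact (keri_D1_pos (π / l) hε.1.le).ne'
  have key : -(∫ τ in (-R)..R, chi R τ * hd (π / l) δ τ
      * mN l (fun s t => Uss s t + Utt s t) (s0 + τ)) ≤
      (U s0 t1 + ∫ τ in (-R)..R, (chi R τ * (-kI (π / l) τ * mN l U (s0 + τ))
      + ∫ t in (-l)..l, dn (π / l) R τ (t - t1) * U (s0 + τ) t))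
      - (U s0 t0 + ∫ τ in (-R)..R, (chi R τ * (-kI (π / l) τ * mN l U (s0 + τ))
      + ∫ t in (-l)..l, dn (π / l) R τ (t - t0) * U (s0 + τ) t)) := by
    refine ge_of_tendsto hlim ?_
    have hev : ∀ᶠ ε : ℝ in 𝓝[>] 0, ε ∈ Ioc (0 : ℝ) 1 := Ioc_mem_nhdsGT (by norm_num)
    filter_upwards [hev] with ε hε
    have cpar : ∀ tt : ℝ, Continuous (fun τ => chi R τ * ∫ t in (-l)..l,
        gI (π / l) ε τ (t - tt) * (Uss (s0 + τ) t + Utt (s0 + τ) t)) := by
      intro tt
      refine cc0.mul ?_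
      exact intervalIntegral.continuous_parametric_intervalIntegral_of_continuous'
        (f := fun τ t => gI (π / l) ε τ (t - tt) * (Uss (s0 + τ) t + Utt (s0 + τ) t))
        (cg ε hε tt) _ _
    rw [← intervalIntegral.integral_sub ((cpar t1).intervalIntegrable _ _)
      ((cpar t0).intervalIntegrable _ _), ← intervalIntegral.integral_neg]
    refine intervalIntegral.integral_mono_ae_restrict hRR hhd.neg
      (((cpar t1).sub (cpar t0)).intervalIntegrable _ _) ?_
    rw [EventuallyLE, ae_restrict_iff' measurableSet_Icc]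
    have hne : ∀ᵐ τ : ℝ, τ ≠ 0 := by
      rw [ae_iff]
      simp
    filter_upwards [hne] with τ hτ0 hτ
    have habs : |τ| ≤ R := abs_le.2 hτ
    obtain ⟨p1, _⟩ := chi_mem hR habs
    have hs1 : Continuous (fun t => gI (π / l) ε τ (t - t1)
        * (Uss (s0 + τ) t + Utt (s0 + τ) t)) := slc
        (F := fun τ t => gI (π / l) ε τ (t - t1) * (Uss (s0 + τ) t + Utt (s0 + τ) t)) (cg ε hε t1) τ
    have hs0 : Continuous (fun t => gI (π / l) ε τ (t - t0)
        * (Uss (s0 + τ) t + Utt (s0 + τ) t)) := slc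
        (F := fun τ t => gI (π / l) ε τ (t - t0) * (Uss (s0 + τ) t + Utt (s0 + τ) t)) (cg ε hε t0) τ
    have hsL : Continuous (fun t => Uss (s0 + τ) t + Utt (s0 + τ) t) :=
      slc (F := fun s t => Uss s t + Utt s t) hL (s0 + τ)
    rw [← mul_sub, ← intervalIntegral.integral_sub (hs1.intervalIntegrable _ _)
      (hs0.intervalIntegrable _ _), mul_assoc, ← mul_neg]
    refine mul_le_mul_of_nonneg_left ?_ p1
    unfold mN
    rw [← intervalIntegral.integral_const_mul, ← intervalIntegral.integral_neg]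
    refine intervalIntegral.integral_mono_on (by linarith)
      ((continuous_const.mul hsL).neg.intervalIntegrable _ _)
      ((hs1.sub hs0).intervalIntegrable _ _) (fun t _ => ?_)
    have q1 := gI_cmp (t := t) ha hε.1 hτ0 ht
    have q2 := mul_le_mul_of_nonneg_right q1 (hU.sub (s0 + τ) t)
    nlinarith [q2]
  linarith

end Pool.Agent.MMR
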