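import Pool.Agent.MML.Mean
import Pool.Agent.MMR.HC

/-!
# MMR, module Piece: weighted integrals over a piece, and the inequality for one piece
-/

set_option autoImplicit false

namespace Pool.Agent.MMR

open Real MeasureTheory Set Filter Topology Pool.Agent.MML

theorem slc {F : ℝ → ℝ → ℝ} (hF : Continuous (fun q : ℝ × ℝ => F q.1 q.2)) (x : ℝ) :
    Continuous (F x) :=
  hF.comp (continuous_const.prodMk continuous_id)

/-- the integral of `ψ F(x, ·)` over `[a, c]` -/
noncomputable def wi (a c : ℝ) (ψ : ℝ → ℝ) (F : ℝ → ℝ → ℝ) (x : ℝ) : ℝ := ∫ s in a..c, ψ s * F x s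

theorem wi_deriv {a c : ℝ} {ψ : ℝ → ℝ} (hψ : Continuous ψ) {F Fx : ℝ → ℝ → ℝ}
    (hF : Continuous (fun q : ℝ × ℝ => F q.1 q.2)) (hFx : Continuous (fun q : ℝ × ℝ => Fx q.1 q.2))
    (hd : ∀ x s, HasDerivAt (fun y => F y s) (Fx x s) x) (x : ℝ) :
    HasDerivAt (wi a c ψ F) (wi a c ψ Fx x) x := by
  have hc : Continuous (fun q : ℝ × ℝ => ψ q.2 * Fx q.1 q.2) := by fun_prop
  obtain ⟨C, hC⟩ := ((isCompact_Icc (a := x - 1) (b := x + 1)).prod
    (isCompact_uIcc (a := a) (b := c))).exists_bound_of_continuousOn hc.continuousOn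
  have key := intervalIntegral.hasDerivAt_integral_of_dominated_loc_of_deriv_le
    (μ := volume) (F := fun x s => ψ s * F x s) (F' := fun x s => ψ s * Fx x s) (x₀ := x) (a := a)
    (b := c) (s := Icc (x - 1) (x + 1))
    (bound := fun _ => C)
    (Icc_mem_nhds (by linarith) (by linarith))
    (Eventually.of_forall fun y => (hψ.mul (slc hF y)).aestronglyMeasurable)
    ((hψ.mul (slc hF x)).intervalIntegrable _ _)
    (hψ.mul (slc hFx x)).aestronglyMeasurable
    (Eventually.of_forall fun t ht y hy => hC (y, t) ⟨hy, uIoc_subset_uIcc ht⟩)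
    intervalIntegrable_const
    (Eventually.of_forall fun t _ y _ => (hd y t).const_mul (ψ t))
  exact key.2

theorem wi_cont {a c : ℝ} {ψ : ℝ → ℝ} (hψ : Continuous ψ) {F : ℝ → ℝ → ℝ}
    (hF : Continuous (fun q : ℝ × ℝ => F q.1 q.2)) : Continuous (wi a c ψ F) := by
  have hc : Continuous (fun q : ℝ × ℝ => ψ q.2 * F q.1 q.2) := by fun_prop
  exact intervalIntegral.continuous_parametric_intervalIntegral_of_continuous'
    (f := fun x s => ψ s * F x s) hc a c

/-- the boundary term -/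
noncomputable def bd (p r : ℝ) (ψ ψ1 h hx hs : ℝ → ℝ) (s : ℝ) : ℝ :=
  2 * p * (ψ s * hx s) - (1 + p ^ 2) * (ψ s * hs s - ψ1 s * h s) + r * (ψ s * h s)

/-- the inequality for one piece -/
theorem piece {a c p r : ℝ} (hac : a ≤ c) {ψ ψ1 ψ2 h hs hss hx hxs hxx : ℝ → ℝ}
    (d1 : ∀ s, HasDerivAt ψ (ψ1 s) s) (d2 : ∀ s, HasDerivAt ψ1 (ψ2 s) s) (cψ : Continuous ψ2)
    (e1 : ∀ s, HasDerivAt h (hs s) s) (e2 : ∀ s, HasDerivAt hs (hss s) s)
    (e3 : ∀ s, HasDerivAt hx (hxs s) s) (c1 : Continuous hss) (c2 : Continuous hxs)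
    (c3 : Continuous hxx) (h0 : ∀ s ∈ Icc a c, 0 ≤ ψ s)
    (hsub : ∀ s, 0 ≤ hxx s - 2 * p * hxs s + (1 + p ^ 2) * hss s - r * hs s) :
    bd p r ψ ψ1 h hx hs c - bd p r ψ ψ1 h hx hs a ≤
      (∫ s in a..c, ψ s * hxx s) + 2 * p * (∫ s in a..c, ψ1 s * hx s)
        + (1 + p ^ 2) * (∫ s in a..c, ψ2 s * h s) + r * (∫ s in a..c, ψ1 s * h s) := by
  have k0 : Continuous ψ := continuous_iff_continuousAt.2 fun x => (d1 x).continuousAt
  have k1 : Continuous ψ1 := continuous_iff_continuousAt.2 fun x => (d2 x).continuousAt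
  have k2 : Continuous h := continuous_iff_continuousAt.2 fun x => (e1 x).continuousAt
  have k3 : Continuous hs := continuous_iff_continuousAt.2 fun x => (e2 x).continuousAt
  have k4 : Continuous hx := continuous_iff_continuousAt.2 fun x => (e3 x).continuousAt
  have hd : ∀ s ∈ uIcc a c, HasDerivAt (bd p r ψ ψ1 h hx hs)
      (2 * p * (ψ1 s * hx s + ψ s * hxs s) - (1 + p ^ 2) * ((ψ1 s * hs s + ψ s * hss s)
        - (ψ2 s * h s + ψ1 s * hs s)) + r * (ψ1 s * h s + ψ s * hs s)) s := by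
    intro s _
    unfold bd
    exact ((((d1 s).mul (e3 s)).const_mul (2 * p)).sub
      ((((d1 s).mul (e2 s)).sub ((d2 s).mul (e1 s))).const_mul (1 + p ^ 2))).add
      (((d1 s).mul (e1 s)).const_mul r)
  have i0 : Continuous fun s => 2 * p * (ψ1 s * hx s + ψ s * hxs s)
      - (1 + p ^ 2) * ((ψ1 s * hs s + ψ s * hss s)
        - (ψ2 s * h s + ψ1 s * hs s)) + r * (ψ1 s * h s + ψ s * hs s) := by fun_prop
  have hint := intervalIntegral.integral_eq_sub_of_hasDerivAt hd (i0.intervalIntegrable _ _)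
  rw [← hint]
  have j1 : IntervalIntegrable (fun s => ψ s * hxx s) volume a c :=
    (k0.mul c3).intervalIntegrable _ _
  have j2 : IntervalIntegrable (fun s => 2 * p * (ψ1 s * hx s)) volume a c :=
    (continuous_const.mul (k1.mul k4)).intervalIntegrable _ _
  have j3 : IntervalIntegrable (fun s => (1 + p ^ 2) * (ψ2 s * h s)) volume a c :=
    (continuous_const.mul (cψ.mul k2)).intervalIntegrable _ _
  have j4 : IntervalIntegrable (fun s => r * (ψ1 s * h s)) volume a c :=
    (continuous_const.mul (k1.mul k2)).intervalIntegrable _ _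
  rw [← intervalIntegral.integral_const_mul, ← intervalIntegral.integral_const_mul,
    ← intervalIntegral.integral_const_mul, ← intervalIntegral.integral_add j1 j2,
    ← intervalIntegral.integral_add (j1.add j2) j3,
    ← intervalIntegral.integral_add ((j1.add j2).add j3) j4]
  refine intervalIntegral.integral_mono_on hac (i0.intervalIntegrable _ _)
    (((j1.add j2).add j3).add j4) (fun s hs' => ?_)
  have m := mul_nonneg (h0 s hs') (hsub s)
  nlinarith [m]

/-- the integral of a nonnegative periodic function over a part of a period -/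
theorem part_le {l : ℝ} {F : ℝ → ℝ → ℝ} (hF : Continuous (fun q : ℝ × ℝ => F q.1 q.2))
    (hper : ∀ s t, F s (t + 2 * l) = F s t) (h0 : ∀ s t, 0 ≤ F s t) {a c : ℝ} (hac : a ≤ c)
    (hb : c - a ≤ 2 * l) (x y : ℝ) :
    ∫ s in a..c, F x (s + y) ≤ mN l F x := by
  have hfp : Function.Periodic (F x) (2 * l) := fun t => hper x t
  have hfc := slc hF x
  rw [intervalIntegral.integral_comp_add_right (F x) y]
  have h1 := hfp.intervalIntegral_add_eq (-l) (a + y)
  rw [show -l + 2 * l = l by ring] at h1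
  unfold mN
  rw [h1]
  exact intervalIntegral.integral_mono_interval le_rfl (by linarith) (by linarith)
    (Eventually.of_forall fun t => h0 x t) (hfc.intervalIntegrable _ _)

end Pool.Agent.MMR
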