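import Pool.Agent.MMR.Diff
import Pool.Agent.MML.EtaB
import Pool.Agent.MML.GrowB

/-!
# MMR, module Win: the window inequality for a path
-/

set_option autoImplicit false

namespace Pool.Agent.MMR

open Real MeasureTheory Set Filter Topology Pool.Agent.MML

/-- the integral of a function bounded on a unit interval -/
theorem unit_int {h : ℝ → ℝ} {x B : ℝ} (_hh : Continuous h) (hB : ∀ y ∈ Icc x (x + 1), |h y| ≤ B) :
    |∫ y in x..(x + 1), h y| ≤ B := by
  have h1 := intervalIntegral.norm_integral_le_of_norm_le_const (a := x) (b := x + 1) (f := h)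
    (C := B) (fun y hy => by
      rw [uIoc_of_le (by linarith)] at hy
      rw [Real.norm_eq_abs]
      exact hB y ⟨hy.1.le, hy.2⟩)
  rw [Real.norm_eq_abs] at h1
  have h2 : |x + 1 - x| = 1 := by
    rw [add_sub_cancel_left, abs_one]
  rw [h2, mul_one] at h1
  exact h1

/-- the mean of `E` over a unit interval -/
theorem avgE {E W Wx V p P : ℝ → ℝ} {K B x : ℝ} (hK : 0 ≤ K) (_hB : 0 ≤ B)
    (hE : ∀ y, E y = exp (-y) * (Wx y + 2 * p y * V y + W y)) (hW : ∀ y, HasDerivAt W (Wx y) y)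
    (cWx : Continuous Wx) (cV : Continuous V) (cp : Continuous p)
    (hP : Monotone P) (h1 : ∀ y ∈ Icc x (x + 1), |W y| ≤ 2 * K * P y)
    (h2 : ∀ y ∈ Icc x (x + 1), |V y| ≤ 2 * K * P y) (h3 : ∀ y ∈ Icc x (x + 1), |p y| ≤ B) :
    |∫ y in x..(x + 1), E y| ≤ 4 * K * (2 + B) * (exp (-x) * P (x + 1)) := by
  have cW : Continuous W := continuous_iff_continuousAt.2 fun y => (hW y).continuousAt
  have e1 : ∫ y in x..(x + 1), exp (-y) * (Wx y - W y)
      = exp (-(x + 1)) * W (x + 1) - exp (-x) * W x := by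
    refine intervalIntegral.integral_eq_sub_of_hasDerivAt (f := fun y => exp (-y) * W y)
      (fun y _ => ?_) (Continuous.intervalIntegrable (by fun_prop) _ _)
    have h4 : HasDerivAt (fun y : ℝ => exp (-y)) (-exp (-y)) y := by
      have := (hasDerivAt_neg y).exp
      simpa using this
    refine (h4.mul (hW y)).congr_deriv ?_
    ring
  have e2 : ∫ y in x..(x + 1), E y = (∫ y in x..(x + 1), exp (-y) * (Wx y - W y))
      + ∫ y in x..(x + 1), exp (-y) * (2 * W y + 2 * p y * V y) := by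
    rw [← intervalIntegral.integral_add (Continuous.intervalIntegrable (by fun_prop) _ _)
      (Continuous.intervalIntegrable (by fun_prop) _ _)]
    congr 1
    funext y
    rw [hE]
    ring
  have hx0 := exp_pos (-x)
  have b1 : ∀ y ∈ Icc x (x + 1), |exp (-y) * (2 * W y + 2 * p y * V y)|
      ≤ exp (-x) * (2 * (2 * K * P (x + 1)) + 2 * B * (2 * K * P (x + 1))) := by
    intro y hy
    have g1 : exp (-y) ≤ exp (-x) := exp_le_exp.2 (by linarith [hy.1])
    have g2 := hP hy.2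
    have g3 : 2 * K * P y ≤ 2 * K * P (x + 1) := mul_le_mul_of_nonneg_left g2 (by linarith)
    have g4 := (h1 y hy).trans g3
    have g5 := (h2 y hy).trans g3
    have g6 := h3 y hy
    have g7 : |2 * W y + 2 * p y * V y| ≤ 2 * (2 * K * P (x + 1)) + 2 * B * (2 * K * P (x + 1)) := by
      refine (abs_add_le _ _).trans ?_
      rw [abs_mul, abs_mul, abs_mul, abs_of_pos (show (0 : ℝ) < 2 by norm_num)]
      have g8 : |p y| * |V y| ≤ B * (2 * K * P (x + 1)) :=
        mul_le_mul g6 g5 (abs_nonneg _) (le_trans (abs_nonneg _) g6)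
      nlinarith
    rw [abs_mul, abs_of_pos (exp_pos _)]
    exact mul_le_mul g1 g7 (abs_nonneg _) hx0.le
  have b2 := unit_int (h := fun y => exp (-y) * (2 * W y + 2 * p y * V y)) (x := x) (by fun_prop) b1
  have b3 : |exp (-(x + 1)) * W (x + 1)| ≤ exp (-x) * (2 * K * P (x + 1)) := by
    rw [abs_mul, abs_of_pos (exp_pos _)]
    have g1 : exp (-(x + 1)) ≤ exp (-x) := exp_le_exp.2 (by linarith)
    exact mul_le_mul g1 (h1 (x + 1) ⟨by linarith, le_rfl⟩) (abs_nonneg _) hx0.le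
  have b4 : |exp (-x) * W x| ≤ exp (-x) * (2 * K * P (x + 1)) := by
    rw [abs_mul, abs_of_pos (exp_pos _)]
    have g2 := hP (show x ≤ x + 1 by linarith)
    have g3 : 2 * K * P x ≤ 2 * K * P (x + 1) := mul_le_mul_of_nonneg_left g2 (by linarith)
    exact mul_le_mul_of_nonneg_left ((h1 x ⟨le_rfl, by linarith⟩).trans g3) hx0.le
  rw [e2, e1]
  have b5 := abs_add_le (exp (-(x + 1)) * W (x + 1) - exp (-x) * W x)
    (∫ y in x..(x + 1), exp (-y) * (2 * W y + 2 * p y * V y))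
  have b6 := abs_sub (exp (-(x + 1)) * W (x + 1)) (exp (-x) * W x)
  nlinarith

/-- the mean of the absolute value -/
theorem mN_abs_le {l : ℝ} (hl : 0 < l) {U U1 : ℝ → ℝ → ℝ} (hU : Continuous (fun q : ℝ × ℝ => U q.1 q.2))
    (hU1 : Continuous (fun q : ℝ × ℝ => U1 q.1 q.2))
    (h0 : ∀ s t, 0 ≤ U1 s t) (hle : ∀ s t, U s t ≤ U1 s t) (x : ℝ) :
    mN l (fun x t => |U x t|) x ≤ 2 * mN l U1 x - mN l U x := by
  unfold mN
  have c0 := slc hU x
  have c1 := slc hU1 x
  have i1 : IntervalIntegrable (fun t => 2 * U1 x t) volume (-l) l :=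
    (continuous_const.mul c1).intervalIntegrable _ _
  have i0 : IntervalIntegrable (fun t => U x t) volume (-l) l := c0.intervalIntegrable _ _
  rw [← intervalIntegral.integral_const_mul, ← intervalIntegral.integral_sub i1 i0]
  refine intervalIntegral.integral_mono_on (by linarith) (c0.abs.intervalIntegrable _ _)
    (i1.sub i0) (fun t _ => ?_)
  have g0 := h0 x t
  have g1 := hle x t
  rw [abs_le]
  constructor <;> linarith

/-- the window inequality for a path -/
def WindowP (f : ℂ → ℂ) (μ : ℝ) (φ : ℝ → ℝ) (c' κ0 C C0 s1 : ℝ) : Prop :=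
  ∀ η ∈ Ioc (0 : ℝ) 1, ∀ (Y : ℝ → ℝ) (α β : ℝ), s1 ≤ α → α ≤ β → Continuous Y →
    (∀ s, α ≤ s → Y s ≤ -(Ue f μ η s (φ s))) → (∀ s, -1 ≤ Y s) →
    (∀ s, Y s ≤ c' * mN (π * μ) (Ue f μ 1) s) →
    ∫ s in α..β, exp (-s) * Y s ≤
      κ0 * (∫ s in α..β, exp (-s) * (mN (π * μ) (Ue f μ 1) s + C0))
      + C * (exp (-α) * (mN (π * μ) (Ue f μ 1) (α + 1) + C0)
        + exp (-β) * (mN (π * μ) (Ue f μ 1) (β + 1) + C0))

theorem winP {f : ℂ → ℂ} (hf : Differentiable ℂ f) (hne : ∃ z, f z ≠ 0) {μ : ℝ} (hμ : 0 < μ)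
    {b κ : ℝ} {a : ℕ → ℝ} {g g1 g2 : ℕ → ℝ → ℝ} (Ct : Cert b κ (π * μ) a g g1 g2)
    {φ φ1 φ2 : ℝ → ℝ} (hφ : ∀ x, HasDerivAt φ (φ1 x) x) (hφ1 : ∀ x, HasDerivAt φ1 (φ2 x) x)
    (c2 : Continuous φ2) (t1 : Tendsto φ1 atTop (𝓝 b)) (t2 : Tendsto φ2 atTop (𝓝 0))
    {c' ε : ℝ} (hc : 0 < c') (hε : 0 < ε) :
    ∃ C C0 s1 : ℝ, 0 ≤ C ∧ 1 ≤ C0 ∧ WindowP f μ φ c' (κ + ε) C C0 s1 := by
  obtain ⟨C0, sa, hC0, hlow⟩ := mN_Ue_lower hf hne hμ
  obtain ⟨K, hK, hgK⟩ := Ct.bound
  have cφ : Continuous φ := continuous_iff_continuousAt.2 fun x => (hφ x).continuousAt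
  have cφ1 : Continuous φ1 := continuous_iff_continuousAt.2 fun x => (hφ1 x).continuousAt
  have hl : 0 < π * μ := mul_pos pi_pos hμ
  have hω : (0 : ℝ) < 1 + b ^ 2 := by positivity
  -- the errors
  have te : Tendsto (fun x => 2 * K * (|φ1 x ^ 2 - b ^ 2| + 2 * |φ1 x - b| + |φ2 x|)) atTop (𝓝 0) := by
    have h1 : Tendsto (fun x => |φ1 x ^ 2 - b ^ 2|) atTop (𝓝 |b ^ 2 - b ^ 2|) :=
      ((t1.pow 2).sub_const _).abs
    have h2 : Tendsto (fun x => |φ1 x - b|) atTop (𝓝 |b - b|) := (t1.sub_const _).abs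
    have h3 := t2.abs
    have h4 := ((h1.add (h2.const_mul 2)).add h3).const_mul (2 * K)
    simpa using h4
  have tc : Tendsto (fun x => |(1 + φ1 x ^ 2) / (1 + b ^ 2) - 1| * (c' + 1)) atTop (𝓝 0) := by
    have h1 : Tendsto (fun x => (1 + φ1 x ^ 2) / (1 + b ^ 2)) atTop (𝓝 ((1 + b ^ 2) / (1 + b ^ 2))) :=
      ((t1.pow 2).const_add 1).div_const _
    rw [div_self hω.ne'] at h1
    have h2 := ((h1.sub_const 1).abs).mul_const (c' + 1)
    simpa using h2
  have tb : ∀ᶠ x in atTop, |φ1 x| ≤ |b| + 1 := by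
    have h1 := t1.abs
    filter_upwards [h1.eventually_le_const (show |b| < |b| + 1 by linarith)] with x hx using hx
  obtain ⟨sb, hsb⟩ := Filter.eventually_atTop.1 ((te.eventually_le_const (half_pos hε)).and
    ((tc.eventually_le_const (half_pos hε)).and tb))
  obtain ⟨M, hM⟩ : ∃ M : ℝ → ℝ, M = mN (π * μ) (Ue f μ 1) := ⟨_, rfl⟩
  obtain ⟨D0, hD0⟩ : ∃ D0 : ℝ, D0 = max C0 1 := ⟨_, rfl⟩
  have hD1 : 1 ≤ D0 := by rw [hD0]; exact le_max_right _ _
  have hDC : C0 ≤ D0 := by rw [hD0]; exact le_max_left _ _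
  have hMm : Monotone M := by rw [hM]; exact mN_Ue_mono hf hμ one_pos
  obtain ⟨vss, vt, vtt, hS1⟩ := SH_eta hf hμ (η := 1) one_pos
  have cM : Continuous M := by rw [hM]; exact mN_cont hS1.c2.c0
  have hM0 : ∀ s, 0 ≤ M s := by
    intro s
    rw [hM]
    unfold mN
    exact intervalIntegral.integral_nonneg (by linarith) fun t _ => Ue_one_nonneg s t
  obtain ⟨P, hP⟩ : ∃ P : ℝ → ℝ, P = fun s => M s + D0 := ⟨_, rfl⟩
  have hPv : ∀ s, P s = M s + D0 := fun s => by rw [hP]
  have hPm : Monotone P := fun x y hxy => by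
    rw [hPv, hPv]
    linarith [hMm hxy]
  have cP : Continuous P := by rw [hP]; fun_prop
  have hP1 : ∀ s, 1 ≤ P s := fun s => by rw [hPv]; linarith [hM0 s]
  have hP0 : ∀ s, 0 ≤ P s := fun s => by linarith [hP1 s]
  have hκ := Ct.hk
  refine ⟨4 * K * (2 + (|b| + 1)) + c' + (1 + κ + ε), D0, max sa sb, by positivity, hD1, ?_⟩
  intro η hη Y α β hα hαβ cY hYU hY1 hYM
  rw [← hM] at hYM ⊢
  obtain ⟨uss, ut, utt, hS⟩ := SH_eta hf hμ hη.1
  obtain ⟨Hx, Hxx, Hs, Hss, Hxs, hH⟩ := HP_eta hf (μ := μ) hη.1 hφ hφ1 c2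
  have hUle : ∀ s t, Ue f μ η s t ≤ Ue f μ 1 s t := fun s t => Ue_mono hη.1 hη.2 s t
  have hαa : sa ≤ α := (le_max_left _ _).trans hα
  have hαb : sb ≤ α := (le_max_right _ _).trans hα
  -- bounds
  have hA : ∀ x, α ≤ x → mN (π * μ) (fun x t => |Ue f μ η x t|) x ≤ 2 * P x := by
    intro x hx
    have h1 := mN_abs_le hl hS.c2.c0 hS1.c2.c0 (fun s t => Ue_one_nonneg s t) hUle x
    have h2 := hlow η hη x (by linarith)
    rw [← hM] at h1
    rw [hPv]
    linarith
  obtain ⟨W, hW⟩ : ∃ W : ℝ → ℝ, W = sm a g (fun x s => Ue f μ η x (s + φ x)) := ⟨_, rfl⟩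
  obtain ⟨Wx, hWx⟩ : ∃ W : ℝ → ℝ, W = sm a g Hx := ⟨_, rfl⟩
  obtain ⟨V, hV⟩ : ∃ W : ℝ → ℝ, W = sm a g1 (fun x s => Ue f μ η x (s + φ x)) := ⟨_, rfl⟩
  have cWx : Continuous Wx := by rw [hWx]; exact sm_cont Ct.cf hH.cx
  have cV : Continuous V := by rw [hV]; exact sm_cont Ct.cf1 hH.c0
  have dW : ∀ x, HasDerivAt W (Wx x) x := by
    rw [hW, hWx]
    exact sm_deriv Ct.cf hH.c0 hH.cx hH.dx
  have bW : ∀ x, α ≤ x → |W x| ≤ 2 * K * P x := by
    intro x hx
    have h1 := sm_abs hK Ct.cf (fun i hi s hs => (hgK i hi s hs).1) hS.c2.c0 hS.per Ct.ha Ct.hl cφ x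
    have h2 := mul_le_mul_of_nonneg_left (hA x hx) hK
    rw [hW]
    linarith
  have bV : ∀ x, α ≤ x → |V x| ≤ 2 * K * P x := by
    intro x hx
    have h1 := sm_abs hK Ct.cf1 (fun i hi s hs => (hgK i hi s hs).2.1) hS.c2.c0 hS.per Ct.ha Ct.hl
      cφ x
    have h2 := mul_le_mul_of_nonneg_left (hA x hx) hK
    rw [hV]
    linarith
  obtain ⟨E, hE⟩ : ∃ E : ℝ → ℝ, E = EE a g g1 φ1 (fun x s => Ue f μ η x (s + φ x)) Hx := ⟨_, rfl⟩
  have hEv : ∀ y, E y = exp (-y) * (Wx y + 2 * φ1 y * V y + W y) := by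
    intro y
    rw [hE, hWx, hV, hW]
    rfl
  have cW : Continuous W := continuous_iff_continuousAt.2 fun y => (dW y).continuousAt
  have cE : Continuous E := by
    have : E = fun y => exp (-y) * (Wx y + 2 * φ1 y * V y + W y) := funext hEv
    rw [this]
    fun_prop
  obtain ⟨E1, hE1⟩ : ∃ E1 : ℝ → ℝ, E1 = fun x => exp (-x) * (sm a g Hxx x + 2 * φ1 x * sm a g1 Hx x
      + 2 * φ2 x * sm a g1 (fun x s => Ue f μ η x (s + φ x)) x
      - 2 * φ1 x * sm a g1 (fun x s => Ue f μ η x (s + φ x)) x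
      - sm a g (fun x s => Ue f μ η x (s + φ x)) x) := ⟨_, rfl⟩
  have dE : ∀ x, HasDerivAt E (E1 x) x := by
    intro x
    rw [hE, hE1]
    exact EE_deriv Ct hφ1 hH x
  have cE1 : Continuous E1 := by
    rw [hE1]
    have k1 := sm_cont (a := a) Ct.cf hH.cxx
    have k2 := sm_cont (a := a) Ct.cf1 hH.cx
    have k3 := sm_cont (a := a) Ct.cf1 (F := fun x s => Ue f μ η x (s + φ x)) hH.c0
    have k4 := sm_cont (a := a) Ct.cf (F := fun x s => Ue f μ η x (s + φ x)) hH.c0
    fun_prop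
  -- the differential inequality
  have key : ∀ x, α ≤ x → exp (-x) * (Y x - (κ + ε) * P x) ≤ E1 x := by
    intro x hx
    have h1 := EE_ineq Ct hK hgK cφ hS.c2.c0 hS.per hS1.c2.c0 hS1.per
      (fun s t => Ue_one_nonneg s t) hUle hH x
    rw [hE1]
    refine le_trans ?_ h1
    refine mul_le_mul_of_nonneg_left ?_ (exp_pos _).le
    rw [← hM]
    obtain ⟨f1', f2', f3'⟩ := hsb x (hαb.trans hx)
    have hA' := hA x hx
    have hAn : 0 ≤ mN (π * μ) (fun x t => |Ue f μ η x t|) x := by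
      unfold mN
      exact intervalIntegral.integral_nonneg (by linarith) fun t _ => abs_nonneg _
    obtain ⟨A, hAd⟩ : ∃ A : ℝ, A = mN (π * μ) (fun x t => |Ue f μ η x t|) x := ⟨_, rfl⟩
    rw [← hAd] at hA' hAn ⊢
    obtain ⟨er, her⟩ : ∃ er : ℝ, er = |φ1 x ^ 2 - b ^ 2| + 2 * |φ1 x - b| + |φ2 x| := ⟨_, rfl⟩
    have her0 : 0 ≤ er := by rw [her]; positivity
    rw [← her] at f1' ⊢
    obtain ⟨cf, hcf⟩ : ∃ cf : ℝ, cf = (1 + φ1 x ^ 2) / (1 + b ^ 2) := ⟨_, rfl⟩
    have hcf0 : 0 ≤ cf := by rw [hcf]; positivity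
    rw [← hcf] at f2' ⊢
    have g1' : er * (K * A) ≤ ε / 2 * P x := by
      have m1 : er * (K * A) ≤ er * (K * (2 * P x)) :=
        mul_le_mul_of_nonneg_left (mul_le_mul_of_nonneg_left hA' hK) her0
      have m2 := mul_le_mul_of_nonneg_right f1' (hP0 x)
      linarith
    have hU' := hYU x hx
    have g2' : cf * Y x ≤ -(cf * Ue f μ η x (φ x)) := by
      have := mul_le_mul_of_nonneg_left hU' hcf0
      linarith
    have hYabs : |Y x| ≤ (c' + 1) * P x := by
      have m1 := hY1 x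
      have m2 := hYM x
      have m3 := hP1 x
      have m4 := hM0 x
      have m5 := hPv x
      rw [abs_le]
      constructor
      · nlinarith
      · nlinarith
    have g3' : Y x - ε / 2 * P x ≤ cf * Y x := by
      have m1 : -(|cf - 1| * |Y x|) ≤ (cf - 1) * Y x := by
        have := neg_abs_le ((cf - 1) * Y x)
        rw [abs_mul] at this
        exact this
      have m2 : |cf - 1| * |Y x| ≤ |cf - 1| * ((c' + 1) * P x) :=
        mul_le_mul_of_nonneg_left hYabs (abs_nonneg _)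
      have m3 := mul_le_mul_of_nonneg_right f2' (hP0 x)
      nlinarith
    have g4' : κ * M x ≤ κ * P x := by
      refine mul_le_mul_of_nonneg_left ?_ hκ.le
      rw [hPv]
      linarith
    linarith
  obtain ⟨R, hR⟩ : ∃ R : ℝ → ℝ, R = fun x => exp (-x) * (Y x - (κ + ε) * P x) := ⟨_, rfl⟩
  have cR : Continuous R := by rw [hR]; fun_prop
  have hRle : ∀ x, R x ≤ exp (-x) * (c' * P x) := by
    intro x
    rw [hR]
    refine mul_le_mul_of_nonneg_left ?_ (exp_pos _).le
    have m2 := hYM x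
    have m3 : c' * M x ≤ c' * P x := by
      refine mul_le_mul_of_nonneg_left ?_ hc.le
      rw [hPv]
      linarith
    have m4 : 0 ≤ (κ + ε) * P x := mul_nonneg (by linarith) (hP0 x)
    linarith
  have hRge : ∀ x, -(exp (-x) * ((1 + κ + ε) * P x)) ≤ R x := by
    intro x
    rw [hR]
    have m1 := hY1 x
    have m2 := hP1 x
    have m3 : -((1 + κ + ε) * P x) ≤ Y x - (κ + ε) * P x := by nlinarith
    have := mul_le_mul_of_nonneg_left m3 (exp_pos (-x)).le
    linarith
  have hint : ∀ x y, α ≤ x → x ≤ y → ∫ s in x..y, R s ≤ E y - E x := by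
    intro x y hx hxy
    rw [← intervalIntegral.integral_eq_sub_of_hasDerivAt (fun s _ => dE s)
      (cE1.intervalIntegrable x y)]
    refine intervalIntegral.integral_mono_on hxy (cR.intervalIntegrable _ _)
      (cE1.intervalIntegrable _ _) (fun s hs => ?_)
    rw [hR]
    exact key s (hx.trans hs.1)
  obtain ⟨k0, hk0⟩ : ∃ k0 : ℝ, k0 = (∫ s in α..β, R s) - c' * (exp (-α) * P (α + 1))
      - (1 + κ + ε) * (exp (-β) * P (β + 1)) := ⟨_, rfl⟩
  have hu : ∀ u ∈ Icc (0 : ℝ) 1, k0 ≤ E (β + u) - E (α + u) := by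
    intro u hu
    have h1 := hint (α + u) (β + u) (by linarith [hu.1]) (by linarith)
    have h2 : ∫ s in (α + u)..(β + u), R s
        = (∫ s in α..β, R s) - (∫ s in α..(α + u), R s) + ∫ s in β..(β + u), R s := by
      have i1 := intervalIntegral.integral_add_adjacent_intervals
        (cR.intervalIntegrable (μ := volume) α (α + u)) (cR.intervalIntegrable (μ := volume) (α + u) (β + u))
      have i2 := intervalIntegral.integral_add_adjacent_intervals
        (cR.intervalIntegrable (μ := volume) α β) (cR.intervalIntegrable (μ := volume) β (β + u))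
      linarith
    have h3 : ∫ s in α..(α + u), R s ≤ c' * (exp (-α) * P (α + 1)) := by
      have i1 : ∫ s in α..(α + u), R s ≤ ∫ s in α..(α + u), c' * (exp (-α) * P (α + 1)) := by
        refine intervalIntegral.integral_mono_on (by linarith [hu.1]) (cR.intervalIntegrable _ _)
          intervalIntegrable_const (fun s hs => ?_)
        have j1 : exp (-s) ≤ exp (-α) := exp_le_exp.2 (by linarith [hs.1])
        have j2 : P s ≤ P (α + 1) := hPm (by linarith [hs.2, hu.2])
        have j3 : exp (-s) * P s ≤ exp (-α) * P (α + 1) :=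
          mul_le_mul j1 j2 (hP0 s) (exp_pos _).le
        have j4 := mul_le_mul_of_nonneg_left j3 hc.le
        have j5 := hRle s
        linarith
      rw [intervalIntegral.integral_const, smul_eq_mul, add_sub_cancel_left] at i1
      have i2 : 0 ≤ c' * (exp (-α) * P (α + 1)) :=
        mul_nonneg hc.le (mul_nonneg (exp_pos _).le (hP0 _))
      nlinarith [hu.1, hu.2]
    have h4 : -((1 + κ + ε) * (exp (-β) * P (β + 1))) ≤ ∫ s in β..(β + u), R s := by
      have i1 : ∫ s in β..(β + u), -((1 + κ + ε) * (exp (-β) * P (β + 1)))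
          ≤ ∫ s in β..(β + u), R s := by
        refine intervalIntegral.integral_mono_on (by linarith [hu.1])
          intervalIntegrable_const (cR.intervalIntegrable _ _) (fun s hs => ?_)
        have j1 : exp (-s) ≤ exp (-β) := exp_le_exp.2 (by linarith [hs.1])
        have j2 : P s ≤ P (β + 1) := hPm (by linarith [hs.2, hu.2])
        have j3 : exp (-s) * P s ≤ exp (-β) * P (β + 1) :=
          mul_le_mul j1 j2 (hP0 s) (exp_pos _).le
        have j4 := mul_le_mul_of_nonneg_left j3 (show 0 ≤ 1 + κ + ε by linarith)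
        have j5 := hRge s
        linarith
      rw [intervalIntegral.integral_const, smul_eq_mul, add_sub_cancel_left] at i1
      have i2 : 0 ≤ (1 + κ + ε) * (exp (-β) * P (β + 1)) :=
        mul_nonneg (by linarith) (mul_nonneg (exp_pos _).le (hP0 _))
      nlinarith [hu.1, hu.2]
    rw [hk0]
    linarith
  have hk : k0 ≤ (∫ s in β..(β + 1), E s) - ∫ s in α..(α + 1), E s := by
    have i0 : ∫ u in (0 : ℝ)..1, k0 ≤ ∫ u in (0 : ℝ)..1, (E (β + u) - E (α + u)) := by
      refine intervalIntegral.integral_mono_on (by norm_num) intervalIntegrable_const ?_ hu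
      exact Continuous.intervalIntegrable (by fun_prop) _ _
    rw [intervalIntegral.integral_const, smul_eq_mul, sub_zero, one_mul,
      intervalIntegral.integral_sub (Continuous.intervalIntegrable (by fun_prop) _ _)
        (Continuous.intervalIntegrable (by fun_prop) _ _),
      intervalIntegral.integral_comp_add_left E β, intervalIntegral.integral_comp_add_left E α,
      add_zero, add_zero] at i0
    exact i0
  have aE : ∀ x, α ≤ x → |∫ y in x..(x + 1), E y| ≤
      4 * K * (2 + (|b| + 1)) * (exp (-x) * P (x + 1)) := by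
    intro x hx
    refine avgE hK (by positivity) hEv dW cWx cV cφ1 hPm (fun y hy => bW y (hx.trans hy.1))
      (fun y hy => bV y (hx.trans hy.1)) (fun y hy => ?_)
    exact (hsb y (hαb.trans (hx.trans hy.1))).2.2
  have q1 := (abs_le.1 (aE β hαβ)).2
  have q2 := (abs_le.1 (aE α le_rfl)).1
  have hRs : ∫ s in α..β, R s = (∫ s in α..β, exp (-s) * Y s)
      - (κ + ε) * ∫ s in α..β, exp (-s) * P s := by
    rw [← intervalIntegral.integral_const_mul, ← intervalIntegral.integral_sub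
      (Continuous.intervalIntegrable (by fun_prop) _ _)
      (Continuous.intervalIntegrable (by fun_prop) _ _)]
    congr 1
    funext s
    rw [hR]
    ring
  have hPe : (∫ s in α..β, exp (-s) * (M s + D0)) = ∫ s in α..β, exp (-s) * P s := by
    congr 1
    funext s
    rw [hPv]
  rw [hPe, ← hPv, ← hPv]
  have z1 : 0 ≤ exp (-α) * P (α + 1) := mul_nonneg (exp_pos _).le (hP0 _)
  have z2 : 0 ≤ exp (-β) * P (β + 1) := mul_nonneg (exp_pos _).le (hP0 _)
  have z3 : 0 ≤ (1 + κ + ε) * (exp (-α) * P (α + 1)) := mul_nonneg (by linarith) z1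
  have z4 : 0 ≤ c' * (exp (-β) * P (β + 1)) := mul_nonneg hc.le z2
  rw [hk0, hRs] at hk
  nlinarith

end Pool.Agent.MMR
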