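import Pool.Agent.MMR.Win
import Pool.Agent.MMR.NearC
import Pool.Agent.MML.Avg

/-!
# MMR, module WinX: the window inequality for minima in a thin neighbourhood of a path
-/

set_option autoImplicit false

namespace Pool.Agent.MMR

open Real MeasureTheory Set Filter Topology Pool.Agent.MML

theorem X_bound {R c ε : ℝ} (hR : 2 ≤ R) (hc : 0 ≤ c) (hε : 0 ≤ ε) {k1 : ℝ → ℝ}
    (i1 : IntervalIntegrable k1 volume (-R) R) (n1 : ∀ τ ∈ Icc (-R) R, 0 ≤ k1 τ)
    (e1 : ∫ τ in (-R)..R, exp (1 * τ) * k1 τ ≤ ε)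
    (e2 : ∫ τ in (-R)..R, exp (1 * τ) * c ≤ ε) :
    ∃ C1 : ℝ, 0 ≤ C1 ∧ ∀ (P N N1 N2 : ℝ → ℝ) (s1 α β : ℝ), Monotone P → Continuous P →
      (∀ s, 0 ≤ P s) → (∀ s, HasDerivAt N (N1 s) s) → (∀ s, HasDerivAt N1 (N2 s) s) →
      Continuous N2 → (∀ s, 0 ≤ N2 s) → (∀ s, 0 ≤ N1 s) → (∀ s, s1 ≤ s → |N s| ≤ P s) →
      s1 + R ≤ α → α ≤ β →
      IntervalIntegrable (fun s => exp (-1 * s) * ((∫ τ in (-R)..R, k1 τ * N2 (s + τ))
        + ∫ τ in (-R)..R, c * P (s + τ))) volume α β ∧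
      ∫ s in α..β, exp (-1 * s) * ((∫ τ in (-R)..R, k1 τ * N2 (s + τ))
        + ∫ τ in (-R)..R, c * P (s + τ)) ≤
        2 * ε * (∫ s in α..β, exp (-1 * s) * P s)
        + C1 * (exp (-1 * α) * P (α + R + 1) + exp (-1 * β) * P (β + R + 1)) := by
  have hRR : -R ≤ R := by linarith
  have hR0 : 0 < R := by linarith
  refine ⟨ε * ((1 : ℝ) ^ 2 * (R * exp (1 * R)) + (2 + 1) * exp (1 * R)) + ε * (R * exp (1 * R)),
    by positivity, ?_⟩
  intro P N N1 N2 s1 α β hPm hPc hP0 hN hN1 hN2c hN20 hN10 hNP hα hab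
  have hNc : Continuous N := continuous_iff_continuousAt.2 fun s => (hN s).continuousAt
  have i2 : IntervalIntegrable (fun _ : ℝ => c) volume (-R) R := intervalIntegrable_const
  obtain ⟨j1, f1⟩ := avg_fub (ρ := 1) hR0 hab i1 hN2c
  obtain ⟨j2, f2⟩ := avg_fub (ρ := 1) hR0 hab i2 hPc
  have hsum : (fun s => exp (-1 * s) * ((∫ τ in (-R)..R, k1 τ * N2 (s + τ))
        + ∫ τ in (-R)..R, c * P (s + τ))) = fun s => exp (-1 * s) * (∫ τ in (-R)..R, k1 τ * N2 (s + τ))
        + exp (-1 * s) * ∫ τ in (-R)..R, c * P (s + τ) := by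
    funext s
    ring
  refine ⟨by rw [hsum]; exact j1.add j2, ?_⟩
  rw [hsum, intervalIntegral.integral_add j1 j2, f1, f2]
  set E := exp (-1 * α) * P (α + R + 1) + exp (-1 * β) * P (β + R + 1) with hE
  have hE0 : 0 ≤ E := add_nonneg (mul_nonneg (exp_pos _).le (hP0 _)) (mul_nonneg (exp_pos _).le (hP0 _))
  set J := ∫ s in α..β, exp (-1 * s) * P s with hJ
  have hJ0 : 0 ≤ J := intervalIntegral.integral_nonneg hab fun s _ =>
    mul_nonneg (exp_pos _).le (hP0 s)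
  have hNJ : ∫ s in α..β, exp (-1 * s) * N s ≤ J := by
    refine intervalIntegral.integral_mono_on hab (Continuous.intervalIntegrable (by fun_prop) _ _)
      (Continuous.intervalIntegrable (by fun_prop) _ _) (fun s hs => ?_)
    have h1 := (abs_le.1 (hNP s (by linarith [hs.1]))).2
    exact mul_le_mul_of_nonneg_left h1 (exp_pos _).le
  have hcexp : Continuous fun τ : ℝ => exp (1 * τ) := by fun_prop
  have ie : ∀ k : ℝ → ℝ, IntervalIntegrable k volume (-R) R →
      IntervalIntegrable (fun τ => exp (1 * τ) * k τ) volume (-R) R := fun k hk =>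
    hk.continuousOn_mul hcexp.continuousOn
  have ie2 : ∀ k F : ℝ → ℝ, IntervalIntegrable k volume (-R) R → Continuous F →
      IntervalIntegrable (fun τ => exp (1 * τ) * k τ *
        ∫ x in (α + τ)..(β + τ), exp (-1 * x) * F x) volume (-R) R := fun k F hk hF =>
    (ie k hk).mul_continuousOn (avg_cont2 hF α β).continuousOn
  have b1 : ∫ τ in (-R)..R, exp (1 * τ) * k1 τ * ∫ x in (α + τ)..(β + τ), exp (-1 * x) * N2 x ≤
      ε * (J + ((1 : ℝ) ^ 2 * (R * exp (1 * R)) + (2 + 1) * exp (1 * R)) * E) := by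
    have h1 : ∫ τ in (-R)..R, exp (1 * τ) * k1 τ * ∫ x in (α + τ)..(β + τ), exp (-1 * x) * N2 x ≤
        ∫ τ in (-R)..R, exp (1 * τ) * k1 τ *
          (J + ((1 : ℝ) ^ 2 * (R * exp (1 * R)) + (2 + 1) * exp (1 * R)) * E) := by
      apply intervalIntegral.integral_mono_on hRR (ie2 k1 N2 i1 hN2c) ((ie k1 i1).mul_const _)
      intro τ hτ
      apply mul_le_mul_of_nonneg_left _ (mul_nonneg (exp_pos _).le (n1 τ hτ))
      have h2 := avg_parts (ρ := 1) one_pos hPm hP0 hN hN1 hN2c hN20 hN10 hNP hα hab hτ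
      rw [one_pow, one_mul] at h2
      rw [one_pow]
      linarith
    rw [intervalIntegral.integral_mul_const] at h1
    refine h1.trans (mul_le_mul_of_nonneg_right e1 ?_)
    have : 0 ≤ ((1 : ℝ) ^ 2 * (R * exp (1 * R)) + (2 + 1) * exp (1 * R)) * E :=
      mul_nonneg (by positivity) hE0
    linarith
  have b2 : ∫ τ in (-R)..R, exp (1 * τ) * c * ∫ x in (α + τ)..(β + τ), exp (-1 * x) * P x ≤
      ε * (J + R * exp (1 * R) * E) := by
    have h1 : ∫ τ in (-R)..R, exp (1 * τ) * c * ∫ x in (α + τ)..(β + τ), exp (-1 * x) * P x ≤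
        ∫ τ in (-R)..R, exp (1 * τ) * c * (J + R * exp (1 * R) * E) := by
      apply intervalIntegral.integral_mono_on hRR (ie2 _ P i2 hPc) ((ie _ i2).mul_const _)
      intro τ hτ
      apply mul_le_mul_of_nonneg_left _ (mul_nonneg (exp_pos _).le hc)
      have h2 := (abs_le.1 (avg_shift (ρ := 1) (s1 := s1) one_pos hPm hP0 hPc
        (fun s _ => (abs_of_nonneg (hP0 s)).le) hα hab hτ)).2
      linarith
    rw [intervalIntegral.integral_mul_const] at h1
    refine h1.trans (mul_le_mul_of_nonneg_right e2 ?_)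
    have : 0 ≤ R * exp (1 * R) * E := mul_nonneg (by positivity) hE0
    linarith
  refine (add_le_add b1 b2).trans (le_of_eq ?_)
  ring

/-- the window inequality for minima within `δ0` of a path -/
def WindowX (f : ℂ → ℂ) (μ : ℝ) (φ : ℝ → ℝ) (δ0 c' κ0 C C0 s1 : ℝ) : Prop :=
  ∀ η ∈ Ioc (0 : ℝ) 1, ∀ (Y : ℝ → ℝ) (α β : ℝ), s1 ≤ α → α ≤ β → Continuous Y →
    (∀ s, α ≤ s → ∃ t, |t - φ s| ≤ δ0 ∧ Y s ≤ -(Ue f μ η s t)) → (∀ s, -1 ≤ Y s) →
    (∀ s, Y s ≤ c' * mN (π * μ) (Ue f μ 1) s) →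
    ∫ s in α..β, exp (-s) * Y s ≤
      κ0 * (∫ s in α..β, exp (-s) * (mN (π * μ) (Ue f μ 1) s + C0))
      + C * (exp (-α) * (mN (π * μ) (Ue f μ 1) (α + 4) + C0)
        + exp (-β) * (mN (π * μ) (Ue f μ 1) (β + 4) + C0))

theorem winX {μ : ℝ} (hμ : 0 < μ) {ε : ℝ} (hε : 0 < ε) : ∃ δ0 : ℝ, 0 < δ0 ∧
    ∀ (f : ℂ → ℂ), Differentiable ℂ f → (∃ z, f z ≠ 0) →
    ∀ (b κ : ℝ) (a : ℕ → ℝ) (g g1 g2 : ℕ → ℝ → ℝ), Cert b κ (π * μ) a g g1 g2 →
    ∀ (φ φ1 φ2 : ℝ → ℝ), (∀ x, HasDerivAt φ (φ1 x) x) → (∀ x, HasDerivAt φ1 (φ2 x) x) →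
    Continuous φ2 → Tendsto φ1 atTop (𝓝 b) → Tendsto φ2 atTop (𝓝 0) →
    ∀ c' : ℝ, 0 < c' → ∃ C C0 s1 : ℝ, 0 ≤ C ∧ 1 ≤ C0 ∧ WindowX f μ φ δ0 c' (κ + ε) C C0 s1 := by
  have hl : 0 < π * μ := mul_pos pi_pos hμ
  have hR2 : (2 : ℝ) ≤ 2 := le_rfl
  have ha : 0 < π / (π * μ) := by positivity
  obtain ⟨e0, he0⟩ : ∃ e0, e0 = ε / 8 := ⟨_, rfl⟩
  have he0' : 0 < e0 := by rw [he0]; positivity
  obtain ⟨K1, hK1, hnear⟩ := near_pt hl hR2
  obtain ⟨δa, hδa, hsm⟩ := hd_small ha hR2 he0'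
  obtain ⟨I0, hI0⟩ : ∃ I0 : ℝ, I0 = ∫ τ in (-2 : ℝ)..2, exp (1 * τ) := ⟨_, rfl⟩
  have hI0' : 0 ≤ I0 := by
    rw [hI0]
    exact intervalIntegral.integral_nonneg (by norm_num) fun τ _ => (exp_pos _).le
  obtain ⟨δ0, hδ0⟩ : ∃ δ0, δ0 = min δa (e0 / (2 * K1 * I0 + 1)) := ⟨_, rfl⟩
  have hδ0p : 0 < δ0 := by rw [hδ0]; exact lt_min hδa (by positivity)
  have hδ0a : δ0 ≤ δa := by rw [hδ0]; exact min_le_left _ _
  have hδ0b : δ0 * (2 * K1 * I0 + 1) ≤ e0 := by
    have h1 : δ0 ≤ e0 / (2 * K1 * I0 + 1) := by rw [hδ0]; exact min_le_right _ _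
    exact (le_div_iff₀ (by positivity)).1 h1
  obtain ⟨hδ2, hkint⟩ := hsm δ0 hδ0p.le hδ0a
  obtain ⟨cc0, -, -⟩ := chi_cont hR2
  obtain ⟨k1, hk1⟩ : ∃ k1 : ℝ → ℝ, k1 = fun τ => chi 2 τ * hd (π / (π * μ)) δ0 τ := ⟨_, rfl⟩
  have ik1 : IntervalIntegrable k1 volume (-2) 2 := by
    rw [hk1]
    exact (hd_int ha hδ0p.le hδ2 (-2) 2).continuousOn_mul cc0.continuousOn
  have nk1 : ∀ τ ∈ Icc (-2 : ℝ) 2, 0 ≤ k1 τ := by
    intro τ hτ
    rw [hk1]
    exact mul_nonneg (chi_mem hR2 (abs_le.2 hτ)).1 (hd_nonneg ha hδ0p.le τ)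
  have ek1 : ∫ τ in (-2 : ℝ)..2, exp (1 * τ) * k1 τ ≤ e0 := by
    rw [hk1]
    exact hkint
  obtain ⟨cc, hcc⟩ : ∃ cc, cc = 2 * K1 * δ0 := ⟨_, rfl⟩
  have hcc0 : 0 ≤ cc := by rw [hcc]; positivity
  have ek2 : ∫ τ in (-2 : ℝ)..2, exp (1 * τ) * cc ≤ e0 := by
    rw [intervalIntegral.integral_mul_const, ← hI0, hcc]
    have h1 : I0 * (2 * K1 * δ0) = δ0 * (2 * K1 * I0 + 1) - δ0 := by ring
    linarith only [h1, hδ0b, hδ0p]
  obtain ⟨C1, hC1, hXb⟩ := X_bound hR2 hcc0 he0'.le ik1 nk1 ek1 ek2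
  refine ⟨δ0, hδ0p, ?_⟩
  intro f hf hne b κ a g g1 g2 Ct φ φ1 φ2 hφ hφ1 c2 t1 t2 c' hc
  obtain ⟨C0, sa, hC0, hlow⟩ := mN_Ue_lower hf hne hμ
  obtain ⟨K, hK, hgK⟩ := Ct.bound
  have cφ : Continuous φ := continuous_iff_continuousAt.2 fun x => (hφ x).continuousAt
  have cφ1 : Continuous φ1 := continuous_iff_continuousAt.2 fun x => (hφ1 x).continuousAt
  have hω : (0 : ℝ) < 1 + b ^ 2 := by positivity
  -- the errors
  have te : Tendsto (fun x => 2 * K * (|φ1 x ^ 2 - b ^ 2| + 2 * |φ1 x - b| + |φ2 x|)) atTop (𝓝 0) := by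
    have h1 : Tendsto (fun x => |φ1 x ^ 2 - b ^ 2|) atTop (𝓝 |b ^ 2 - b ^ 2|) :=
      ((t1.pow 2).sub_const _).abs
    have h2 : Tendsto (fun x => |φ1 x - b|) atTop (𝓝 |b - b|) := (t1.sub_const _).abs
    have h3 := t2.abs
    have h4 := ((h1.add (h2.const_mul 2)).add h3).const_mul (2 * K)
    simpa using h4
  have tc0 : Tendsto (fun x => |(1 + φ1 x ^ 2) / (1 + b ^ 2) - 1|) atTop (𝓝 0) := by
    have h1 : Tendsto (fun x => (1 + φ1 x ^ 2) / (1 + b ^ 2)) atTop (𝓝 ((1 + b ^ 2) / (1 + b ^ 2))) :=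
      ((t1.pow 2).const_add 1).div_const _
    rw [div_self hω.ne'] at h1
    have h2 := (h1.sub_const 1).abs
    simpa using h2
  have tc : Tendsto (fun x => |(1 + φ1 x ^ 2) / (1 + b ^ 2) - 1| * (c' + 1)) atTop (𝓝 0) := by
    have h2 := tc0.mul_const (c' + 1)
    simpa using h2
  have tb : ∀ᶠ x in atTop, |φ1 x| ≤ |b| + 1 := by
    have h1 := t1.abs
    filter_upwards [h1.eventually_le_const (show |b| < |b| + 1 by linarith)] with x hx using hx
  obtain ⟨sb, hsb⟩ := Filter.eventually_atTop.1 ((te.eventually_le_const he0').and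
    ((tc.eventually_le_const he0').and (tb.and (tc0.eventually_le_const one_pos))))
  obtain ⟨M, hM⟩ : ∃ M : ℝ → ℝ, M = mN (π * μ) (Ue f μ 1) := ⟨_, rfl⟩
  obtain ⟨D0, hD0⟩ : ∃ D0 : ℝ, D0 = max C0 1 := ⟨_, rfl⟩
  have hD1 : 1 ≤ D0 := by rw [hD0]; exact le_max_right _ _
  have hDC : C0 ≤ D0 := by rw [hD0]; exact le_max_left _ _
  have hMm : Monotone M := by rw [hM]; exact mN_Ue_mono hf hμ one_pos
  obtain ⟨vss, vt, vtt, hS1⟩ := SH_eta hf hμ (η := 1) one_pos
  have cM : Continuous M := by rw [hM]; exact mN_cont hS1.c2.c0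
  have hM0 : ∀ s, 0 ≤ M s := by
    intro s
    rw [hM]
    unfold mN
    exact intervalIntegral.integral_nonneg (by linarith) fun t _ => Ue_one_nonneg s t
  obtain ⟨P, hP⟩ : ∃ P : ℝ → ℝ, P = fun s => M s + D0 := ⟨_, rfl⟩
  have hPv : ∀ s, P s = M s + D0 := fun s => by rw [hP]
  have hPm : Monotone P := fun x y hxy => by
    rw [hPv, hPv]
    linarith [hMm hxy]
  have cP : Continuous P := by rw [hP]; fun_prop
  have hP1 : ∀ s, 1 ≤ P s := fun s => by rw [hPv]; linarith [hM0 s]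
  have hP0 : ∀ s, 0 ≤ P s := fun s => by linarith [hP1 s]
  have hκ := Ct.hk
  refine ⟨4 * K * (2 + (|b| + 1)) + c' + (1 + κ + ε) + 2 * C1 + ε, D0, max (sa + 2) sb,
    by positivity, hD1, ?_⟩
  intro η hη Y α β hα hαβ cY hYt hY1 hYM
  rw [← hM] at hYM ⊢
  obtain ⟨uss, ut, utt, hS⟩ := SH_eta hf hμ hη.1
  obtain ⟨Hx, Hxx, Hs, Hss, Hxs, hH⟩ := HP_eta hf (μ := μ) hη.1 hφ hφ1 c2
  have hUle : ∀ s t, Ue f μ η s t ≤ Ue f μ 1 s t := fun s t => Ue_mono hη.1 hη.2 s t
  have hαa : sa + 2 ≤ α := (le_max_left _ _).trans hα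
  have hαb : sb ≤ α := (le_max_right _ _).trans hα
  -- bounds
  have hA : ∀ x, sa ≤ x → mN (π * μ) (fun x t => |Ue f μ η x t|) x ≤ 2 * P x := by
    intro x hx
    have h1 := mN_abs_le hl hS.c2.c0 hS1.c2.c0 (fun s t => Ue_one_nonneg s t) hUle x
    have h2 := hlow η hη x hx
    rw [← hM] at h1
    rw [hPv]
    linarith
  obtain ⟨N, hN⟩ : ∃ N : ℝ → ℝ, N = mN (π * μ) (Ue f μ η) := ⟨_, rfl⟩
  obtain ⟨N1, hN1⟩ : ∃ N : ℝ → ℝ, N = mN (π * μ) (UeS f μ η) := ⟨_, rfl⟩
  obtain ⟨N2, hN2⟩ : ∃ N : ℝ → ℝ, N = mN (π * μ) (fun s t => uss s t + utt s t) := ⟨_, rfl⟩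
  have dN : ∀ s, HasDerivAt N (N1 s) s := by
    intro s
    rw [hN, hN1]
    exact mN_deriv hS s
  have dN1 : ∀ s, HasDerivAt N1 (N2 s) s := by
    intro s
    rw [hN1, hN2]
    exact mN_deriv2 hS s
  have cN2 : Continuous N2 := by
    rw [hN2]
    exact mN_cont (hS.c2.css.add hS.c2.ctt)
  have nN2 : ∀ s, 0 ≤ N2 s := by
    intro s
    rw [hN2]
    unfold mN
    exact intervalIntegral.integral_nonneg (by linarith) fun t _ => hS.sub s t
  have nN1 : ∀ s, 0 ≤ N1 s := by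
    intro s
    rw [hN1]
    exact mN_UeS_nonneg hf hμ hη.1 s
  have hNP : ∀ s, sa ≤ s → |N s| ≤ P s := by
    intro s hs
    have h2 := hlow η hη s hs
    have h3 : N s ≤ M s := by
      rw [hN, hM]
      unfold mN
      exact intervalIntegral.integral_mono_on (by linarith) ((slc hS.c2.c0 s).intervalIntegrable _ _)
        ((slc hS1.c2.c0 s).intervalIntegrable _ _) (fun t _ => hUle s t)
    rw [← hN] at h2
    rw [abs_le, hPv]
    have := hM0 s
    constructor <;> linarith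
  obtain ⟨X, hX⟩ : ∃ X : ℝ → ℝ, X = fun s => (∫ τ in (-2 : ℝ)..2, k1 τ * N2 (s + τ))
      + ∫ τ in (-2 : ℝ)..2, cc * P (s + τ) := ⟨_, rfl⟩
  have hX0 : ∀ s, 0 ≤ X s := by
    intro s
    rw [hX]
    refine add_nonneg ?_ ?_
    · exact intervalIntegral.integral_nonneg (by norm_num) fun τ hτ =>
        mul_nonneg (nk1 τ hτ) (nN2 _)
    · exact intervalIntegral.integral_nonneg (by norm_num) fun τ hτ =>
        mul_nonneg hcc0 (hP0 _)
  have hXint : ∀ x y, α ≤ x → x ≤ y →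
      IntervalIntegrable (fun s => exp (-s) * X s) volume x y ∧
      ∫ s in x..y, exp (-s) * X s ≤ 2 * e0 * (∫ s in x..y, exp (-s) * P s)
        + C1 * (exp (-x) * P (x + 3) + exp (-y) * P (y + 3)) := by
    intro x y hx hxy
    have h1 := hXb P N N1 N2 sa x y hPm cP hP0 dN dN1 cN2 nN2 nN1 hNP (by linarith) hxy
    have e1 : ∀ s : ℝ, exp (-1 * s) = exp (-s) := fun s => by rw [neg_one_mul]
    have e2 : ∀ z : ℝ, z + 2 + 1 = z + 3 := fun z => by ring
    simp only [e1, e2] at h1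
    rw [hX]
    exact h1
  have hYU : ∀ s, α ≤ s → Y s ≤ -(Ue f μ η s (φ s)) + X s := by
    intro s hs
    obtain ⟨t, ht, hYt'⟩ := hYt s hs
    have h1 := hnear δ0 hδ0p.le hδ2 _ _ _ _ _ hS s (φ s) t ht
    have h2 : ∫ τ in (-2 : ℝ)..2, mN (π * μ) (fun s t => |Ue f μ η s t|) (s + τ)
        ≤ ∫ τ in (-2 : ℝ)..2, 2 * P (s + τ) := by
      have cA : Continuous (mN (π * μ) (fun s t => |Ue f μ η s t|)) := mN_cont hS.c2.c0.abs
      refine intervalIntegral.integral_mono_on (by norm_num)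
        (Continuous.intervalIntegrable (by fun_prop) _ _)
        (Continuous.intervalIntegrable (by fun_prop) _ _) (fun τ hτ => ?_)
      exact hA _ (by linarith [hτ.1])
    have h3 := mul_le_mul_of_nonneg_left h2 (show 0 ≤ K1 * δ0 by positivity)
    have h4 : K1 * δ0 * ∫ τ in (-2 : ℝ)..2, 2 * P (s + τ) = ∫ τ in (-2 : ℝ)..2, cc * P (s + τ) := by
      rw [← intervalIntegral.integral_const_mul]
      congr 1
      funext τ
      rw [hcc]
      ring
    have h5 : (∫ τ in (-2 : ℝ)..2, chi 2 τ * hd (π / (π * μ)) δ0 τ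
        * mN (π * μ) (fun s t => uss s t + utt s t) (s + τ)) = ∫ τ in (-2 : ℝ)..2, k1 τ * N2 (s + τ) := by
      rw [hk1, hN2]
    rw [h5] at h1
    rw [h4] at h3
    have h6 : X s = (∫ τ in (-2 : ℝ)..2, k1 τ * N2 (s + τ))
      + ∫ τ in (-2 : ℝ)..2, cc * P (s + τ) := by rw [hX]
    rw [h6]
    linarith
  obtain ⟨W, hW⟩ : ∃ W : ℝ → ℝ, W = sm a g (fun x s => Ue f μ η x (s + φ x)) := ⟨_, rfl⟩
  obtain ⟨Wx, hWx⟩ : ∃ W : ℝ → ℝ, W = sm a g Hx := ⟨_, rfl⟩
  obtain ⟨V, hV⟩ : ∃ W : ℝ → ℝ, W = sm a g1 (fun x s => Ue f μ η x (s + φ x)) := ⟨_, rfl⟩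
  have cWx : Continuous Wx := by rw [hWx]; exact sm_cont Ct.cf hH.cx
  have cV : Continuous V := by rw [hV]; exact sm_cont Ct.cf1 hH.c0
  have dW : ∀ x, HasDerivAt W (Wx x) x := by
    rw [hW, hWx]
    exact sm_deriv Ct.cf hH.c0 hH.cx hH.dx
  have bW : ∀ x, α ≤ x → |W x| ≤ 2 * K * P x := by
    intro x hx
    have h1 := sm_abs hK Ct.cf (fun i hi s hs => (hgK i hi s hs).1) hS.c2.c0 hS.per Ct.ha Ct.hl cφ x
    have h2 := mul_le_mul_of_nonneg_left (hA x (by linarith)) hK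
    rw [hW]
    linarith
  have bV : ∀ x, α ≤ x → |V x| ≤ 2 * K * P x := by
    intro x hx
    have h1 := sm_abs hK Ct.cf1 (fun i hi s hs => (hgK i hi s hs).2.1) hS.c2.c0 hS.per Ct.ha Ct.hl
      cφ x
    have h2 := mul_le_mul_of_nonneg_left (hA x (by linarith)) hK
    rw [hV]
    linarith
  obtain ⟨E, hE⟩ : ∃ E : ℝ → ℝ, E = EE a g g1 φ1 (fun x s => Ue f μ η x (s + φ x)) Hx := ⟨_, rfl⟩
  have hEv : ∀ y, E y = exp (-y) * (Wx y + 2 * φ1 y * V y + W y) := by
    intro y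
    rw [hE, hWx, hV, hW]
    rfl
  have cW : Continuous W := continuous_iff_continuousAt.2 fun y => (dW y).continuousAt
  have cE : Continuous E := by
    have : E = fun y => exp (-y) * (Wx y + 2 * φ1 y * V y + W y) := funext hEv
    rw [this]
    fun_prop
  obtain ⟨E1, hE1⟩ : ∃ E1 : ℝ → ℝ, E1 = fun x => exp (-x) * (sm a g Hxx x + 2 * φ1 x * sm a g1 Hx x
      + 2 * φ2 x * sm a g1 (fun x s => Ue f μ η x (s + φ x)) x
      - 2 * φ1 x * sm a g1 (fun x s => Ue f μ η x (s + φ x)) x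
      - sm a g (fun x s => Ue f μ η x (s + φ x)) x) := ⟨_, rfl⟩
  have dE : ∀ x, HasDerivAt E (E1 x) x := by
    intro x
    rw [hE, hE1]
    exact EE_deriv Ct hφ1 hH x
  have cE1 : Continuous E1 := by
    rw [hE1]
    have k1 := sm_cont (a := a) Ct.cf hH.cxx
    have k2 := sm_cont (a := a) Ct.cf1 hH.cx
    have k3 := sm_cont (a := a) Ct.cf1 (F := fun x s => Ue f μ η x (s + φ x)) hH.c0
    have k4 := sm_cont (a := a) Ct.cf (F := fun x s => Ue f μ η x (s + φ x)) hH.c0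
    fun_prop
  -- the differential inequality
  have key : ∀ x, α ≤ x → exp (-x) * (Y x - (κ + 2 * e0) * P x - 2 * X x) ≤ E1 x := by
    intro x hx
    have h1 := EE_ineq Ct hK hgK cφ hS.c2.c0 hS.per hS1.c2.c0 hS1.per
      (fun s t => Ue_one_nonneg s t) hUle hH x
    rw [hE1]
    refine le_trans ?_ h1
    refine mul_le_mul_of_nonneg_left ?_ (exp_pos _).le
    rw [← hM]
    obtain ⟨f1', f2', f3', f4'⟩ := hsb x (hαb.trans hx)
    have hA' := hA x (by linarith)
    have hAn : 0 ≤ mN (π * μ) (fun x t => |Ue f μ η x t|) x := by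
      unfold mN
      exact intervalIntegral.integral_nonneg (by linarith) fun t _ => abs_nonneg _
    obtain ⟨A, hAd⟩ : ∃ A : ℝ, A = mN (π * μ) (fun x t => |Ue f μ η x t|) x := ⟨_, rfl⟩
    rw [← hAd] at hA' hAn ⊢
    obtain ⟨er, her⟩ : ∃ er : ℝ, er = |φ1 x ^ 2 - b ^ 2| + 2 * |φ1 x - b| + |φ2 x| := ⟨_, rfl⟩
    have her0 : 0 ≤ er := by rw [her]; positivity
    rw [← her] at f1' ⊢
    obtain ⟨cf, hcf⟩ : ∃ cf : ℝ, cf = (1 + φ1 x ^ 2) / (1 + b ^ 2) := ⟨_, rfl⟩
    have hcf0 : 0 ≤ cf := by rw [hcf]; positivity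
    rw [← hcf] at f2' f4' ⊢
    have hcf2 : cf ≤ 2 := by linarith [(abs_le.1 f4').2]
    have g1' : er * (K * A) ≤ e0 * P x := by
      have m1 : er * (K * A) ≤ er * (K * (2 * P x)) :=
        mul_le_mul_of_nonneg_left (mul_le_mul_of_nonneg_left hA' hK) her0
      have m2 := mul_le_mul_of_nonneg_right f1' (hP0 x)
      linarith
    have hU' := hYU x hx
    have g2' : cf * Y x - 2 * X x ≤ -(cf * Ue f μ η x (φ x)) := by
      have m1 := mul_le_mul_of_nonneg_left hU' hcf0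
      have m2 := mul_le_mul_of_nonneg_right hcf2 (hX0 x)
      linarith only [m1, m2]
    have hYabs : |Y x| ≤ (c' + 1) * P x := by
      have m1 := hY1 x
      have m2 := hYM x
      have m3 := hP1 x
      have m6 : M x ≤ P x := by rw [hPv]; linarith only [hD1]
      have m7 := mul_le_mul_of_nonneg_left m6 hc.le
      have m8 : 0 ≤ c' * P x := mul_nonneg hc.le (hP0 x)
      rw [abs_le]
      constructor
      · linarith only [m1, m3, m8]
      · linarith only [m2, m7, m3]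
    have g3' : Y x - e0 * P x ≤ cf * Y x := by
      have m1 : -(|cf - 1| * |Y x|) ≤ (cf - 1) * Y x := by
        have := neg_abs_le ((cf - 1) * Y x)
        rw [abs_mul] at this
        exact this
      have m2 : |cf - 1| * |Y x| ≤ |cf - 1| * ((c' + 1) * P x) :=
        mul_le_mul_of_nonneg_left hYabs (abs_nonneg _)
      have m3 := mul_le_mul_of_nonneg_right f2' (hP0 x)
      linarith only [m1, m2, m3]
    have g4' : κ * M x ≤ κ * P x := by
      refine mul_le_mul_of_nonneg_left ?_ hκ.le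
      rw [hPv]
      linarith only [hD1]
    linarith only [g1', g2', g3', g4']
  obtain ⟨R, hR⟩ : ∃ R : ℝ → ℝ, R = fun x => exp (-x) * (Y x - (κ + 2 * e0) * P x) := ⟨_, rfl⟩
  have cR : Continuous R := by rw [hR]; fun_prop
  have hRle : ∀ x, R x ≤ exp (-x) * (c' * P x) := by
    intro x
    rw [hR]
    refine mul_le_mul_of_nonneg_left ?_ (exp_pos _).le
    have m2 := hYM x
    have m3 : c' * M x ≤ c' * P x := by
      refine mul_le_mul_of_nonneg_left ?_ hc.le
      rw [hPv]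
      linarith
    have m4 : 0 ≤ (κ + 2 * e0) * P x := mul_nonneg (by linarith) (hP0 x)
    linarith
  have hRge : ∀ x, -(exp (-x) * ((1 + κ + ε) * P x)) ≤ R x := by
    intro x
    rw [hR]
    have m1 := hY1 x
    have m2 := hP1 x
    have m3 : -((1 + κ + ε) * P x) ≤ Y x - (κ + 2 * e0) * P x := by
      have m4 : 2 * e0 ≤ ε := by rw [he0]; linarith
      have m5 := mul_le_mul_of_nonneg_right m4 (hP0 x)
      linarith
    have := mul_le_mul_of_nonneg_left m3 (exp_pos (-x)).le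
    linarith
  have hint : ∀ x y, α ≤ x → x ≤ y →
      (∫ s in x..y, R s) - 2 * (∫ s in x..y, exp (-s) * X s) ≤ E y - E x := by
    intro x y hx hxy
    have iX := (hXint x y hx hxy).1
    rw [← intervalIntegral.integral_eq_sub_of_hasDerivAt (fun s _ => dE s)
      (cE1.intervalIntegrable x y), ← intervalIntegral.integral_const_mul,
      ← intervalIntegral.integral_sub (cR.intervalIntegrable _ _) (iX.const_mul 2)]
    refine intervalIntegral.integral_mono_on hxy ((cR.intervalIntegrable _ _).sub (iX.const_mul 2))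
      (cE1.intervalIntegrable _ _) (fun s hs => ?_)
    have h1 := key s (hx.trans hs.1)
    rw [hR]
    linarith
  obtain ⟨iXX, bXX⟩ := hXint α (β + 1) le_rfl (by linarith)
  obtain ⟨k0, hk0⟩ : ∃ k0 : ℝ, k0 = (∫ s in α..β, R s) - c' * (exp (-α) * P (α + 1))
      - (1 + κ + ε) * (exp (-β) * P (β + 1)) - 2 * ∫ s in α..(β + 1), exp (-s) * X s := ⟨_, rfl⟩
  have hu : ∀ u ∈ Icc (0 : ℝ) 1, k0 ≤ E (β + u) - E (α + u) := by
    intro u hu
    have h1 := hint (α + u) (β + u) (by linarith [hu.1]) (by linarith)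
    have hXm : ∫ s in (α + u)..(β + u), exp (-s) * X s ≤ ∫ s in α..(β + 1), exp (-s) * X s :=
      intervalIntegral.integral_mono_interval (by linarith [hu.1]) (by linarith)
        (by linarith [hu.2]) (Eventually.of_forall fun s => mul_nonneg (exp_pos _).le (hX0 s)) iXX
    have h2 : ∫ s in (α + u)..(β + u), R s
        = (∫ s in α..β, R s) - (∫ s in α..(α + u), R s) + ∫ s in β..(β + u), R s := by
      have i1 := intervalIntegral.integral_add_adjacent_intervals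
        (cR.intervalIntegrable (μ := volume) α (α + u)) (cR.intervalIntegrable (μ := volume) (α + u) (β + u))
      have i2 := intervalIntegral.integral_add_adjacent_intervals
        (cR.intervalIntegrable (μ := volume) α β) (cR.intervalIntegrable (μ := volume) β (β + u))
      linarith
    have h3 : ∫ s in α..(α + u), R s ≤ c' * (exp (-α) * P (α + 1)) := by
      have i1 : ∫ s in α..(α + u), R s ≤ ∫ s in α..(α + u), c' * (exp (-α) * P (α + 1)) := by
        refine intervalIntegral.integral_mono_on (by linarith [hu.1]) (cR.intervalIntegrable _ _)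
          intervalIntegrable_const (fun s hs => ?_)
        have j1 : exp (-s) ≤ exp (-α) := exp_le_exp.2 (by linarith [hs.1])
        have j2 : P s ≤ P (α + 1) := hPm (by linarith [hs.2, hu.2])
        have j3 : exp (-s) * P s ≤ exp (-α) * P (α + 1) :=
          mul_le_mul j1 j2 (hP0 s) (exp_pos _).le
        have j4 := mul_le_mul_of_nonneg_left j3 hc.le
        have j5 := hRle s
        linarith
      rw [intervalIntegral.integral_const, smul_eq_mul, add_sub_cancel_left] at i1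
      have i2 : 0 ≤ c' * (exp (-α) * P (α + 1)) :=
        mul_nonneg hc.le (mul_nonneg (exp_pos _).le (hP0 _))
      exact i1.trans (mul_le_of_le_one_left i2 hu.2)
    have h4 : -((1 + κ + ε) * (exp (-β) * P (β + 1))) ≤ ∫ s in β..(β + u), R s := by
      have i1 : ∫ s in β..(β + u), -((1 + κ + ε) * (exp (-β) * P (β + 1)))
          ≤ ∫ s in β..(β + u), R s := by
        refine intervalIntegral.integral_mono_on (by linarith [hu.1])
          intervalIntegrable_const (cR.intervalIntegrable _ _) (fun s hs => ?_)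
        have j1 : exp (-s) ≤ exp (-β) := exp_le_exp.2 (by linarith [hs.1])
        have j2 : P s ≤ P (β + 1) := hPm (by linarith [hs.2, hu.2])
        have j3 : exp (-s) * P s ≤ exp (-β) * P (β + 1) :=
          mul_le_mul j1 j2 (hP0 s) (exp_pos _).le
        have j4 := mul_le_mul_of_nonneg_left j3 (show 0 ≤ 1 + κ + ε by linarith)
        have j5 := hRge s
        linarith
      rw [intervalIntegral.integral_const, smul_eq_mul, add_sub_cancel_left] at i1
      have i2 : 0 ≤ (1 + κ + ε) * (exp (-β) * P (β + 1)) :=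
        mul_nonneg (by linarith only [hκ, hε]) (mul_nonneg (exp_pos _).le (hP0 _))
      have i3 := mul_le_of_le_one_left i2 hu.2
      linarith only [i1, i3]
    rw [hk0]
    linarith only [h1, hXm, h2, h3, h4]
  have hk : k0 ≤ (∫ s in β..(β + 1), E s) - ∫ s in α..(α + 1), E s := by
    have i0 : ∫ u in (0 : ℝ)..1, k0 ≤ ∫ u in (0 : ℝ)..1, (E (β + u) - E (α + u)) := by
      refine intervalIntegral.integral_mono_on (by norm_num) intervalIntegrable_const ?_ hu
      exact Continuous.intervalIntegrable (by fun_prop) _ _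
    rw [intervalIntegral.integral_const, smul_eq_mul, sub_zero, one_mul,
      intervalIntegral.integral_sub (Continuous.intervalIntegrable (by fun_prop) _ _)
        (Continuous.intervalIntegrable (by fun_prop) _ _),
      intervalIntegral.integral_comp_add_left E β, intervalIntegral.integral_comp_add_left E α,
      add_zero, add_zero] at i0
    exact i0
  have aE : ∀ x, α ≤ x → |∫ y in x..(x + 1), E y| ≤
      4 * K * (2 + (|b| + 1)) * (exp (-x) * P (x + 1)) := by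
    intro x hx
    refine avgE hK (by positivity) hEv dW cWx cV cφ1 hPm (fun y hy => bW y (hx.trans hy.1))
      (fun y hy => bV y (hx.trans hy.1)) (fun y hy => ?_)
    exact (hsb y (hαb.trans (hx.trans hy.1))).2.2.1
  have q1 := (abs_le.1 (aE β hαβ)).2
  have q2 := (abs_le.1 (aE α le_rfl)).1
  have hRs : ∫ s in α..β, R s = (∫ s in α..β, exp (-s) * Y s)
      - (κ + 2 * e0) * ∫ s in α..β, exp (-s) * P s := by
    rw [← intervalIntegral.integral_const_mul, ← intervalIntegral.integral_sub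
      (Continuous.intervalIntegrable (by fun_prop) _ _)
      (Continuous.intervalIntegrable (by fun_prop) _ _)]
    congr 1
    funext s
    rw [hR]
    ring
  have hPe : (∫ s in α..β, exp (-s) * (M s + D0)) = ∫ s in α..β, exp (-s) * P s := by
    congr 1
    funext s
    rw [hPv]
  -- the integral of `P` over `[α, β + 1]`
  have hPb : ∫ s in α..(β + 1), exp (-s) * P s
      ≤ (∫ s in α..β, exp (-s) * P s) + exp (-β) * P (β + 4) := by
    have ci : ∀ u v, IntervalIntegrable (fun s => exp (-s) * P s) volume u v := fun u v =>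
      Continuous.intervalIntegrable (by fun_prop) _ _
    rw [← intervalIntegral.integral_add_adjacent_intervals (ci α β) (ci β (β + 1))]
    have i1 : ∫ s in β..(β + 1), exp (-s) * P s ≤ ∫ s in β..(β + 1), exp (-β) * P (β + 4) := by
      refine intervalIntegral.integral_mono_on (by linarith) (ci _ _)
        intervalIntegrable_const (fun s hs => ?_)
      exact mul_le_mul (exp_le_exp.2 (by linarith [hs.1])) (hPm (by linarith [hs.2])) (hP0 s)
        (exp_pos _).le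
    rw [intervalIntegral.integral_const, smul_eq_mul, add_sub_cancel_left, one_mul] at i1
    linarith
  rw [hPe, ← hPv, ← hPv]
  have z1 : 0 ≤ exp (-α) * P (α + 4) := mul_nonneg (exp_pos _).le (hP0 _)
  have z2 : 0 ≤ exp (-β) * P (β + 4) := mul_nonneg (exp_pos _).le (hP0 _)
  have w1 : exp (-α) * P (α + 1) ≤ exp (-α) * P (α + 4) :=
    mul_le_mul_of_nonneg_left (hPm (by linarith)) (exp_pos _).le
  have w2 : exp (-β) * P (β + 1) ≤ exp (-β) * P (β + 4) :=
    mul_le_mul_of_nonneg_left (hPm (by linarith)) (exp_pos _).le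
  have w3 : exp (-α) * P (α + 3) ≤ exp (-α) * P (α + 4) :=
    mul_le_mul_of_nonneg_left (hPm (by linarith)) (exp_pos _).le
  have w4 : exp (-(β + 1)) * P (β + 1 + 3) ≤ exp (-β) * P (β + 4) := by
    have : β + 1 + 3 = β + 4 := by ring
    rw [this]
    exact mul_le_mul_of_nonneg_right (exp_le_exp.2 (by linarith)) (hP0 _)
  have hBK : 0 ≤ 4 * K * (2 + (|b| + 1)) := by positivity
  have y1 := mul_le_mul_of_nonneg_left w1 hBK
  have y2 := mul_le_mul_of_nonneg_left w2 hBK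
  have y3 := mul_le_mul_of_nonneg_left w1 hc.le
  have y4 := mul_le_mul_of_nonneg_left w2 (show 0 ≤ 1 + κ + ε by linarith)
  have y5 := mul_le_mul_of_nonneg_left (add_le_add w3 w4) hC1
  have y6 := mul_le_mul_of_nonneg_left hPb (show 0 ≤ 2 * e0 by linarith)
  have y7 : 0 ≤ (1 + κ + ε) * (exp (-α) * P (α + 4)) := mul_nonneg (by linarith) z1
  have y8 : 0 ≤ c' * (exp (-β) * P (β + 4)) := mul_nonneg hc.le z2
  have y9 : 0 ≤ ε * (exp (-α) * P (α + 4)) := mul_nonneg hε.le z1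
  have e8 : e0 * 8 = ε := by rw [he0]; ring
  have y10 : 4 * e0 * (exp (-β) * P (β + 4)) ≤ ε * (exp (-β) * P (β + 4)) :=
    mul_le_mul_of_nonneg_right (by linarith) z2
  have hJ0 : 0 ≤ ∫ s in α..β, exp (-s) * P s :=
    intervalIntegral.integral_nonneg hαβ fun s _ => mul_nonneg (exp_pos _).le (hP0 s)
  have y11 : (κ + 6 * e0) * (∫ s in α..β, exp (-s) * P s)
      ≤ (κ + ε) * ∫ s in α..β, exp (-s) * P s :=
    mul_le_mul_of_nonneg_right (by linarith) hJ0
  rw [hk0, hRs] at hk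
  linarith only [hk, q1, q2, bXX, y1, y2, y3, y4, y5, y6, y7, y8, y9, y10, y11]

end Pool.Agent.MMR
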